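import Pool.Agent.TH117.BL.Ten

/-!
# Multiplicative relations between Frobenius eigenvalues
-/

set_option autoImplicit false
set_option linter.unusedSectionVars false
set_option linter.unusedVariables false

namespace Pool.Agent.TH117.BL

open NumberField Pool.Agent.H204R3.CM Pool.Agent.W547.KB Pool.Agent.W547.LD Module
  Pool.Agent.W495.TA Pool.Agent.W495.TB Pool.Agent.W495.TC Pool.Agent.TH117.F5
open scoped TensorProduct

noncomputable section

variable {p : ℕ} [Fact p.Prime] {ν : PadicAlgCl p ≃+* ℂ}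

section

variable {L : Type} [Field L] [NumberField L] [IsCMField L] [IsGalois ℚ L] {j : L →+* ℂ}
  {Z : RedAV p ν}

/-- Weights and complex embeddings. -/
def toEmb (j : L →+* ℂ) (Z : RedAV p ν) (w : Wt Z.X L) : Emb Z := ⟨w.1, j.comp w.2⟩

theorem toEmb_bijective (hZ : Big Z.X j) : Function.Bijective (toEmb j Z) := by
  constructor
  · rintro ⟨i, φ⟩ ⟨i', φ'⟩ h
    obtain ⟨h1, h2⟩ := Sigma.mk.inj_iff.1 h
    subst h1
    have h3 := eq_of_heq h2
    have h4 : φ = φ' := by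
      ext a
      exact j.injective (RingHom.congr_fun h3 a)
    rw [h4]
  · rintro ⟨i, ψ⟩
    obtain ⟨φ, rfl⟩ := hZ i ψ
    exact ⟨⟨i, φ⟩, rfl⟩

theorem norm_pow_two_card (hZ : Big Z.X j) (w : Wt Z.X L) (σ : L ≃ₐ[ℚ] L) :
    ‖ν.symm (j (σ (w.2 (Z.π w.1))))‖ ^ (2 * (Nat.card (Dec p ν j) : ℤ)) =
      ‖(p : PadicAlgCl p)‖ ^ ((Z.a : ℤ) * ((Nat.card (Dec p ν j) : ℤ) + tw p ν j Z.X w σ)) := by
  have h := val_conj Pool.Agent.W366.TA.val (Z.X.factor w.1) (hZ w.1) Z.a (Z.π w.1) (Z.frob w.1)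
    w.2 σ
  rw [tf_hs] at h
  exact h

/-- The valuations of a product of eigenvalues. -/
theorem norm_prod_pow (hZ : Big Z.X j) [Fintype (Wt Z.X L)] (e : Wt Z.X L → ℕ)
    (σ : L ≃ₐ[ℚ] L) :
    ‖ν.symm (j (σ (∏ w : Wt Z.X L, (w.2 (Z.π w.1)) ^ e w)))‖ ^
        (2 * (Nat.card (Dec p ν j) : ℤ)) =
      ‖(p : PadicAlgCl p)‖ ^ ((Z.a : ℤ) * ((Nat.card (Dec p ν j) : ℤ) * ∑ w, (e w : ℤ) +
        ∑ w, (e w : ℤ) * tw p ν j Z.X w σ)) := by
  have h1 : ∀ w : Wt Z.X L, ‖(ν.symm (j (σ (w.2 (Z.π w.1)))) ^ e w)‖ ^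
      (2 * (Nat.card (Dec p ν j) : ℤ)) =
      ‖(p : PadicAlgCl p)‖ ^ ((Z.a : ℤ) * ((Nat.card (Dec p ν j) : ℤ) + tw p ν j Z.X w σ) *
        (e w : ℤ)) := by
    intro w
    rw [norm_pow, ← zpow_natCast, ← zpow_mul, mul_comm, zpow_mul, norm_pow_two_card hZ,
      ← zpow_mul]
  simp only [map_prod, map_pow]
  rw [norm_prod, ← Finset.prod_zpow, Finset.prod_congr rfl fun w _ => h1 w,
    ← zpow_sum' norm_p_pos.ne']
  congr 1
  rw [mul_add, Finset.mul_sum, Finset.mul_sum, Finset.mul_sum, ← Finset.sum_add_distrib]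
  refine Finset.sum_congr rfl fun w _ => ?_
  ring

/-- Relations between eigenvalues are relations between the functions. -/
theorem isRel_iff (hZ : Big Z.X j) [Fintype (Wt Z.X L)] (e : Emb Z → ℕ) :
    IsRel Z e ↔ ∀ σ, ∑ w : Wt Z.X L, (e (toEmb j Z w) : ℤ) * tw p ν j Z.X w σ = 0 := by
  classical
  have hD : (0 : ℤ) < Nat.card (Dec p ν j) := card_pos'
  have hbij := toEmb_bijective (j := j) hZ
  let E : Wt Z.X L ≃ Emb Z := Equiv.ofBijective _ hbij
  have hsumE : ∑ w, e w = ∑ w : Wt Z.X L, e (toEmb j Z w) := (Equiv.sum_comp E e).symm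
  have hprodE : ∏ w, eig Z w ^ e w =
      j (∏ w : Wt Z.X L, (w.2 (Z.π w.1)) ^ e (toEmb j Z w)) := by
    rw [← Equiv.prod_comp E, map_prod]
    refine Finset.prod_congr rfl fun w _ => ?_
    rw [map_pow]
    rfl
  set N : ℕ := ∑ w : Wt Z.X L, e (toEmb j Z w) with hN
  set α : L := ∏ w : Wt Z.X L, (w.2 (Z.π w.1)) ^ e (toEmb j Z w) with hα
  have hcast : ∑ w : Wt Z.X L, (e (toEmb j Z w) : ℤ) = (N : ℤ) := by
    rw [hN]
    push_cast
    rfl
  have ha : (Z.a : ℤ) ≠ 0 := by exact_mod_cast Z.pos.ne'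
  unfold IsRel
  rw [hsumE, hprodE]
  constructor
  · rintro ⟨s, hs, h⟩ σ
    have h1 : α ^ (2 * s) = ((p : L) ^ Z.a) ^ (s * N) := by
      apply j.injective
      rw [map_pow, h, map_pow, map_pow, map_natCast]
    have h2 := congrArg (fun x => ‖ν.symm (j (σ x))‖ ^ (2 * (Nat.card (Dec p ν j) : ℤ))) h1
    simp only [map_pow, map_natCast, norm_pow] at h2
    have h3 : (‖ν.symm (j (σ α))‖ ^ (2 * s)) ^ (2 * (Nat.card (Dec p ν j) : ℤ)) =
        ‖(p : PadicAlgCl p)‖ ^ ((Z.a : ℤ) * ((Nat.card (Dec p ν j) : ℤ) * (N : ℤ) +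
          ∑ w : Wt Z.X L, (e (toEmb j Z w) : ℤ) * tw p ν j Z.X w σ) * (2 * s : ℕ)) := by
      rw [← zpow_natCast, ← zpow_mul, mul_comm, zpow_mul, hα,
        norm_prod_pow hZ (fun w => e (toEmb j Z w)) σ, ← zpow_mul, hcast]
    rw [h3, ← zpow_natCast, ← zpow_natCast, ← zpow_mul, ← zpow_mul] at h2
    have h4 := zpow_inj h2
    push_cast at h4
    have hs1 : (s : ℤ) ≠ 0 := by exact_mod_cast hs.ne'
    have h5 : ((Z.a : ℤ) * s) * (2 * ∑ w : Wt Z.X L, (e (toEmb j Z w) : ℤ) *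
        tw p ν j Z.X w σ) = 0 := by linarith
    have h6 := (mul_eq_zero.1 h5).resolve_left (mul_ne_zero ha hs1)
    omega
  · intro h
    rcases Nat.eq_zero_or_pos N with hN0 | hNpos
    · refine ⟨1, one_pos, ?_⟩
      have h1 : ∀ w : Wt Z.X L, e (toEmb j Z w) = 0 := by
        intro w
        rw [hN] at hN0
        exact (Finset.sum_eq_zero_iff.1 hN0) w (Finset.mem_univ w)
      have h2 : α = 1 := by
        rw [hα]
        refine Finset.prod_eq_one fun w _ => ?_
        rw [h1, pow_zero]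
      rw [h2, hN0]
      simp
    · have hint : IsIntegral ℤ α := by
        rw [hα]
        refine IsIntegral.prod _ fun w _ => ?_
        exact ((Z.frob w.1).integral.map w.2.toIntAlgHom).pow _
      obtain ⟨n, hn, h1⟩ := Pool.Agent.W64.TA.ru p ν L j α (p : L) (Z.a * N) 2
        (Nat.mul_pos Z.pos hNpos) (by norm_num) hint (isIntegral_natCast p)
        (fun ψ => by
          rw [hα, map_prod, norm_prod, ← Finset.prod_pow]
          have e1 : ∀ w : Wt Z.X L, ‖ψ ((w.2 (Z.π w.1)) ^ e (toEmb j Z w))‖ ^ 2 =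
              (p : ℝ) ^ (Z.a * e (toEmb j Z w)) := by
            intro w
            have e2 := (Z.frob w.1).weil (ψ.comp w.2)
            change ‖ψ (w.2 (Z.π w.1))‖ ^ 2 = _ at e2
            rw [map_pow, norm_pow, ← pow_mul, mul_comm, pow_mul, e2, ← pow_mul]
          rw [Finset.prod_congr rfl fun w _ => e1 w, Finset.prod_pow_eq_pow_sum,
            ← Finset.mul_sum])
        (fun ψ => by rw [map_natCast, Complex.norm_natCast])
        (fun σ => by
          have e1 := norm_prod_pow hZ (fun w => e (toEmb j Z w)) σ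
          rw [hcast, h σ, add_zero, ← hα] at e1
          rw [map_natCast, map_natCast, map_natCast]
          have e2 : (‖ν.symm (j (σ α))‖ ^ 2) ^ (Nat.card (Dec p ν j) : ℤ) =
              (‖(p : PadicAlgCl p)‖ ^ (Z.a * N)) ^ (Nat.card (Dec p ν j) : ℤ) := by
            rw [← zpow_natCast, ← zpow_natCast, ← zpow_mul, ← zpow_mul]
            push_cast
            rw [e1]
            congr 1
            ring
          rw [zpow_natCast, zpow_natCast] at e2
          exact (pow_left_inj₀ (by positivity) (by positivity) (Nat.card_pos.ne')).1 e2)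
      refine ⟨n, hn, ?_⟩
      rw [← map_pow, h1, map_pow, map_natCast, ← pow_mul]
      congr 1
      ring

end

end

end Pool.Agent.TH117.BL
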