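import Pool.Agent.TH117.BL.WeilRel

/-!
# Tate classes on abelian varieties with elementary relations between the Frobenius eigenvalues
-/

set_option autoImplicit false
set_option linter.unusedSectionVars false
set_option linter.unusedVariables false

namespace Pool.Agent.TH117.BL

open NumberField Pool.Agent.H204R3.CM Pool.Agent.W547.KB Pool.Agent.W547.LD Module
  Pool.Agent.W495.TA Pool.Agent.W495.TB Pool.Agent.W495.TC Pool.Agent.TH117.F5
open scoped TensorProduct

noncomputable section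

variable {p : ℕ} [Fact p.Prime] {ν : PadicAlgCl p ≃+* ℂ}

section

variable {Ω : Type} [Field Ω] [CharZero Ω]
  {L : Type} [Field L] [NumberField L] [IsCMField L] [IsGalois ℚ L] {j : L →+* ℂ} (jO : L →+* Ω)
  {Z : RedAV p ν}

/-- Factors that do not form an exceptional pair. -/
theorem noExc (hZ : Big Z.X j) {i k : Z.X.I} (h : ¬ IsExceptionalPair Z i k) :
    NoExc p ν j (Z.X.factor i) (Z.X.factor k) := by
  intro hf φ φ' ψ h1 h2 h3
  obtain ⟨s, hs, hrel⟩ := eigen_rel hZ i k φ φ' ψ (fun g => congrFun h3 g)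
  have hjinj : ∀ (A : CMPair) (x y : A.E →+* L), j.comp x = j.comp y → x = y := by
    intro A x y h
    ext a
    exact j.injective (RingHom.congr_fun h a)
  refine h ⟨hf, j.comp ψ, j.comp φ, j.comp φ', s, fun h' => h1 (hjinj _ _ _ h'), ?_, hs, ?_⟩
  · rw [← comp_smul_cc]
    exact fun h' => h2 (hjinj _ _ _ h')
  · have h1 := congrArg j hrel
    rw [map_pow, map_mul, map_pow, map_mul, map_pow, map_pow, map_natCast] at h1
    exact h1

/-- The closure condition excludes bad pairs. -/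
theorem not_bad (hZ : Big Z.X j) {i k : Z.X.I} (hi : finrank ℚ (Z.X.factor i).E ≤ 6)
    (hk : finrank ℚ (Z.X.factor k).E ≤ 6)
    (h : IntermediateField.normalClosure ℚ (Z.X.factor i).E ℂ =
      IntermediateField.normalClosure ℚ (Z.X.factor k).E ℂ →
        IsGalois ℚ (Z.X.factor i).E ∨ IsSupersingular Z i ∨ IsSupersingular Z k ∨ IsIsogenous Z i k) :
    ¬ IsBad p ν j (Z.X.factor i) (Z.X.factor k) := by
  intro hb
  obtain ⟨h3, h4⟩ := Pool.Agent.W101.TC.clos p ν L j (Z.X.factor i) (Z.X.factor k) (hZ i) (hZ k) hi hk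
    (by
      obtain ⟨x, y, h5, h6⟩ := hb.wideA
      refine ⟨x, y, ?_, ?_⟩
      · change tf p ν j (hs (Z.X.factor i) j x) ≠ tf p ν j (hs (Z.X.factor i) j y)
        rw [tf_hs, tf_hs]
        exact h5
      · change tf p ν j (hs (Z.X.factor i) j x) ≠ -tf p ν j (hs (Z.X.factor i) j y)
        rw [tf_hs, tf_hs]
        exact h6)
    (by
      obtain ⟨x, y, h5, h6⟩ := hb.wideB
      refine ⟨x, y, ?_, ?_⟩
      · change tf p ν j (hs (Z.X.factor k) j x) ≠ tf p ν j (hs (Z.X.factor k) j y)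
        rw [tf_hs, tf_hs]
        exact h5
      · change tf p ν j (hs (Z.X.factor k) j x) ≠ -tf p ν j (hs (Z.X.factor k) j y)
        rw [tf_hs, tf_hs]
        exact h6)
    (by
      intro g
      simp only [tf_hs]
      exact hb.ker g)
  rcases h h3 with h5 | h5 | h5 | h5
  · obtain ⟨φ, φ', h6⟩ := h4 h5
    rw [tf_hs, tf_hs] at h6
    exact hb.ne φ φ' h6
  · obtain ⟨x, y, h6, -⟩ := hb.wideA
    apply h6
    have h7 := tf_zero Pool.Agent.W366.TA.val hZ i h5 x
    have h8 := tf_zero Pool.Agent.W366.TA.val hZ i h5 y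
    rw [tf_hs] at h7 h8
    exact h7.trans h8.symm
  · obtain ⟨x, y, h6, -⟩ := hb.wideB
    apply h6
    have h7 := tf_zero Pool.Agent.W366.TA.val hZ k h5 x
    have h8 := tf_zero Pool.Agent.W366.TA.val hZ k h5 y
    rw [tf_hs] at h7 h8
    exact h7.trans h8.symm
  · obtain ⟨x, -⟩ := hb.wideB
    obtain ⟨φ, hφ⟩ := tf_iso Pool.Agent.W366.TA.val hZ i k h5 x
    rw [tf_hs, tf_hs] at hφ
    exact hb.ne φ x hφ

/-- Complex conjugation of weights. -/
def cw (Z : RedAV p ν) (l : Wt Z.X L) : Wt Z.X L := ⟨l.1, cc L • l.2⟩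

theorem tw_cw (l : Wt Z.X L) : tw p ν j Z.X (cw Z l) = -tw p ν j Z.X l := nn_cc (Z.X.factor l.1) l.2

/-- The families belonging to a good set of factors. -/
theorem fam_set (hZ : Big Z.X j) (hkp : BigA (kp p) j) (S : Set Z.X.I) (hgood : IsGoodSet Z S) :
    IsGoodP (cw Z) (tw p ν j Z.X) (AlgM p ν j jO) fun l => l.1 ∈ S := by
  classical
  refine ⟨fun l hl => hl, ?_⟩
  intro κ _ w hw hsum heven
  let X' : CMAV := { I := {i : Z.X.I // i ∈ S}, factor := fun i => Z.X.factor i.1 }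
  have hX' : Big X' j := fun i ψ => hZ i.1 ψ
  have key : Fam (AlgM p ν j jO) (tw p ν j X') := by
    rcases hgood with ⟨h1, h2⟩ | ⟨h1, h2⟩
    · refine fam_ten j jO X' hX' hkp Z.a Z.pos (fun i => Z.π i.1) (fun i => Z.frob i.1) ?_ ?_
      · refine le_trans (le_of_eq ?_) h1
        rw [← Finset.sum_filter]
        exact (Finset.sum_subtype (Finset.univ.filter fun i => i ∈ S)
          (fun x => by simp) fun i => finrank ℚ (Z.X.factor i).E).symm
      · intro i k hik
        exact noExc hZ (h2 i.1 i.2 k.1 k.2 fun h => hik (Subtype.ext h))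
    · refine fam_small j jO X' hX' hkp (fun i => h1 i.1 i.2) fun i k => ?_
      exact not_bad hZ (h1 i.1 i.2) (h1 k.1 k.2) (h2 i.1 i.2 k.1 k.2)
  have hex : ∀ k, ∃ o : Option (Wt X' L), ext0 (tw p ν j Z.X) (w k) = ext0 (tw p ν j X') o := by
    intro k
    rcases hk : w k with _ | l
    · exact ⟨none, rfl⟩
    · exact ⟨some ⟨⟨l.1, hw k l hk⟩, l.2⟩, rfl⟩
  choose f hf using hex
  have h3 : (fun k => ext0 (tw p ν j Z.X) (w k)) = fun k => ext0 (tw p ν j X') (f k) := funext hf
  rw [h3]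
  refine @key κ _ f (fun g => ?_) heven
  rw [← hsum g]
  exact Finset.sum_congr rfl fun k _ => by rw [hf k]

/-- All families. -/
theorem fam_all (hZ : Big Z.X j) (hkp : BigA (kp p) j) (hrel : HasElementaryRelations Z) :
    Fam (AlgM p ν j jO) (tw p ν j Z.X) := by
  classical
  have hfin := finite_wt j hZ
  let _ : Fintype (Wt Z.X L) := Fintype.ofFinite _
  have hclosed := closedM (p := p) (ν := ν) j jO
  have hc0 := cancel_zero (p := p) (ν := ν) j jO hkp
  have hbij := toEmb_bijective (j := j) hZ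
  let E : Wt Z.X L ≃ Emb Z := Equiv.ofBijective _ hbij
  -- elementary relations
  have key : ∀ d : Emb Z → ℤ, d ∈ AddSubgroup.closure
      {d : Emb Z → ℤ | ∃ n : Emb Z → ℕ, IsRel Z n ∧ IsElementary Z n ∧ ∀ w, d w = n w} →
      GenD (AlgM p ν j jO) (Set.range (ext0 (tw p ν j Z.X)))
        (DD (tw p ν j Z.X) fun l => d (toEmb j Z l)) := by
    intro d hd
    induction hd using AddSubgroup.closure_induction with
    | mem d hd =>
      obtain ⟨n, h0, h2, h3⟩ := hd
      have h1 := (isRel_iff hZ n).1 h0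
      have h4 : (fun l => d (toEmb j Z l)) = fun l : Wt Z.X L => (n (toEmb j Z l) : ℤ) :=
        funext fun l => h3 _
      rw [h4]
      rcases h2 with h2 | ⟨S, hS, h2⟩ | h2
      · rw [DD_small (tw p ν j Z.X) (fun l => n (toEmb j Z l)) (by
          rw [← Equiv.sum_comp E] at h2
          exact h2) h1]
        exact GenD.zero
      · exact genD_of_good (cw Z) (tw p ν j Z.X) tw_cw (fam_set jO hZ hkp S hS)
          (fun l => n (toEmb j Z l)) (fun l hl => h2 _ hl) h1
      · exact genD_weil jO hZ hkp n h0 h2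
    | zero =>
      have h4 : (fun l : Wt Z.X L => (0 : Emb Z → ℤ) (toEmb j Z l)) = 0 := rfl
      rw [h4, DD_zero]
      exact GenD.zero
    | add d d' _ _ h h' =>
      have h4 : (fun l : Wt Z.X L => (d + d') (toEmb j Z l)) =
        (fun l => d (toEmb j Z l)) + fun l => d' (toEmb j Z l) := rfl
      rw [h4, DD_add]
      exact h.add h'
    | neg d _ h =>
      have h4 : (fun l : Wt Z.X L => (-d) (toEmb j Z l)) = -fun l => d (toEmb j Z l) := rfl
      rw [h4, DD_neg]
      exact h.neg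
  intro κ _ w hsum heven
  let e : Emb Z → ℕ := fun u => Nat.card {k // w k = some (E.symm u)}
  have he : ∀ v : Wt Z.X L, (e (toEmb j Z v) : ℤ) = cnt w v := by
    intro v
    have h1 : E.symm (toEmb j Z v) = v := E.symm_apply_apply v
    change ((Nat.card {k // w k = some (E.symm (toEmb j Z v))} : ℕ) : ℤ) = _
    rw [h1]
    rfl
  have h1 : IsRel Z e := by
    rw [isRel_iff hZ]
    intro σ
    rw [← hsum σ, sum_eq_cnt]
    exact Finset.sum_congr rfl fun v _ => by rw [he]
  have h2 := key _ (hrel e h1)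
  have h3 : (fun l : Wt Z.X L => ((e (toEmb j Z l) : ℕ) : ℤ)) = cnt w := funext he
  have h4 : GenD (AlgM p ν j jO) (Set.range (ext0 (tw p ν j Z.X)))
      (dcnt fun k => ext0 (tw p ν j Z.X) (w k)) := by
    rw [dcnt_eq_DD, ← h3]
    exact h2
  refine @of_genD _ _ (Set.range (ext0 (tw p ν j Z.X))) hclosed ?_ κ _
    (fun k => ext0 (tw p ν j Z.X) (w k)) (fun k => ⟨w k, rfl⟩)
    (by rw [Nat.card_eq_fintype_card]; exact heven) h4
  rintro f ⟨o, rfl⟩
  rcases o with _ | l
  · exact hc0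
  · exact cancel_nn j jO (Z.X.factor l.1) l.2

/-- The functions of the weights of `Y`. -/
theorem weight_cases {Y : RedAV p ν} (hYj : Big Y.X j) (hZ : Big Z.X j)
    (hY : IsPowersTimesSupersingular Z Y) (w : Wt Y.X L) :
    ∃ o : Option (Wt Z.X L), tf p ν j (St j w) = ext0 (tw p ν j Z.X) o := by
  obtain ⟨i, φ⟩ := w
  rcases hY i with h | ⟨k, ι, s, t, hs, ht, hst, h⟩
  · exact ⟨none, tf_zero Pool.Agent.W366.TA.val hYj i h φ⟩
  · let Y' : RedAV p ν :=
      { X := single (Y.X.factor i)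
        a := Y.a
        pos := Y.pos
        π := fun _ => Y.π i
        frob := fun _ => Y.frob i }
    have hY' : Big Y'.X j := fun _ ψ => hYj i ψ
    obtain h1 | ⟨φ', h1⟩ := tf_cases (Y := Y') Pool.Agent.W366.TA.val hY' (hZ k) Z.pos (Z.frob k)
      (fun _ => Or.inr ⟨ι, s, t, hs, ht, hst, h⟩) (⟨(), φ⟩ : Wt Y'.X L)
    · exact ⟨none, h1⟩
    · refine ⟨some ⟨k, φ'⟩, ?_⟩
      exact h1.trans (tf_hs j (Z.X.factor k) φ')

end

/-- The main theorem. -/
theorem elementary (Z : RedAV p ν) (hrel : HasElementaryRelations Z)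
    (Ω : Type) [Field Ω] [IsAlgClosed Ω] [CharZero Ω]
    (Y : RedAV p ν) (hY : IsPowersTimesSupersingular Z Y) (s m : ℕ) (hs0 : 0 < s)
    (f : (TM Ω Y) [⋀^Fin (2 * m)]→ₗ[Ω] Ω) (hf : IsTateClass Ω Y s m f) :
    Alg Ω Y (Fin (2 * m)) f := by
  classical
  have hne : Nonempty ((Y.X.prod Z.X).prod (single (kp p))).I := ⟨Sum.inr ()⟩
  obtain ⟨L, _, _, _, _, j, hj⟩ := exists_cm ((Y.X.prod Z.X).prod (single (kp p)))
  have hYj : Big Y.X j := fun i ψ => hj (Sum.inl (Sum.inl i)) ψ
  have hZj : Big Z.X j := fun i ψ => hj (Sum.inl (Sum.inr i)) ψ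
  have hkp : BigA (kp p) j := fun ψ => hj (Sum.inr ()) ψ
  let jO : L →+* Ω := ((IsAlgClosed.lift : L →ₐ[ℚ] Ω) : L →+* Ω)
  obtain ⟨e, h1, h2⟩ := Pool.Agent.W67.TA.basis p ν Ω L j jO Y hYj
  refine Pool.Agent.W351.TA.expand p ν Ω L jO Y e h1 h2 _ f fun I hI => ?_
  have hbal := balanced jO Pool.Agent.W366.TA.val hYj e h1 h2 s m hs0 f hf I hI
  choose o ho using fun w => weight_cases hYj hZj hY w
  have key : AlgM p ν j jO (Fin (2 * m)) fun k => tf p ν j (St j (I k)) := by
    have h3 : (fun k => tf p ν j (St j (I k))) = fun k => ext0 (tw p ν j Z.X) (o (I k)) :=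
      funext fun k => ho (I k)
    rw [h3]
    refine @fam_all p _ ν Ω _ _ L _ _ _ _ j jO Z hZj hkp hrel (Fin (2 * m)) _
      (fun k => o (I k)) (fun g => ?_) (by
        rw [Fintype.card_fin]
        exact even_two_mul m)
    rw [← hbal g]
    exact Finset.sum_congr rfl fun k _ => by rw [ho (I k)]
  exact key Y hYj I fun k => rfl

end

end Pool.Agent.TH117.BL
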