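import Pool.Agent.W495.TC.Stms

/-!
# Abelian varieties over finite fields with elementary relations between the Frobenius eigenvalues:
definitions
-/

set_option autoImplicit false

namespace Pool.Agent.TH117.BL

open NumberField Pool.Agent.H204R3.CM Pool.Agent.W547.KB Pool.Agent.W495.TA Pool.Agent.W495.TC Module

/-- The degrees and fields in the exceptional cases: two non-Galois quartic fields with the same
Galois closure, or an imaginary quadratic field and a field of degree eight. -/
def ExcFields (A B : CMPair) : Prop :=
  (finrank ℚ A.E = 4 ∧ finrank ℚ B.E = 4 ∧ ¬ IsGalois ℚ A.E ∧ ¬ IsGalois ℚ B.E ∧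
    IntermediateField.normalClosure ℚ A.E ℂ = IntermediateField.normalClosure ℚ B.E ℂ) ∨
  (finrank ℚ A.E = 2 ∧ finrank ℚ B.E = 8)

variable {p : ℕ} [Fact p.Prime] {ν : PadicAlgCl p ≃+* ℂ}

/-- The pairs of (the index of) a factor and a complex embedding of its CM field. -/
abbrev Emb (Z : RedAV p ν) : Type := Σ i, (Z.X.factor i).E →+* ℂ

/-- The Frobenius eigenvalues on the first cohomology of `Z`. -/
def eig (Z : RedAV p ν) (w : Emb Z) : ℂ := w.2 (Z.π w.1)

/-- A multiplicative relation between the Frobenius eigenvalues, `q = p ^ a` and roots of unity: the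
product of the eigenvalues with the exponents `e w` is a square root of the power of `q` with the
exponent `∑ e w`, up to a root of unity. -/
def IsRel (Z : RedAV p ν) (e : Emb Z → ℕ) : Prop :=
  ∃ s : ℕ, 0 < s ∧ (∏ w, eig Z w ^ e w) ^ (2 * s) = ((p : ℂ) ^ Z.a) ^ (s * ∑ w, e w)

/-- The factors of `Z` with the indices `i` and `k` form an exceptional pair: either their CM fields are
two non-Galois quartic fields with the same Galois closure over `ℚ`, or these are an imaginary quadratic
field and a field of degree eight; and there are an eigenvalue `ψ (π i)` of the Frobenius endomorphism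
of the first factor and two eigenvalues `φ (π k)` and `φ' (π k)` of the Frobenius endomorphism of the
second one, belonging to embeddings `φ`, `φ'` that are neither equal nor complex conjugate, such that
`φ (π k) * φ' (π k)` is the product of `ψ (π i)` and of a square root of the number `p ^ a` of elements
of the ground field, up to a root of unity. -/
def IsExceptionalPair (Z : RedAV p ν) (i k : Z.X.I) : Prop :=
  ExcFields (Z.X.factor i) (Z.X.factor k) ∧
    ∃ (ψ : (Z.X.factor i).E →+* ℂ) (φ φ' : (Z.X.factor k).E →+* ℂ) (s : ℕ),
      φ' ≠ φ ∧ φ' ≠ ComplexEmbedding.conjugate φ ∧ 0 < s ∧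
        (eig Z ⟨k, φ⟩ * eig Z ⟨k, φ'⟩) ^ (2 * s) = (eig Z ⟨i, ψ⟩ ^ 2 * (p : ℂ) ^ Z.a) ^ s

open Classical in
/-- A set `S` of (indices of) factors is good in one of the following cases:

* the sum of the dimensions of the factors in `S` is at most five (so the sum of the degrees of their
  CM fields is at most ten), and no two of them form an exceptional pair;
* the factors in `S` have dimension at most three, and any two of them whose CM fields have the same
  Galois closure over `ℚ` (in the field of complex numbers) are isogenous, unless these CM fields are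
  Galois over `ℚ` or one of the two factors is supersingular. -/
def IsGoodSet (Z : RedAV p ν) (S : Set Z.X.I) : Prop :=
  ((∑ i, if i ∈ S then finrank ℚ (Z.X.factor i).E else 0) ≤ 10 ∧
    ∀ i ∈ S, ∀ k ∈ S, i ≠ k → ¬ IsExceptionalPair Z i k) ∨
  ((∀ i ∈ S, finrank ℚ (Z.X.factor i).E ≤ 6) ∧
    ∀ i ∈ S, ∀ k ∈ S, IntermediateField.normalClosure ℚ (Z.X.factor i).E ℂ =
      IntermediateField.normalClosure ℚ (Z.X.factor k).E ℂ →
        IsGalois ℚ (Z.X.factor i).E ∨ IsSupersingular Z i ∨ IsSupersingular Z k ∨ IsIsogenous Z i k)

/-- An imaginary quadratic field `K` with a complex embedding `κ`, and embeddings of `K` in the CM fields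
of the factors in a set `S`. -/
structure WeilDatum (Z : RedAV p ν) where
  /-- the field `K` -/
  K : Type
  [field : Field K]
  [numberField : NumberField K]
  [cm : IsCMField K]
  quadratic : finrank ℚ K = 2
  /-- the embedding in the field of complex numbers -/
  κ : K →+* ℂ
  /-- the set of factors -/
  S : Set Z.X.I
  /-- the embeddings in the CM fields of the factors -/
  ι : ∀ i, i ∈ S → (K →+* (Z.X.factor i).E)

attribute [instance] WeilDatum.field WeilDatum.numberField WeilDatum.cm

/-- The eigenvalue belongs to a factor in `S` and to an embedding whose restriction to `K` is `κ`. -/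
def WeilDatum.IsPos {Z : RedAV p ν} (W : WeilDatum Z) (w : Emb Z) : Prop :=
  ∃ h : w.1 ∈ W.S, w.2.comp (W.ι w.1 h) = W.κ

open Classical in
/-- The exponent `e w` of an eigenvalue `w`, `φ (π i)`, is one if `i ∈ S` and the restriction of `φ` to
`K` is `κ`, and otherwise it is zero. -/
def WeilDatum.HasExponents {Z : RedAV p ν} (W : WeilDatum Z) (e : Emb Z → ℕ) : Prop :=
  ∀ w, e w = if W.IsPos w then 1 else 0

/-- The product of two eigenvalues `φ (π i)`, `φ' (π i)` of one factor in `S`, with `φ = φ' = κ` on `K`,
is not `q` up to a root of unity. -/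
def WeilDatum.NoPair {Z : RedAV p ν} (W : WeilDatum Z) : Prop :=
  ∀ w w', W.IsPos w → W.IsPos w' → w.1 = w'.1 → ∀ n : ℕ, 0 < n →
    (eig Z w * eig Z w') ^ n ≠ ((p : ℂ) ^ Z.a) ^ n

/-- The prime number `p` splits in `K`: the embedding `κ` and its complex conjugate define different
`p`-adic places. -/
def WeilDatum.IsSplitAt {Z : RedAV p ν} (W : WeilDatum Z) : Prop :=
  ¬ SamePlace p ν W.κ (ComplexEmbedding.conjugate W.κ)

/-- The exponents `e w` belong to the Weil classes of an imaginary quadratic field `K` on the product of
the factors in a set `S`: the exponent of an eigenvalue `φ (π i)` is one if `i ∈ S` and the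
restriction of `φ` to `K` is `κ`, and otherwise it is zero. Here we assume that the product of two of
the eigenvalues `φ (π i)`, `φ' (π i)` with the exponent one, for one factor, is not `q` up to a root of
unity (`K` is contained in the fields generated by the powers of the Frobenius endomorphisms), and that
the dimension of the product of the factors in `S`, the sum of the exponents, is three, four or five, or
that it is six and `p` splits in `K`. -/
def IsWeilRelation (Z : RedAV p ν) (e : Emb Z → ℕ) : Prop :=
  ∃ W : WeilDatum Z, W.HasExponents e ∧ W.NoPair ∧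
    ((3 ≤ ∑ w, e w ∧ ∑ w, e w ≤ 5) ∨ (∑ w, e w = 6 ∧ W.IsSplitAt))

/-- A relation with the exponents `e w` is elementary if it involves at most two eigenvalues (with
multiplicities), or only eigenvalues that belong to the factors in a good set, or if it is a Weil
relation. -/
def IsElementary (Z : RedAV p ν) (e : Emb Z → ℕ) : Prop :=
  ∑ w, e w ≤ 2 ∨ (∃ S : Set Z.X.I, IsGoodSet Z S ∧ ∀ w, e w ≠ 0 → w.1 ∈ S) ∨ IsWeilRelation Z e

/-- The multiplicative relations between the Frobenius eigenvalues are products of elementary relations
and of inverses of such relations. -/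
def HasElementaryRelations (Z : RedAV p ν) : Prop :=
  ∀ e : Emb Z → ℕ, IsRel Z e → (fun w => (e w : ℤ)) ∈ AddSubgroup.closure
    {d : Emb Z → ℤ | ∃ n : Emb Z → ℕ, IsRel Z n ∧ IsElementary Z n ∧ ∀ w, d w = n w}

/-- The abelian variety `Y` is (over an algebraic closure) isogenous to a product of a supersingular
abelian variety and of powers of the factors of `Z`: each factor of `Y` is supersingular or (an
embedding of the CM fields takes a power of the Frobenius endomorphism of a factor of `Z` to a power of
its Frobenius endomorphism) isogenous to a power of a factor of `Z`. -/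
def IsPowersTimesSupersingular (Z Y : RedAV p ν) : Prop :=
  ∀ i : Y.X.I, IsSupersingular Y i ∨
    ∃ (k : Z.X.I) (ι : (Z.X.factor k).E →+* (Y.X.factor i).E) (s t : ℕ), 0 < s ∧ 0 < t ∧
      Y.a * s = Z.a * t ∧ (Y.π i) ^ s = ι ((Z.π k) ^ t)

end Pool.Agent.TH117.BL
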