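import Pool.Agent.TH117.BL.Eight

/-!
# Combinatorics: relations between the functions of two orbits with four elements
-/

set_option autoImplicit false
set_option linter.unusedSectionVars false
set_option linter.unusedVariables false

namespace Pool.Agent.TH117.BL

open Pool.Agent.W495.TA Pool.Agent.W495.TC Pool.Agent.TH117.F5

noncomputable section

section orth

variable {G : Type} [Group G] [Fintype G]

/-- Orthogonal systems of functions. -/
theorem fam_orth {Q : (κ : Type) → (κ → G → ℤ) → Prop} (hQ : Closed G Q)
    (hcancel0 : PairCancel G Q 0) {Λ Λ' : Type} (T : Λ → G → ℤ) (T' : Λ' → G → ℤ)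
    (hT : Fam Q T) (hT' : Fam Q T') (horth : ∀ l l', dot (T l) (T' l') = 0) :
    Fam Q (Sum.elim T T') := by
  classical
  intro κ _ w hsum heven
  refine fam_union hQ hcancel0 (Sum.elim T T') (fun _ => True) (fun l => l.isLeft = true)
    (fun l => l.isRight = true) ?_ ?_ ?_ ?_ κ w (fun _ _ _ => trivial) hsum heven
  · rintro (l | l) -
    · exact Or.inl rfl
    · exact Or.inr rfl
  · intro κ _ w hw hsum heven
    have h1 : ∀ k, ext0 (Sum.elim T T') (w k) =
        ext0 T ((w k).bind (Sum.elim some fun _ => none)) := by
      intro k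
      rcases hk : w k with _ | (l | l)
      · rfl
      · rfl
      · exact absurd (hw k _ hk) (by simp)
    have h2 : (fun k => ext0 (Sum.elim T T') (w k)) = fun k =>
        ext0 T ((w k).bind (Sum.elim some fun _ => none)) := funext h1
    rw [h2]
    refine hT κ _ (fun g => ?_) heven
    rw [← hsum g]
    exact Finset.sum_congr rfl fun k _ => by rw [h1]
  · intro κ _ w hw hsum heven
    have h1 : ∀ k, ext0 (Sum.elim T T') (w k) =
        ext0 T' ((w k).bind (Sum.elim (fun _ => none) some)) := by
      intro k
      rcases hk : w k with _ | (l | l)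
      · rfl
      · exact absurd (hw k _ hk) (by simp)
      · rfl
    have h2 : (fun k => ext0 (Sum.elim T T') (w k)) = fun k =>
        ext0 T' ((w k).bind (Sum.elim (fun _ => none) some)) := funext h1
    rw [h2]
    refine hT' κ _ (fun g => ?_) heven
    rw [← hsum g]
    exact Finset.sum_congr rfl fun k _ => by rw [h1]
  · intro κ _ w _ hsum s hs
    let v1 : G → ℤ := fun g => ∑ k ∈ s, ext0 (Sum.elim T T') (w k) g
    let v2 : G → ℤ := fun g => ∑ k ∈ sᶜ, ext0 (Sum.elim T T') (w k) g
    have h12 : v2 = -v1 := by
      funext g
      have h1 := Finset.sum_add_sum_compl s fun k => ext0 (Sum.elim T T') (w k) g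
      rw [hsum g] at h1
      change ∑ k ∈ sᶜ, ext0 (Sum.elim T T') (w k) g =
        -∑ k ∈ s, ext0 (Sum.elim T T') (w k) g
      omega
    have hd : dot v1 v2 = 0 := by
      have h1 : dot v1 v2 = ∑ k ∈ s, ∑ k' ∈ sᶜ, dot (ext0 (Sum.elim T T') (w k))
          (ext0 (Sum.elim T T') (w k')) := by
        change ∑ g, (∑ k ∈ s, ext0 (Sum.elim T T') (w k) g) *
          (∑ k' ∈ sᶜ, ext0 (Sum.elim T T') (w k') g) = _
        simp only [Finset.sum_mul_sum]
        rw [Finset.sum_comm]
        refine Finset.sum_congr rfl fun k _ => ?_
        rw [Finset.sum_comm]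
        rfl
      rw [h1]
      refine Finset.sum_eq_zero fun k hk => Finset.sum_eq_zero fun k' hk' => ?_
      obtain ⟨l, hl, hl'⟩ := (hs k).1 hk
      rw [Finset.mem_compl, hs k'] at hk'
      rw [hl]
      have hz : ∀ u : G → ℤ, dot u 0 = 0 := by
        intro u
        unfold dot
        simp
      rcases l with l | l
      · rcases hk2 : w k' with _ | (l' | l')
        · exact hz _
        · exact absurd ⟨Sum.inl l', hk2, rfl⟩ hk'
        · exact horth l l'
      · exact absurd hl' (by simp)
    rw [h12, dot_comm, dot_neg, neg_eq_zero] at hd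
    intro g
    exact congrFun (eq_zero_of_dot_self hd) g

end orth

section

variable {G X Z : Type} [Group G] [Fintype G] [Fintype X] [MulAction G X] [Fintype Z]
  [MulAction G Z]

/-- The four elements. -/
theorem four_elems (c : G) (hset : Setting G X c) (hcard : Fintype.card X = 4) (x y : X)
    (h1 : y ≠ x) (h2 : y ≠ c • x) (t : X) : t = x ∨ t = c • x ∨ t = y ∨ t = c • y := by
  classical
  have hcc : ∀ x : X, c • c • x = x := fun x => by rw [← mul_smul, hset.sq, one_smul]
  have hcard4 : ({x, c • x, y, c • y} : Finset X).card = 4 := by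
    rw [Finset.card_insert_of_notMem, Finset.card_insert_of_notMem,
      Finset.card_insert_of_notMem, Finset.card_singleton]
    · rw [Finset.mem_singleton]; exact (hset.ne y).symm
    · simp only [Finset.mem_insert, Finset.mem_singleton, not_or]
      exact ⟨fun h => h2 h.symm, fun h => h1 (smul_left_cancel c h).symm⟩
    · simp only [Finset.mem_insert, Finset.mem_singleton, not_or]
      refine ⟨(hset.ne x).symm, fun h => h1 h.symm, fun h => ?_⟩
      apply h2
      rw [h, hcc]
  have huniv : ({x, c • x, y, c • y} : Finset X) = Finset.univ :=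
    Finset.eq_univ_of_card _ (by rw [hcard4, hcard])
  have h7 : t ∈ ({x, c • x, y, c • y} : Finset X) := by rw [huniv]; exact Finset.mem_univ _
  simpa only [Finset.mem_insert, Finset.mem_singleton] using h7

theorem four_sum (c : G) (hset : Setting G X c) (hcard : Fintype.card X = 4) (x y : X)
    (h1 : y ≠ x) (h2 : y ≠ c • x) (f : X → ℤ) :
    ∑ t, f t = f x + f (c • x) + f y + f (c • y) := by
  classical
  have hcc : ∀ x : X, c • c • x = x := fun x => by rw [← mul_smul, hset.sq, one_smul]
  have huniv : (Finset.univ : Finset X) = {x, c • x, y, c • y} := by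
    ext t
    simp only [Finset.mem_univ, Finset.mem_insert, Finset.mem_singleton, true_iff]
    exact four_elems c hset hcard x y h1 h2 t
  rw [huniv, Finset.sum_insert, Finset.sum_insert, Finset.sum_insert, Finset.sum_singleton]
  · ring
  · rw [Finset.mem_singleton]; exact (hset.ne y).symm
  · simp only [Finset.mem_insert, Finset.mem_singleton, not_or]
    exact ⟨fun h => h2 h.symm, fun h => h1 (smul_left_cancel c h).symm⟩
  · simp only [Finset.mem_insert, Finset.mem_singleton, not_or]
    refine ⟨(hset.ne x).symm, fun h => h1 h.symm, fun h => ?_⟩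
    apply h2
    rw [h, hcc]

/-- The values of the functions on an orbit with four elements. -/
theorem val_four (c : G) (hset : Setting G X c) (hcard : Fintype.card X = 4) (D : Subgroup G)
    (ε : X → ℤ) (hε : IsSign c ε) (x : X) (g : G) :
    nf D ε x g = 0 ∨ nf D ε x g = Nat.card D ∨ nf D ε x g = -Nat.card D := by
  classical
  have hcc : ∀ x : X, c • c • x = x := fun x => by rw [← mul_smul, hset.sq, one_smul]
  set z := g • x with hz
  have e0 : nf D ε x g = nf D ε z 1 := by rw [hz, nf_smul, one_mul]
  rw [e0]
  have hd1 : ∀ d ∈ D, ∀ z : X, nf D ε (d • z) 1 = nf D ε z 1 := by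
    intro d hd z
    rw [nf_smul, one_mul]
    have := nf_left D ε z d 1 hd
    rwa [mul_one] at this
  have hc1 : ∀ z : X, nf D ε (c • z) 1 = -nf D ε z 1 := fun z => nf_odd hset.comm D hε z 1
  by_contra hcon
  push Not at hcon
  obtain ⟨n0, n1, n2⟩ := hcon
  -- all signs on the orbit are equal
  have hall : ∀ d ∈ D, ε (d • z) = ε z := by
    intro d1 hd1'
    by_contra hne
    have hy : ε (d1 • z) = -ε z := by
      rcases hε.sign (d1 • z) with h | h <;> rcases hε.sign z with h' | h' <;> omega
    have hnc : ∀ d ∈ D, d • z ≠ c • z := by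
      intro d hd h
      have h1 := hd1 d hd z
      rw [h, hc1] at h1
      omega
    have hy1 : d1 • z ≠ z := by
      intro h
      rw [h] at hne
      exact hne rfl
    have hy2 := hnc d1 hd1'
    have hzy : ∀ d ∈ D, d • z = z ∨ d • z = d1 • z := by
      intro d hd
      rcases four_elems c hset hcard z (d1 • z) hy1 hy2 (d • z) with h | h | h | h
      · exact Or.inl h
      · exact absurd h (hnc d hd)
      · exact Or.inr h
      · exfalso
        have h1 := hd1 d hd z
        rw [h, hc1, hd1 d1 hd1'] at h1
        omega
    have hd1y : d1 • d1 • z = z := by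
      rcases hzy (d1 * d1) (D.mul_mem hd1' hd1') with h | h
      · rwa [mul_smul] at h
      · exfalso
        rw [mul_smul] at h
        exact hy1 (smul_left_cancel d1 h)
    apply n0
    have h1 : nf D ε z 1 = -nf D ε z 1 := by
      conv_lhs => unfold nf
      conv_rhs => unfold nf
      rw [← Finset.sum_neg_distrib]
      rw [← Equiv.sum_comp (Equiv.mulLeft d1) (fun d' : G =>
        if d' ∈ D then ε (d' • (1 : G) • z) else 0)]
      refine Finset.sum_congr rfl fun d _ => ?_
      have h2 : d1 * d ∈ D ↔ d ∈ D := D.mul_mem_cancel_left hd1'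
      change (if d1 * d ∈ D then ε ((d1 * d) • (1 : G) • z) else 0) = _
      by_cases hd : d ∈ D
      · rw [if_pos hd, if_pos (h2.2 hd), one_smul, mul_smul]
        rcases hzy d hd with h | h
        · rw [h, hy]
        · rw [h, hd1y, hy, neg_neg]
      · rw [if_neg hd, if_neg (fun h3 => hd (h2.1 h3)), neg_zero]
    omega
  have hval : nf D ε z 1 = Nat.card D * ε z := by
    unfold nf
    have h2 : ∀ d : G, (if d ∈ D then ε (d • (1 : G) • z) else 0) =
        if d ∈ D then ε z else 0 := by
      intro d
      by_cases hd : d ∈ D
      · rw [if_pos hd, if_pos hd, one_smul, hall d hd]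
      · rw [if_neg hd, if_neg hd]
    rw [Finset.sum_congr rfl fun d _ => h2 d, ← Finset.sum_filter, Finset.sum_const,
      nsmul_eq_mul]
    congr 2
    rw [Nat.card_eq_fintype_card, Fintype.card_subtype]
  rcases hε.sign z with h | h
  · apply n1
    rw [hval, h, mul_one]
  · apply n2
    rw [hval, h]
    ring

/-- Proportional functions. -/
theorem prop_zero {M : ℤ} (hM : 0 < M) {f h : G → ℤ} (hf : ∀ g, f g = 0 ∨ f g = M ∨ f g = -M)
    (hh : ∀ g, h g = 0 ∨ h g = M ∨ h g = -M) (hf0 : f ≠ 0) (hh0 : h ≠ 0) (h1 : f ≠ h)
    (h2 : f ≠ -h) (α γ : ℤ) (hrel : ∀ g, α * f g + γ * h g = 0) : α = 0 ∧ γ = 0 := by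
  have key : ∀ (u v : G → ℤ) (α γ : ℤ), u ≠ 0 → (∀ g, α * u g + γ * v g = 0) → γ = 0 →
      α = 0 := by
    intro u v α γ hu0 hrel hγ
    by_contra hα
    apply hu0
    funext g
    have := hrel g
    rw [hγ, zero_mul, add_zero] at this
    exact (mul_eq_zero.1 this).resolve_left hα
  by_contra hcon
  have hγ : γ ≠ 0 := fun h3 => hcon ⟨key f h α γ hf0 hrel h3, h3⟩
  have hα : α ≠ 0 := fun h3 => hγ (key h f γ α hh0 (fun g => by
    have := hrel g
    rw [add_comm]
    exact this) h3)
  obtain ⟨g, hg⟩ : ∃ g, f g ≠ 0 := by
    by_contra hcon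
    push Not at hcon
    exact hf0 (funext hcon)
  have e1 := hrel g
  have hαγ : α = γ ∨ α = -γ := by
    rcases hf g with h3 | h3 | h3
    · exact absurd h3 hg
    · rcases hh g with h4 | h4 | h4
      · rw [h3, h4, mul_zero, add_zero] at e1
        rcases mul_eq_zero.1 e1 with h5 | h5
        · exact absurd h5 hα
        · omega
      · rw [h3, h4] at e1
        have : (α + γ) * M = 0 := by linarith
        rcases mul_eq_zero.1 this with h5 | h5 <;> omega
      · rw [h3, h4] at e1
        have : (α - γ) * M = 0 := by linarith
        rcases mul_eq_zero.1 this with h5 | h5 <;> omega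
    · rcases hh g with h4 | h4 | h4
      · rw [h3, h4, mul_zero, add_zero] at e1
        rcases mul_eq_zero.1 e1 with h5 | h5
        · exact absurd h5 hα
        · omega
      · rw [h3, h4] at e1
        have : (α - γ) * M = 0 := by linarith
        rcases mul_eq_zero.1 this with h5 | h5 <;> omega
      · rw [h3, h4] at e1
        have : (α + γ) * M = 0 := by linarith
        rcases mul_eq_zero.1 this with h5 | h5 <;> omega
  rcases hαγ with h5 | h5
  · apply h2
    funext g
    have e2 := hrel g
    rw [h5, ← mul_add] at e2
    have e3 := (mul_eq_zero.1 e2).resolve_left hγ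
    rw [Pi.neg_apply]
    omega
  · apply h1
    funext g
    have e2 := hrel g
    rw [h5] at e2
    have e3 : γ * (h g - f g) = 0 := by linarith
    have e4 := (mul_eq_zero.1 e3).resolve_left hγ
    omega

/-- Two orbits with four elements: there are no relations, or an exceptional one. -/
theorem rel44 (c : G) (hX : Setting G X c) (hZ : Setting G Z c) (cX : Fintype.card X = 4)
    (cZ : Fintype.card Z = 4) (D : Subgroup G) (ε : X → ℤ) (δ : Z → ℤ) (hε : IsSign c ε)
    (hδ : IsSign c δ) (iX : Function.Injective (nf (X := X) D ε))
    (iZ : Function.Injective (nf (X := Z) D δ))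
    (hker : ∀ g : G, (∀ x : X, g • x = x) ↔ ∀ z : Z, g • z = z) (g0 : G) (x y : X)
    (hx : g0 • x = x) (hy : g0 • y ≠ y) (hne : ∀ x z, nf D ε x ≠ nf D δ z)
    (hexcX : ∀ x y : X, y ≠ x → y ≠ c • x → ∀ z : Z, nf D ε x + nf D ε y ≠ nf D δ z)
    (hexcZ : ∀ z w : Z, w ≠ z → w ≠ c • z → ∀ x : X, nf D δ z + nf D δ w ≠ nf D ε x)
    (a : X → ℤ) (b : Z → ℤ) (ha : ∀ x, a (c • x) = -a x) (hb : ∀ z, b (c • z) = -b z)
    (hrel : ∀ g, ∑ x, a x * nf D ε x g + ∑ z, b z * nf D δ z g = 0) :
    (∀ x, a x = 0) ∧ ∀ z, b z = 0 := by
  classical
  have hM : (0 : ℤ) < Nat.card D := by exact_mod_cast (Nat.card_pos : 0 < Nat.card D)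
  have hccX : ∀ x : X, c • c • x = x := fun x => by rw [← mul_smul, hX.sq, one_smul]
  have hccZ : ∀ x : Z, c • c • x = x := fun x => by rw [← mul_smul, hZ.sq, one_smul]
  have fc : ∀ x, nf D ε (c • x) = -nf D ε x := fun x => funext fun g => nf_odd hX.comm D hε x g
  have hc : ∀ x, nf D δ (c • x) = -nf D δ x := fun x => funext fun g => nf_odd hZ.comm D hδ x g
  have f0 : ∀ x, nf D ε x ≠ 0 := by
    intro x h
    apply hX.ne x
    apply iX
    rw [fc, h, neg_zero]
  have h0 : ∀ x, nf D δ x ≠ 0 := by
    intro x h
    apply hZ.ne x
    apply iZ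
    rw [hc, h, neg_zero]
  have hne' : ∀ x z, nf D ε x ≠ -nf D δ z := by
    intro x z h
    apply hne x (c • z)
    rw [hc, h]
  have vX := val_four c hX cX D ε hε
  have vZ := val_four c hZ cZ D δ hδ
  have hyx : y ≠ x := by
    rintro rfl
    exact hy hx
  have hycx : y ≠ c • x := by
    rintro rfl
    apply hy
    rw [← mul_smul, ← hX.comm, mul_smul, hx]
  have hgy : g0 • y = c • y := by
    rcases four_elems c hX cX x y hyx hycx (g0 • y) with h | h | h | h
    · exfalso
      rw [← hx] at h
      exact hyx (smul_left_cancel g0 h)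
    · exfalso
      rw [← hx, ← mul_smul, hX.comm, mul_smul] at h
      exact hycx (smul_left_cancel g0 h)
    · exact absurd h hy
    · exact h
  -- the relation with two terms for each orbit
  have sumX : ∀ g, ∑ t, a t * nf D ε t g = 2 * (a x * nf D ε x g + a y * nf D ε y g) := by
    intro g
    rw [four_sum c hX cX x y hyx hycx, ha, ha, fc, fc, Pi.neg_apply, Pi.neg_apply]
    ring
  have sumZ : ∀ z w : Z, w ≠ z → w ≠ c • z → ∀ g, ∑ t, b t * nf D δ t g =
      2 * (b z * nf D δ z g + b w * nf D δ w g) := by
    intro z w h1 h2 g
    rw [four_sum c hZ cZ z w h1 h2, hb, hb, hc, hc, Pi.neg_apply, Pi.neg_apply]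
    ring
  have fsm : ∀ (x : X) (k g : G), nf D ε x (g * k) = nf D ε (k • x) g := fun x k g =>
    (nf_smul D ε k g x).symm
  have hsm : ∀ (x : Z) (k g : G), nf D δ x (g * k) = nf D δ (k • x) g := fun x k g =>
    (nf_smul D δ k g x).symm
  have conclude : ∀ z w : Z, w ≠ z → w ≠ c • z → a x = 0 → a y = 0 → b z = 0 → b w = 0 →
      (∀ x, a x = 0) ∧ ∀ z, b z = 0 := by
    intro z w h1 h2 e1 e2 e3 e4
    constructor
    · intro t
      rcases four_elems c hX cX x y hyx hycx t with h | h | h | h
      · rw [h, e1]
      · rw [h, ha, e1, neg_zero]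
      · rw [h, e2]
      · rw [h, ha, e2, neg_zero]
    · intro t
      rcases four_elems c hZ cZ z w h1 h2 t with h | h | h | h
      · rw [h, e3]
      · rw [h, hb, e3, neg_zero]
      · rw [h, e4]
      · rw [h, hb, e4, neg_zero]
  by_cases hfix : ∃ z : Z, g0 • z = z
  · -- the same class
    obtain ⟨z, hz⟩ := hfix
    obtain ⟨w, hw⟩ : ∃ w : Z, g0 • w ≠ w := by
      by_contra hcon
      push Not at hcon
      exact hy ((hker g0).2 hcon y)
    have hwz : w ≠ z := by
      rintro rfl
      exact hw hz
    have hwcz : w ≠ c • z := by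
      rintro rfl
      apply hw
      rw [← mul_smul, ← hZ.comm, mul_smul, hz]
    have hgw : g0 • w = c • w := by
      rcases four_elems c hZ cZ z w hwz hwcz (g0 • w) with h | h | h | h
      · exfalso
        rw [← hz] at h
        exact hwz (smul_left_cancel g0 h)
      · exfalso
        rw [← hz, ← mul_smul, hZ.comm, mul_smul] at h
        exact hwcz (smul_left_cancel g0 h)
      · exact absurd h hw
      · exact h
    have r1 : ∀ g, a x * nf D ε x g + a y * nf D ε y g + (b z * nf D δ z g + b w * nf D δ w g) =
        0 := by
      intro g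
      have := hrel g
      rw [sumX, sumZ z w hwz hwcz] at this
      omega
    have r2 : ∀ g, a x * nf D ε x g - a y * nf D ε y g + (b z * nf D δ z g - b w * nf D δ w g) =
        0 := by
      intro g
      have := r1 (g * g0)
      rw [fsm, fsm, hsm, hsm, hx, hgy, hz, hgw, fc, hc, Pi.neg_apply, Pi.neg_apply] at this
      linarith
    have r3 := prop_zero hM (vX x) (vZ z) (f0 x) (h0 z) (hne x z) (hne' x z) (a x) (b z)
      (fun g => by have e1 := r1 g; have e2 := r2 g; omega)
    have r4 := prop_zero hM (vX y) (vZ w) (f0 y) (h0 w) (hne y w) (hne' y w) (a y) (b w)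
      (fun g => by have e1 := r1 g; have e2 := r2 g; omega)
    exact conclude z w hwz hwcz r3.1 r4.1 r3.2 r4.2
  · -- the other class
    push Not at hfix
    obtain ⟨z2, hz2⟩ : ∃ z2 : Z, (c * g0) • z2 ≠ z2 := by
      by_contra hcon
      push Not at hcon
      have := (hker (c * g0)).2 hcon x
      rw [mul_smul, hx] at this
      exact hX.ne x this
    have hnc : ∀ z : Z, g0 • z ≠ c • z := by
      intro z hz
      have h1 : z2 ≠ z := by
        rintro rfl
        apply hz2
        rw [mul_smul, hz, hccZ]
      have h2 : z2 ≠ c • z := by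
        rintro rfl
        apply hz2
        rw [mul_smul, ← mul_smul g0, ← hZ.comm, mul_smul, hz, hccZ]
      rcases four_elems c hZ cZ z z2 h1 h2 (g0 • z2) with h | h | h | h
      · -- `g0 z2 = z`, but `g0 (c z) = z`
        have h3 : g0 • c • z = z := by rw [← mul_smul, ← hZ.comm, mul_smul, hz, hccZ]
        exact h2 (smul_left_cancel g0 (h.trans h3.symm))
      · exact h1 (smul_left_cancel g0 (h.trans hz.symm))
      · exact hfix z2 h
      · apply hz2
        rw [mul_smul, h, hccZ]
    have hg2 : ∀ z : Z, g0 • g0 • z = z := by
      have h1 : ∀ t : X, (g0 * g0) • t = t := by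
        intro t
        rw [mul_smul]
        rcases four_elems c hX cX x y hyx hycx t with h | h | h | h
        · rw [h, hx, hx]
        · rw [h, ← mul_smul g0 c, ← hX.comm, mul_smul, hx, ← mul_smul g0 c, ← hX.comm, mul_smul,
            hx]
        · rw [h, hgy, ← mul_smul g0 c, ← hX.comm, mul_smul, hgy, hccX]
        · rw [h, ← mul_smul g0 c, ← hX.comm, mul_smul, hgy, hccX, hgy]
      intro z
      have := (hker (g0 * g0)).1 h1 z
      rwa [mul_smul] at this
    have hZne : Nonempty Z := Fintype.card_pos_iff.1 (by omega)
    obtain ⟨z⟩ := hZne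
    set w := g0 • z with hw
    have hgw : g0 • w = z := hg2 z
    have hwz : w ≠ z := hfix z
    have hwcz : w ≠ c • z := hnc z
    have hzw : z ≠ w := hwz.symm
    have hcwz : c • w ≠ z := fun h => hwcz (by rw [← h, hccZ])
    have hcwcz : c • w ≠ c • z := fun h => hwz (smul_left_cancel c h)
    have r1 : ∀ g, a x * nf D ε x g + a y * nf D ε y g + (b z * nf D δ z g + b w * nf D δ w g) =
        0 := by
      intro g
      have := hrel g
      rw [sumX, sumZ z w hwz hwcz] at this
      omega
    have r2 : ∀ g, a x * nf D ε x g - a y * nf D ε y g + (b z * nf D δ w g + b w * nf D δ z g) =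
        0 := by
      intro g
      have := r1 (g * g0)
      rw [fsm, fsm, hsm, hsm, hx, hgy, hgw, fc, Pi.neg_apply] at this
      linarith
    -- a function of the first orbit is not a multiple of the sum of two functions of the second one
    have key : ∀ (x y : X) (z w : Z), y ≠ x → y ≠ c • x → w ≠ z → w ≠ c • z → ∀ α γ : ℤ,
        (∀ g, 2 * α * nf D ε x g + γ * (nf D δ z g + nf D δ w g) = 0) → α = 0 ∧ γ = 0 := by
      intro x y z w hyx hycx hwz hwcz α γ hr
      have hwc : nf D δ w ≠ -nf D δ z := by
        rw [← hc]
        exact fun h => hwcz (iZ h)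
      by_cases hα : α = 0
      · refine ⟨hα, ?_⟩
        by_contra hγ
        apply hwc
        funext g
        have e1 := hr g
        rw [hα, mul_zero, zero_mul, zero_add] at e1
        have := (mul_eq_zero.1 e1).resolve_left hγ
        rw [Pi.neg_apply]
        omega
      exfalso
      obtain ⟨g1, hg1⟩ : ∃ g, nf D ε x g ≠ 0 := by
        by_contra hcon
        push Not at hcon
        exact f0 x (funext hcon)
      have hγ : γ ≠ 0 := by
        intro hγ
        have e1 := hr g1
        rw [hγ, zero_mul, add_zero] at e1
        rcases mul_eq_zero.1 e1 with h | h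
        · omega
        · exact hg1 h
      -- the ratio
      have hratio : γ = 2 * α ∨ γ = -(2 * α) ∨ γ = α ∨ γ = -α := by
        have e1 := hr g1
        set M : ℤ := (Nat.card D : ℤ) with hMd
        rcases vX x g1 with h1 | h1 | h1
        · exact absurd h1 hg1
        all_goals
          rcases vZ z g1 with h2 | h2 | h2 <;> rcases vZ w g1 with h3 | h3 | h3 <;>
            rw [h1, h2, h3] at e1
        · exfalso
          have : 2 * α * M = 0 := by linarith
          rcases mul_eq_zero.1 this with h | h <;> omega
        · right; left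
          have : (γ + 2 * α) * M = 0 := by linarith
          rcases mul_eq_zero.1 this with h | h <;> omega
        · left
          have : (γ - 2 * α) * M = 0 := by linarith
          rcases mul_eq_zero.1 this with h | h <;> omega
        · right; left
          have : (γ + 2 * α) * M = 0 := by linarith
          rcases mul_eq_zero.1 this with h | h <;> omega
        · right; right; right
          have : (γ + α) * M = 0 := by linarith
          rcases mul_eq_zero.1 this with h | h <;> omega
        · exfalso
          have : 2 * α * M = 0 := by linarith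
          rcases mul_eq_zero.1 this with h | h <;> omega
        · left
          have : (γ - 2 * α) * M = 0 := by linarith
          rcases mul_eq_zero.1 this with h | h <;> omega
        · exfalso
          have : 2 * α * M = 0 := by linarith
          rcases mul_eq_zero.1 this with h | h <;> omega
        · right; right; left
          have : (γ - α) * M = 0 := by linarith
          rcases mul_eq_zero.1 this with h | h <;> omega
        · exfalso
          have : 2 * α * M = 0 := by linarith
          rcases mul_eq_zero.1 this with h | h <;> omega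
        · left
          have : (γ - 2 * α) * M = 0 := by linarith
          rcases mul_eq_zero.1 this with h | h <;> omega
        · right; left
          have : (γ + 2 * α) * M = 0 := by linarith
          rcases mul_eq_zero.1 this with h | h <;> omega
        · left
          have : (γ - 2 * α) * M = 0 := by linarith
          rcases mul_eq_zero.1 this with h | h <;> omega
        · right; right; left
          have : (γ - α) * M = 0 := by linarith
          rcases mul_eq_zero.1 this with h | h <;> omega
        · exfalso
          have : 2 * α * M = 0 := by linarith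
          rcases mul_eq_zero.1 this with h | h <;> omega
        · right; left
          have : (γ + 2 * α) * M = 0 := by linarith
          rcases mul_eq_zero.1 this with h | h <;> omega
        · exfalso
          have : 2 * α * M = 0 := by linarith
          rcases mul_eq_zero.1 this with h | h <;> omega
        · right; right; right
          have : (γ + α) * M = 0 := by linarith
          rcases mul_eq_zero.1 this with h | h <;> omega
      have hα2 : (2 * α : ℤ) ≠ 0 := by omega
      rcases hratio with h | h | h | h
      · -- `f x + (h z + h w) = 0`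
        apply hexcZ z w hwz hwcz (c • x)
        funext g
        have e1 := hr g
        rw [h, ← mul_add] at e1
        have := (mul_eq_zero.1 e1).resolve_left hα2
        rw [fc, Pi.neg_apply, Pi.add_apply]
        omega
      · apply hexcZ z w hwz hwcz x
        funext g
        have e1 := hr g
        rw [h] at e1
        have e2 : 2 * α * (nf D ε x g - (nf D δ z g + nf D δ w g)) = 0 := by linarith
        have := (mul_eq_zero.1 e2).resolve_left hα2
        rw [Pi.add_apply]
        omega
      all_goals
        -- `h z + h w = ± 2 f x`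
        obtain ⟨u, hu, hr2⟩ : ∃ u : ℤ, (u = 1 ∨ u = -1) ∧
            ∀ g, nf D δ z g + nf D δ w g = 2 * u * nf D ε x g := by
          first
          | refine ⟨-1, Or.inr rfl, fun g => ?_⟩
            have e1 := hr g
            rw [h] at e1
            have e2 : α * (2 * nf D ε x g + (nf D δ z g + nf D δ w g)) = 0 := by linarith
            have := (mul_eq_zero.1 e2).resolve_left hα
            omega
          | refine ⟨1, Or.inl rfl, fun g => ?_⟩
            have e1 := hr g
            rw [h] at e1
            have e2 : α * (2 * nf D ε x g - (nf D δ z g + nf D δ w g)) = 0 := by linarith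
            have := (mul_eq_zero.1 e2).resolve_left hα
            omega
        -- translate
        obtain ⟨k, hk⟩ := hX.trans x y
        have hr3 : ∀ g, nf D δ (k • z) g + nf D δ (k • w) g = 2 * u * nf D ε y g := by
          intro g
          have e1 := hr2 (g * k)
          rw [fsm, hsm, hsm, hk] at e1
          exact e1
        have hyc : nf D ε y ≠ -nf D ε x := by
          rw [← fc]
          exact fun h => hycx (iX h)
        -- the possibilities for `k z` and `k w`
        have hposs : ∃ u' : ℤ, (u' = 1 ∨ u' = -1) ∧
            ((∀ g, nf D δ (k • z) g + nf D δ (k • w) g = u' * (nf D δ z g + nf D δ w g)) ∨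
            (∀ g, nf D δ (k • z) g + nf D δ (k • w) g = u' * (nf D δ z g - nf D δ w g))) := by
          have hkne : k • w ≠ k • z := fun h => hwz (smul_left_cancel k h)
          have hknc : k • w ≠ c • k • z := by
            intro h
            apply hwcz
            rw [← mul_smul, hZ.comm, mul_smul] at h
            exact smul_left_cancel k h
          rcases four_elems c hZ cZ z w hwz hwcz (k • z) with e1 | e1 | e1 | e1 <;>
            rcases four_elems c hZ cZ z w hwz hwcz (k • w) with e2 | e2 | e2 | e2
          · exact absurd (e2.trans e1.symm) hkne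
          · exact absurd (by rw [e1, e2]) hknc
          · exact ⟨1, Or.inl rfl, Or.inl fun g => by rw [e1, e2]; ring⟩
          · exact ⟨1, Or.inl rfl, Or.inr fun g => by rw [e1, e2, hc, Pi.neg_apply]; ring⟩
          · exact absurd (by rw [e1, e2, hccZ]) hknc
          · exact absurd (e2.trans e1.symm) hkne
          · exact ⟨-1, Or.inr rfl, Or.inr fun g => by rw [e1, e2, hc, Pi.neg_apply]; ring⟩
          · exact ⟨-1, Or.inr rfl, Or.inl fun g => by
              rw [e1, e2, hc, hc, Pi.neg_apply, Pi.neg_apply]; ring⟩
          · exact ⟨1, Or.inl rfl, Or.inl fun g => by rw [e1, e2]; ring⟩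
          · exact ⟨-1, Or.inr rfl, Or.inr fun g => by rw [e1, e2, hc, Pi.neg_apply]; ring⟩
          · exact absurd (e2.trans e1.symm) hkne
          · exact absurd (by rw [e1, e2]) hknc
          · exact ⟨1, Or.inl rfl, Or.inr fun g => by rw [e1, e2, hc, Pi.neg_apply]; ring⟩
          · exact ⟨-1, Or.inr rfl, Or.inl fun g => by
              rw [e1, e2, hc, hc, Pi.neg_apply, Pi.neg_apply]; ring⟩
          · exact absurd (by rw [e1, e2, hccZ]) hknc
          · exact absurd (e2.trans e1.symm) hkne
        obtain ⟨u', hu', hp | hp⟩ := hposs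
        · -- `f x = ± f y`
          have e3 : ∀ g, nf D ε y g = u' * nf D ε x g := by
            intro g
            have e1 := hr3 g
            rw [hp, hr2] at e1
            rcases hu with h4 | h4 <;> rcases hu' with h5 | h5 <;> rw [h4, h5] at e1 <;>
              rw [h5] <;> omega
          rcases hu' with h5 | h5
          · apply hyx
            apply iX
            funext g
            rw [e3, h5, one_mul]
          · apply hyc
            funext g
            rw [e3, h5, Pi.neg_apply]
            ring
        · -- `h z = ± f x ± f y`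
          have e3 : ∀ g, nf D δ z g = u * nf D ε x g + u * u' * nf D ε y g := by
            intro g
            have e1 := hr3 g
            rw [hp] at e1
            have e2 := hr2 g
            rcases hu with h4 | h4 <;> rcases hu' with h5 | h5 <;> rw [h4, h5] at e1 <;>
              rw [h4] at e2 <;> rw [h4, h5] <;> omega
          have hcyx : c • y ≠ x := fun h => hycx (by rw [← h, hccX])
          have hcyx' : c • y ≠ c • x := fun h => hyx (smul_left_cancel c h)
          rcases hu with h4 | h4 <;> rcases hu' with h5 | h5
          · apply hexcX x y hyx hycx z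
            funext g
            rw [e3, h4, h5, Pi.add_apply]
            ring
          · apply hexcX x (c • y) hcyx hcyx' z
            funext g
            rw [e3, h4, h5, Pi.add_apply, fc, Pi.neg_apply]
            ring
          · apply hexcX x y hyx hycx (c • z)
            funext g
            rw [hc, Pi.neg_apply, e3, h4, h5, Pi.add_apply]
            ring
          · apply hexcX x (c • y) hcyx hcyx' (c • z)
            funext g
            rw [hc, Pi.neg_apply, e3, h4, h5, Pi.add_apply, fc, Pi.neg_apply]
            ring
    have k1 := key x y z w hyx hycx hwz hwcz (a x) (b z + b w) (fun g => by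
      have e1 := r1 g
      have e2 := r2 g
      have e3 : 2 * a x * nf D ε x g + (b z + b w) * (nf D δ z g + nf D δ w g) =
          (a x * nf D ε x g + a y * nf D ε y g + (b z * nf D δ z g + b w * nf D δ w g)) +
          (a x * nf D ε x g - a y * nf D ε y g + (b z * nf D δ w g + b w * nf D δ z g)) := by ring
      rw [e3, e1, e2, add_zero])
    have hxy : x ≠ y := hyx.symm
    have hxcy : x ≠ c • y := fun h => hycx (by rw [h, hccX])
    have k2 := key y x z (c • w) hxy hxcy hcwz hcwcz (a y) (b z - b w) (fun g => by
      have e1 := r1 g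
      have e2 := r2 g
      rw [hc, Pi.neg_apply]
      have e3 : 2 * a y * nf D ε y g + (b z - b w) * (nf D δ z g + -nf D δ w g) =
          (a x * nf D ε x g + a y * nf D ε y g + (b z * nf D δ z g + b w * nf D δ w g)) -
          (a x * nf D ε x g - a y * nf D ε y g + (b z * nf D δ w g + b w * nf D δ z g)) := by ring
      rw [e3, e1, e2, sub_zero])
    exact conclude z w hwz hwcz k1.1 k2.1 (by omega) (by omega)

/-- Two orbits with four elements. -/
theorem fam44 (c : G) (hX : Setting G X c) (hZ : Setting G Z c) (cX : Fintype.card X = 4)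
    (cZ : Fintype.card Z = 4) (D : Subgroup G) (ε : X → ℤ) (δ : Z → ℤ) (hε : IsSign c ε)
    (hδ : IsSign c δ) (iX : Function.Injective (nf (X := X) D ε))
    (iZ : Function.Injective (nf (X := Z) D δ))
    (hker : ∀ g : G, (∀ x : X, g • x = x) ↔ ∀ z : Z, g • z = z) (g0 : G) (x y : X)
    (hx : g0 • x = x) (hy : g0 • y ≠ y) (hne : ∀ x z, nf D ε x ≠ nf D δ z)
    (hexcX : ∀ x y : X, y ≠ x → y ≠ c • x → ∀ z : Z, nf D ε x + nf D ε y ≠ nf D δ z)
    (hexcZ : ∀ z w : Z, w ≠ z → w ≠ c • z → ∀ x : X, nf D δ z + nf D δ w ≠ nf D ε x)
    {Q : (κ : Type) → (κ → G → ℤ) → Prop} (hQ : Closed G Q)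
    (hcX : ∀ x, PairCancel G Q (nf D ε x)) (hcZ : ∀ x, PairCancel G Q (nf D δ x))
    (hcancel0 : PairCancel G Q 0) : Fam Q (Sum.elim (nf (X := X) D ε) (nf (X := Z) D δ)) := by
  have fc : ∀ x, nf D ε (c • x) = -nf D ε x := fun x => funext fun g => nf_odd hX.comm D hε x g
  have hc : ∀ x, nf D δ (c • x) = -nf D δ x := fun x => funext fun g => nf_odd hZ.comm D hδ x g
  have hccX : ∀ x : X, c • c • x = x := fun x => by rw [← mul_smul, hX.sq, one_smul]
  have hccZ : ∀ x : Z, c • c • x = x := fun x => by rw [← mul_smul, hZ.sq, one_smul]
  refine fam_rank_zero (Sum.map (fun x => c • x) fun z => c • z) _ ?_ ?_ ?_ ?_ hQ ?_ hcancel0 ?_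
  · rintro (x | z) (x' | z') h
    · exact congrArg Sum.inl (iX h)
    · exact absurd h (hne x z')
    · exact absurd h.symm (hne x' z)
    · exact congrArg Sum.inr (iZ h)
  · rintro (x | z) h
    · apply hX.ne x
      apply iX
      have h' : nf D ε x = 0 := h
      rw [fc, h', neg_zero]
    · apply hZ.ne z
      apply iZ
      have h' : nf D δ z = 0 := h
      rw [hc, h', neg_zero]
  · rintro (x | z)
    · exact fc x
    · exact hc z
  · rintro (x | z)
    · exact congrArg Sum.inl (hccX x)
    · exact congrArg Sum.inr (hccZ z)
  · rintro (x | z)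
    · exact hcX x
    · exact hcZ z
  · intro a ha hrel
    have h1 := rel44 c hX hZ cX cZ D ε δ hε hδ iX iZ hker g0 x y hx hy hne hexcX hexcZ
      (fun x => a (Sum.inl x)) (fun z => a (Sum.inr z)) (fun x => ha (Sum.inl x))
      (fun z => ha (Sum.inr z)) (fun g => by
        have := hrel g
        rw [Fintype.sum_sum_type] at this
        exact this)
    rintro (x | z)
    · exact h1.1 x
    · exact h1.2 z

end

end

end Pool.Agent.TH117.BL
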