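import Pool.Agent.TH117.BL.Kp
import Pool.Agent.TH117.BL.FourFour

/-!
# Balanced families of functions: the algebraic ones
-/

set_option autoImplicit false
set_option linter.unusedSectionVars false
set_option linter.unusedVariables false

namespace Pool.Agent.TH117.BL

open NumberField Pool.Agent.H204R3.CM Pool.Agent.W547.KB Pool.Agent.W547.LD Module
  Pool.Agent.W495.TA Pool.Agent.W495.TB Pool.Agent.W495.TC Pool.Agent.TH117.F5
open scoped TensorProduct

noncomputable section

variable {p : ℕ} [Fact p.Prime] {ν : PadicAlgCl p ≃+* ℂ} {Ω : Type} [Field Ω] [CharZero Ω]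
  {L : Type} [Field L] [NumberField L] [IsCMField L] [IsGalois ℚ L] (j : L →+* ℂ) (jO : L →+* Ω)

theorem finite_emb (j : L →+* ℂ) (A : CMPair) : Finite (A.E →+* L) := by
  refine Finite.of_injective (fun φ : A.E →+* L => j.comp φ) ?_
  intro φ φ' h
  ext a
  exact j.injective (RingHom.congr_fun h a)

theorem cancel_ys {W : Type} [MulAction (L ≃ₐ[ℚ] L) W] {e : W → ℤ} (he : IsSign (cc L) e) (w : W) :
    PairCancel (L ≃ₐ[ℚ] L) (AlgM p ν j jO) (nf (Dec p ν j) e w) := by
  have h3 := Pool.Agent.W99.TC.cancel Pool.Agent.W902.TB.honda Pool.Agent.W366.TA.val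
      Pool.Agent.W64.TA.ru Pool.Agent.W67.TA.basis Pool.Agent.W333.TA.closed1 p ν Ω L j jO
      (ys e w) (isHalf_ys he w)
  rw [tf_ys j he] at h3
  exact h3

theorem cancel_nn (A : CMPair) (φ : A.E →+* L) :
    PairCancel (L ≃ₐ[ℚ] L) (AlgM p ν j jO) (nn p ν j A φ) :=
  cancel_ys j jO (isSign_eps j A) φ

theorem cancel_zero (hk : BigA (kp p) j) :
    PairCancel (L ≃ₐ[ℚ] L) (AlgM p ν j jO) (0 : (L ≃ₐ[ℚ] L) → ℤ) := by
  obtain ⟨ψ⟩ : Nonempty ((kp p).E →+* ℂ) := inferInstance
  obtain ⟨φ, -⟩ := hk ψ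
  have h := cancel_nn (p := p) (ν := ν) j jO (kp p) φ
  rw [nn_kp] at h
  exact h

/-- One factor of dimension at most five. -/
theorem fam_simple (A : CMPair) (hA : finrank ℚ A.E ≤ 10) (hAj : BigA A j) (b : ℕ) (hb : 0 < b)
    (ϖ : A.E) (hϖ : IsFrobenius p ν A b ϖ) :
    Fam (AlgM p ν j jO) (nn p ν j A) := by
  classical
  intro κ _ w hsum heven
  have hval := Pool.Agent.W366.TA.val
  have := finite_emb j A
  have := Fintype.ofFinite (A.E →+* L)
  have hcard : Fintype.card (A.E →+* L) ≤ 10 := (card_emb hAj).trans_le hA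
  have hset := setting j A (L := L)
  refine @Pool.Agent.W928.TA.induct struct Pool.Agent.W11.TA.Flip.t_flip (L ≃ₐ[ℚ] L)
    (A.E →+* L) _ _ _ _ (cc L) hset (Dec p ν j) (eps j A) (isSign_eps j A) hcard (AlgM p ν j jO)
    (closedM j jO) ?_ κ _ (fun k => ext0 (nn p ν j A) (w k)) ?_ hsum heven
  · intro ε' s' r u hε' hnf hinj hs' hsemi hr hu hbl hsum
    have hA'j : BigA (changeType hAj ε' hε') j := hAj
    have htf : ∀ φ : A.E →+* L, tf p ν j (hs (changeType hAj ε' hε') j φ) =
        nf (Dec p ν j) (eps j A) φ := fun φ =>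
      (tf_changeType hAj ε' hε' φ).trans (hnf φ)
    have hfrob : IsFrobenius p ν (changeType hAj ε' hε') b ϖ := by
      refine ⟨hϖ.integral, hϖ.weil, ?_⟩
      refine (hval p ν L j (changeType hAj ε' hε') hA'j b ϖ).2 fun φ => ?_
      have h3 := (hval p ν L j A hAj b ϖ).1 hϖ.shimuraTaniyama φ
      rw [tf_hs] at h3
      rw [htf φ]
      exact h3
    have hinj' : Function.Injective fun φ : A.E →+* L =>
        tf p ν j (hs (changeType hAj ε' hε') j φ) := by
      have h3 : (fun φ : A.E →+* L => tf p ν j (hs (changeType hAj ε' hε') j φ)) =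
          nf (Dec p ν j) (eps j A) := funext htf
      rw [h3]
      exact hinj
    have hsum' : ∀ σ, ∑ φ : A.E →+* L, s' φ * tf p ν j (hs (changeType hAj ε' hε') j φ) σ = 0 := by
      intro σ
      rw [← hsum σ]
      exact Finset.sum_congr rfl fun φ _ => by rw [htf]
    constructor
    · have h4 : (Sum.elim (fun φ : {φ : A.E →+* L // s' φ = 1} =>
          tf p ν j (hs (changeType hAj ε' hε') j φ.1)) fun _ : Fin r => 0) =
          Sum.elim (fun x : {x : A.E →+* L // s' x = 1} => nf (Dec p ν j) (eps j A) x.1)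
            fun _ : Fin r => 0 := by
        congr 1
        funext φ
        exact htf φ.1
      rw [← h4]
      intro _ _
      exact Pool.Agent.W417.TA.weil hval Pool.Agent.W64.TA.ru Pool.Agent.W67.TA.basis
        Pool.Agent.W82.TA.pull p ν Ω L j jO (changeType hAj ε' hε') hA'j b hb ϖ
        hfrob hinj' ε' s' (mem_changeType hAj ε' hε') hε' hs' hsemi r u hr hu hbl hsum'
    · intro hr0
      obtain ⟨E, hE, w, hw⟩ := Pool.Agent.W978.TASS.ss hval p ν L j (changeType hAj ε' hε') hA'j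
        ε' s' (mem_changeType hAj ε' hε') hε' hs' hsemi r u hu hbl hsum' hr0
      intro κ _ t ht
      exact Pool.Agent.W976.TA.push Pool.Agent.W67.TA.basis p ν Ω L j jO E hE w hw κ t ht
  · intro k
    rcases w k with _ | φ
    · exact Or.inl rfl
    · exact Or.inr ⟨φ, rfl⟩

/-- The functions of the weights of a product. -/
abbrev tw (p : ℕ) [Fact p.Prime] (ν : PadicAlgCl p ≃+* ℂ) (j : L →+* ℂ) (X : CMAV) :
    Wt X L → (L ≃ₐ[ℚ] L) → ℤ := fun w => nn p ν j (X.factor w.1) w.2

/-- All balanced monomials on a product of CM type, if no two factors are bad. -/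
theorem small_kerX (X : CMAV) (hXj : Big X j)
    (hdeg : ∀ i, finrank ℚ (X.factor i).E ≤ 6)
    (hbad : ∀ i k : X.I, ¬ IsBad p ν j (X.factor i) (X.factor k))
    (κ : Type) [Fintype κ] (I : κ → Wt X L)
    (hbal : ∀ g, ∑ k, tw p ν j X (I k) g = 0) (heven : Even (Fintype.card κ)) :
    AlgM p ν j jO κ (fun k => tw p ν j X (I k)) := by
  classical
  -- the functions
  let D := Dec p ν j
  let n : ∀ i : X.I, ((X.factor i).E →+* L) → (L ≃ₐ[ℚ] L) → ℤ := fun i φ =>
    nf D (eps j (X.factor i)) φ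
  have hset : ∀ i : X.I, Setting (L ≃ₐ[ℚ] L) ((X.factor i).E →+* L) (cc L) := fun i =>
    setting j (X.factor i)
  have hnsmul : ∀ (i : X.I) (φ : (X.factor i).E →+* L) (g : L ≃ₐ[ℚ] L),
      n i (g • φ) = fun h => n i φ (h * g) := by
    intro i φ g
    funext h
    change nf D (eps j (X.factor i)) (g • φ) h = nf D (eps j (X.factor i)) φ (h * g)
    unfold nf
    refine Finset.sum_congr rfl fun d _ => ?_
    rw [mul_smul]
  -- isogenous factors
  let r : Setoid X.I :=
    { r := fun i k => ∃ (φ : (X.factor i).E →+* L) (φ' : (X.factor k).E →+* L),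
        n i φ = n k φ'
      iseqv := by
        refine ⟨fun i => ?_, ?_, ?_⟩
        · obtain ⟨ψ⟩ : Nonempty ((X.factor i).E →+* ℂ) := inferInstance
          obtain ⟨φ, -⟩ := hXj i ψ
          exact ⟨φ, φ, rfl⟩
        · rintro i k ⟨φ, φ', h⟩
          exact ⟨φ', φ, h.symm⟩
        · rintro i k l ⟨φ, φ', h⟩ ⟨ψ, ψ', h'⟩
          obtain ⟨g, hg⟩ := (hset k).trans ψ φ'
          refine ⟨φ, g • ψ', ?_⟩
          rw [h, ← hg, hnsmul, hnsmul, h'] }
  have hfin : ∀ i : X.I, Finite ((X.factor i).E →+* L) := fun i => finite_emb j _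
  let ι : Type := Quotient r
  have hι : Fintype ι := Fintype.ofFinite _
  let A : ι → CMPair := fun q => X.factor q.out
  have hA : ∀ q, BigA (A q) j := fun q => hXj q.out
  have hXfin : ∀ q : ι, Fintype ((A q).E →+* L) := fun q => Fintype.ofFinite _
  have hcardA : ∀ q : ι, Fintype.card ((A q).E →+* L) ≤ 6 := fun q =>
    (card_emb (hA q)).trans_le (hdeg q.out)
  have hdisj : ∀ (q q' : ι) (x : (A q).E →+* L) (y : (A q').E →+* L),
      nf D (eps j (A q)) x = nf D (eps j (A q')) y → q = q' := by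
    intro q q' x y h
    have h3 : r.r q.out q'.out := ⟨x, y, h⟩
    exact Quotient.out_equiv_out.1 h3
  have hker : ∀ q q' : ι, Wide (nf (X := (A q).E →+* L) D (eps j (A q))) →
      Wide (nf (X := (A q').E →+* L) D (eps j (A q'))) →
      (∀ g : L ≃ₐ[ℚ] L, (∀ x, nf D (eps j (A q)) (g • x) = nf D (eps j (A q)) x) ↔
        ∀ x, nf D (eps j (A q')) (g • x) = nf D (eps j (A q')) x) → q = q' := by
    intro q q' hw hw' hk
    by_contra hne
    exact hbad q.out q'.out ⟨hw, hw', hk, fun φ φ' h => hne (hdisj q q' φ φ' h)⟩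
  refine @Pool.Agent.W959.TC.comb Pool.Agent.W21.TC.sep
    (Pool.Agent.W975.TC.single Pool.Agent.W495.TA.struct) Pool.Agent.W493.TC.group
    Pool.Agent.W493.TC.loc Pool.Agent.W493.TC.indep (L ≃ₐ[ℚ] L) _ _ (cc L) ι _
    (fun q => (A q).E →+* L) _ _ (fun q => hset q.out) D (fun q => eps j (A q))
    (fun q => isSign_eps j (A q)) hcardA hdisj hker (AlgM p ν j jO) (closedM j jO) ?_ ?_ κ _
    (fun k => tw p ν j X (I k)) ?_ hbal heven
  · intro q ε' hε' x
    exact cancel_ys j jO hε' x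
  · intro q s' hs' hsemi hresp hc6 x₀ hx₀ F hF hF' _ _
    exact blockA Pool.Agent.W366.TA.val Pool.Agent.W64.TA.ru Pool.Agent.W67.TA.basis
      Pool.Agent.W82.TA.pull Pool.Agent.W333.TA.closed1 Pool.Agent.W976.TA.push
      Pool.Agent.W636.TB.flip2 Pool.Agent.W918.TB.orb Pool.Agent.W902.TB.honda
      Pool.Agent.W177.TB.weilG Pool.Agent.W287.TBSS.ss2 Pool.Agent.W493.TC.loc p ν Ω L j jO
      (A q) s' hs' hsemi hresp hc6 x₀ hx₀ F hF hF'
  · intro k
    obtain ⟨i, φ⟩ := I k
    have h3 : r.r (Quotient.mk r i).out i := Quotient.mk_out i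
    obtain ⟨ψ, ψ', h4⟩ := h3
    obtain ⟨g, hg⟩ := (hset i).trans ψ' φ
    refine ⟨Quotient.mk r i, g • ψ, ?_⟩
    change n i φ = _
    rw [← hg, hnsmul, ← h4]
    exact (hnsmul (Quotient.mk r i).out ψ g).symm

/-- Products of factors of dimension at most three. -/
theorem fam_small (X : CMAV) (hXj : Big X j) (hk : BigA (kp p) j)
    (hdeg : ∀ i, finrank ℚ (X.factor i).E ≤ 6)
    (hbad : ∀ i k : X.I, ¬ IsBad p ν j (X.factor i) (X.factor k)) :
    Fam (AlgM p ν j jO) (tw p ν j X) := by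
  classical
  intro κ _ w hsum heven
  obtain ⟨ψ⟩ : Nonempty ((kp p).E →+* ℂ) := inferInstance
  obtain ⟨φ0, -⟩ := hk ψ
  let X' : CMAV := X.prod (single (kp p))
  let w' : κ → Wt X' L := fun k => (w k).elim ⟨Sum.inr (), φ0⟩ fun v => ⟨Sum.inl v.1, v.2⟩
  have hw' : ∀ k, ext0 (tw p ν j X) (w k) = tw p ν j X' (w' k) := by
    intro k
    change _ = tw p ν j X' ((w k).elim ⟨Sum.inr (), φ0⟩ fun v => ⟨Sum.inl v.1, v.2⟩)
    rcases w k with _ | v
    · exact (nn_kp (p := p) (ν := ν) (j := j) φ0).symm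
    · rfl
  have hw2 : (fun k => ext0 (tw p ν j X) (w k)) = fun k => tw p ν j X' (w' k) := funext hw'
  rw [hw2]
  have hX'j : Big X' j := by
    rintro (i | i) ψ
    · exact hXj i ψ
    · exact hk ψ
  have hnw : ¬ Wide (nn p ν j (kp p)) := by
    rintro ⟨x, y, h1, -⟩
    apply h1
    rw [nn_kp (p := p) (ν := ν) (j := j) x, nn_kp (p := p) (ν := ν) (j := j) y]
  refine @small_kerX p _ ν Ω _ _ L _ _ _ _ j jO X' hX'j ?_ ?_ κ _ w' (fun g => ?_) heven
  · rintro (i | i)
    · exact hdeg i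
    · change finrank ℚ (kp p).E ≤ 6
      rw [finrank_kp]
      norm_num
  · rintro (i | i) (k | k) h
    · exact hbad i k h
    · exact hnw h.wideB
    · exact hnw h.wideA
    · exact hnw h.wideA
  · rw [← hsum g]
    exact Finset.sum_congr rfl fun k _ => by rw [hw']

/-- The split Weil classes on the product of a fourfold and the square of an elliptic curve. -/
theorem weil_six (A : CMPair) [Fintype (A.E →+* L)] (hcard : Fintype.card (A.E →+* L) = 8)
    (s : (A.E →+* L) → ℤ) (hs : IsSign (cc L) s) (hsemi : Semi (L ≃ₐ[ℚ] L) s)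
    (hresp : ∀ φ φ', nn p ν j A φ = nn p ν j A φ' → s φ = s φ')
    (χ : (L ≃ₐ[ℚ] L) → ℤ) (hχ : IsChar (cc L) (Dec p ν j) χ) (u : ℤ) (hu : u = 1 ∨ u = -1)
    (hrel : ∀ g, (∑ φ, if s φ = 1 then nn p ν j A φ g else 0) = 2 * u * χ g) :
    AlgM p ν j jO ({φ : A.E →+* L // s φ = 1} ⊕ Fin 2)
      (Sum.elim (fun φ => nn p ν j A φ.1) fun _ => -u • χ) := by
  classical
  have hset := setting j A (L := L)
  let X : CMAV := single A
  let s' : Wt X L → ℤ := fun w => s w.2
  obtain ⟨x₀, hx₀⟩ : ∃ x₀ : A.E →+* L, s x₀ = 1 := by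
    have hne : Nonempty (A.E →+* L) := Fintype.card_pos_iff.1 (by omega)
    obtain ⟨x⟩ := hne
    rcases hs.sign x with h | h
    · exact ⟨x, h⟩
    · exact ⟨cc L • x, by rw [hs.odd, h, neg_neg]⟩
  let w₀ : Wt X L := ⟨(), x₀⟩
  have hs' : IsPartSign (L ≃ₐ[ℚ] L) (cc L) s' := by
    refine ⟨fun w => ?_, fun w => hs.odd w.2, fun g => ?_⟩
    · rcases hs.sign w.2 with h | h
      · exact Or.inl h
      · exact Or.inr (Or.inl h)
    · rcases hsemi g with h | h
      · exact Or.inl fun w => h w.2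
      · exact Or.inr fun w => h w.2
  have htf : ∀ w : Wt X L, tf p ν j (St j w) = nf (Dec p ν j) (eps j A) w.2 := fun w => tf_St j X w
  let E : {w : Wt X L // s' w = 1} ≃ {φ : A.E →+* L // s φ = 1} :=
    { toFun := fun w => ⟨w.1.2, w.2⟩
      invFun := fun φ => ⟨⟨(), φ.1⟩, φ.2⟩
      left_inv := fun w => rfl
      right_inv := fun φ => rfl }
  have hc4 : Nat.card {w : Wt X L // s' w = 1} = 4 := by
    rw [Nat.card_congr E]
    have h1 := two_mul_card_sign (G := L ≃ₐ[ℚ] L) (c := cc L) cc_cc hs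
    omega
  have hst : ∀ w w' : Wt X L, tf p ν j (St j w) = tf p ν j (St j w') → s' w = s' w' := by
    intro w w' h
    rw [htf, htf] at h
    exact hresp _ _ h
  have hfin : Fintype (Wt X L) := Fintype.ofFinite _
  have hsum : ∀ f : (A.E →+* L) → ℤ, ∑ w : Wt X L, f w.2 = ∑ φ, f φ := by
    intro f
    refine Fintype.sum_equiv ⟨fun w => w.2, fun φ => ⟨(), φ⟩, fun w => rfl, fun φ => rfl⟩ _ _
      fun w => rfl
  have hDpos : (0 : ℤ) < Nat.card (Dec p ν j) := card_pos'
  have hχ1 : χ 1 ≠ 0 := by rcases hχ.val with h | h <;> rw [h] <;> omega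
  -- the number of signs
  set F : ℤ := ∑ φ, if s φ = 1 then eps j A φ else 0 with hF
  have hsumg : ∀ g, (∑ φ, if s φ = 1 then eps j A (g • φ) else 0) = s (g • x₀) * F := fun g =>
    sum_translate (fun g => cc_comm j g) cc_cc hs (isSign_eps j A) hsemi hx₀ g
  have hnfs : ∀ g, (∑ φ, if s φ = 1 then nn p ν j A φ g else 0) =
      F * nf (Dec p ν j) s x₀ g := by
    intro g
    unfold nn nf
    have h1 : ∀ φ : A.E →+* L, (if s φ = 1 then
        (∑ d : L ≃ₐ[ℚ] L, if d ∈ Dec p ν j then eps j A (d • g • φ) else 0) else 0) =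
        ∑ d : L ≃ₐ[ℚ] L, if d ∈ Dec p ν j then (if s φ = 1 then eps j A ((d * g) • φ) else 0)
          else 0 := by
      intro φ
      by_cases h : s φ = 1
      · simp only [h, if_true, mul_smul]
      · simp only [h, if_false, ite_self, Finset.sum_const_zero]
    rw [Finset.sum_congr rfl fun φ _ => h1 φ, Finset.sum_comm, Finset.mul_sum]
    refine Finset.sum_congr rfl fun d _ => ?_
    by_cases hd : d ∈ Dec p ν j
    · simp only [if_pos hd]
      rw [hsumg, mul_smul]
      ring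
    · simp only [if_neg hd, Finset.sum_const_zero, mul_zero]
  have hFnf : ∀ g, F * nf (Dec p ν j) s x₀ g = 2 * u * χ g := fun g => by rw [← hnfs, hrel]
  -- the decomposition group preserves the sign
  have hDs : ∀ d ∈ Dec p ν j, ∀ φ, s (d • φ) = s φ := by
    intro d hd
    rcases hsemi d with h | h
    · exact h
    · exfalso
      have h1 : nf (Dec p ν j) s x₀ 1 = -nf (Dec p ν j) s x₀ 1 := by
        have e1 : nf (Dec p ν j) s x₀ 1 = nf (Dec p ν j) s (d • x₀) 1 := by
          rw [nf_smul, one_mul]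
          have := nf_left (Dec p ν j) s x₀ d 1 hd
          rw [mul_one] at this
          exact this.symm
        have e2 : nf (Dec p ν j) s (d • x₀) 1 = -nf (Dec p ν j) s x₀ 1 := by
          unfold nf
          rw [← Finset.sum_neg_distrib]
          refine Finset.sum_congr rfl fun d' _ => ?_
          by_cases hd' : d' ∈ Dec p ν j
          · rw [if_pos hd', if_pos hd', one_smul, one_smul]
            rcases hsemi d' with h' | h'
            · rw [h', h', h]
            · rw [h', h', h]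
          · rw [if_neg hd', if_neg hd', neg_zero]
        exact e1.trans e2
      have h2 := hFnf 1
      have h3 : nf (Dec p ν j) s x₀ 1 = 0 := by omega
      rw [h3, mul_zero] at h2
      rcases hu with h4 | h4 <;> rw [h4] at h2 <;> omega
  have hnf1 : nf (Dec p ν j) s x₀ 1 = Nat.card (Dec p ν j) := by
    unfold nf
    have h1 : ∀ d : L ≃ₐ[ℚ] L, (if d ∈ Dec p ν j then s (d • (1 : L ≃ₐ[ℚ] L) • x₀) else 0) =
        if d ∈ Dec p ν j then 1 else 0 := by
      intro d
      by_cases hd : d ∈ Dec p ν j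
      · rw [if_pos hd, if_pos hd, one_smul, hDs d hd, hx₀]
      · rw [if_neg hd, if_neg hd]
    rw [Finset.sum_congr rfl fun d _ => h1 d, ← Finset.sum_filter, Finset.sum_const,
      nsmul_eq_mul, mul_one, Nat.card_eq_fintype_card, Fintype.card_subtype]
  obtain ⟨u', hu', hχu⟩ : ∃ u' : ℤ, (u' = 1 ∨ u' = -1) ∧ χ 1 = u' * Nat.card (Dec p ν j) := by
    rcases hχ.val with h | h
    · exact ⟨1, Or.inl rfl, by rw [h, one_mul]⟩
    · exact ⟨-1, Or.inr rfl, by rw [h]; ring⟩
  have hF2 : F = 2 * (u * u') := by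
    have h1 := hFnf 1
    rw [hnf1, hχu] at h1
    have h2 : (Nat.card (Dec p ν j) : ℤ) * F = Nat.card (Dec p ν j) * (2 * (u * u')) := by
      linarith
    exact mul_left_cancel₀ hDpos.ne' h2
  have hv : -(u * u') = 1 ∨ -(u * u') = -1 := by
    rcases hu with h | h <;> rcases hu' with h' | h' <;> rw [h, h'] <;> norm_num
  have hbal : Bal (G := L ≃ₐ[ℚ] L) (epsX j X) s' 2 (-(u * u')) := by
    intro g w₁ hw₁
    have h1 := sum_translate (fun g => cc_comm j g) cc_cc hs (isSign_eps j A) hsemi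
      (x₁ := w₁.2) hw₁ g
    have h2 := hsum fun φ => if s φ = 1 then eps j A (g • φ) else 0
    rw [h1, ← hF] at h2
    have h3 : (∑ w : Wt X L, if s' w = 1 then epsX j X (g • w) else 0) =
        s (g • w₁.2) * F := by
      rw [← h2]
      exact Finset.sum_congr rfl fun w _ => rfl
    have h4 : s' (g • w₁) = s (g • w₁.2) := rfl
    rw [h4]
    have h5 : (∑ w : Wt X L, if s' w = 1 then epsX j X (g • w) else 0) +
        ((2 : ℕ) : ℤ) * (-(u * u')) * s (g • w₁.2) = 0 := by
      rw [h3, hF2]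
      push_cast
      ring
    convert h5
  have hb : AlgM p ν j jO ({w : Wt X L // s' w = 1} ⊕ Fin 2)
      (Sum.elim (fun w => tf p ν j (St j w.1))
        fun _ => tf p ν j {σ : L ≃ₐ[ℚ] L | -(u * u') * s' (σ • w₀) = 1}) := by
    intro _ _
    exact blockCore Pool.Agent.W366.TA.val Pool.Agent.W64.TA.ru Pool.Agent.W67.TA.basis
      Pool.Agent.W82.TA.pull Pool.Agent.W333.TA.closed1 Pool.Agent.W918.TB.orb
      Pool.Agent.W902.TB.honda Pool.Agent.W177.TB.weilG p ν Ω L j jO X s' hs'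
      (fun τ w h => hst _ _ h) (epsX j X) (isSign_epsX j X) (fun w => rfl) 2 (-(u * u')) hv
      (Or.inr (by rw [hc4])) hbal w₀ hx₀
  refine @Closed.reindex _ _ (closedM j jO) _ _ _ (Equiv.sumCongr E (Equiv.refl (Fin 2))) _ _ ?_ @hb
  rintro (w | i)
  · exact (htf w.1).symm
  · change -u • χ = tf p ν j (ys (fun w : Wt X L => -(u * u') * s' w) w₀)
    have hsg : IsSign (cc L) fun w : Wt X L => -(u * u') * s' w := by
      refine ⟨fun w => ?_, fun w => ?_⟩
      · rcases hv with h | h <;> rcases hs.sign w.2 with h1 | h1 <;>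
          simp only [s', h, h1] <;> norm_num
      · have h1 : s' (cc L • w) = -s' w := hs.odd w.2
        simp only [h1]
        ring
    rw [tf_ys j hsg]
    funext σ
    have e1 : nf (Dec p ν j) (fun w : Wt X L => -(u * u') * s' w) w₀ σ =
        -(u * u') * nf (Dec p ν j) s x₀ σ := by
      unfold nf
      rw [Finset.mul_sum]
      refine Finset.sum_congr rfl fun d _ => ?_
      by_cases hd : d ∈ Dec p ν j
      · rw [if_pos hd, if_pos hd]
        rfl
      · rw [if_neg hd, if_neg hd, mul_zero]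
    rw [e1, Pi.smul_apply, smul_eq_mul]
    have e2 := hFnf σ
    rw [hF2] at e2
    rcases hu with h | h <;> rcases hu' with h' | h' <;> rw [h, h'] at e2 ⊢ <;> omega

end

end Pool.Agent.TH117.BL
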