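import Pool.Agent.TH117.F5.Small

/-!
# Combinatorics: families of functions and their relations
-/

set_option autoImplicit false
set_option linter.unusedSectionVars false
set_option linter.unusedVariables false

namespace Pool.Agent.TH117.BL

open Pool.Agent.W495.TA Pool.Agent.W495.TC Pool.Agent.TH117.F5

noncomputable section

variable {G : Type}

/-- The functions `T l`, and the function zero. -/
def ext0 {Λ : Type} (T : Λ → G → ℤ) : Option Λ → G → ℤ := fun o => o.elim 0 T

/-- All balanced families of functions `T l` and of functions zero, with an even number of members,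
have the property `Q`. -/
def Fam (Q : (κ : Type) → (κ → G → ℤ) → Prop) {Λ : Type} (T : Λ → G → ℤ) : Prop :=
  ∀ (κ : Type) [Fintype κ] (w : κ → Option Λ), (∀ g, ∑ k, ext0 T (w k) g = 0) →
    Even (Fintype.card κ) → Q κ fun k => ext0 T (w k)

theorem pairCancel_neg {Q : (κ : Type) → (κ → G → ℤ) → Prop} (hQ : Closed G Q) {f : G → ℤ}
    (hf : PairCancel G Q f) : PairCancel G Q (-f) := by
  intro κ _ t h
  refine hf κ t ?_
  refine hQ.reindex _ _ (Equiv.sumCongr (Equiv.refl κ) (Equiv.swap (0 : Fin 2) 1)) _ _ ?_ h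
  rintro (k | k)
  · rfl
  · fin_cases k
    · simp
    · simp

/-- Removing functions in opposite pairs, by counting. -/
theorem of_dcnt {Q : (κ : Type) → (κ → G → ℤ) → Prop} (hQ : Closed G Q) (R : Set (G → ℤ))
    (hR : ∀ f ∈ R, PairCancel G Q f) {κ κ' : Type} [Finite κ] [Finite κ'] (t : κ → G → ℤ)
    (t' : κ' → G → ℤ) (m : ℤ) (ht : ∀ k, t k ∈ R) (ht' : ∀ k, t' k ∈ R) (heven : Even (Nat.card κ))
    (heven' : Even (Nat.card κ')) (hpos : Q κ' t') (hneg : Q κ' fun k => -t' k)
    (h : ∀ f, dcnt t f = m * dcnt t' f) : Q κ t := by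
  refine Pool.Agent.W493.TC.group G Q hQ R hR Unit (fun _ => κ') (fun _ => t') (fun _ => ?_)
    (fun _ => m) κ t ht heven fun f => ?_
  · exact ⟨inferInstance, heven', ht', hpos, hneg⟩
  · rw [h]
    simp

/-- Families with vanishing counts. -/
theorem of_dcnt_zero {Q : (κ : Type) → (κ → G → ℤ) → Prop} (hQ : Closed G Q) (R : Set (G → ℤ))
    (hR : ∀ f ∈ R, PairCancel G Q f) {κ : Type} [Finite κ] (t : κ → G → ℤ)
    (ht : ∀ k, t k ∈ R) (heven : Even (Nat.card κ)) (h : ∀ f, dcnt t f = 0) : Q κ t := by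
  refine Pool.Agent.W493.TC.group G Q hQ R hR Empty (fun _ => Empty) (fun e => e.elim)
    (fun e => e.elim) (fun _ => 0) κ t ht heven fun f => ?_
  rw [h]
  simp

/-- The number of occurrences of a label. -/
def cnt {κ Λ : Type} (w : κ → Option Λ) (l : Λ) : ℤ := Nat.card {k // w k = some l}

section

variable {Λ : Type} [Fintype Λ] (cc : Λ → Λ) (T : Λ → G → ℤ)

theorem sum_eq_cnt {κ : Type} [Fintype κ] (w : κ → Option Λ) (g : G) :
    ∑ k, ext0 T (w k) g = ∑ l, cnt w l * T l g := by
  classical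
  have h1 : ∑ k, ext0 T (w k) g = ∑ o : Option Λ, ∑ k with w k = o, ext0 T (w k) g :=
    (Finset.sum_fiberwise (Finset.univ : Finset κ) w _).symm
  rw [h1, Fintype.sum_option]
  have h2 : ∑ k with w k = none, ext0 T (w k) g = 0 := by
    refine Finset.sum_eq_zero fun k hk => ?_
    rw [Finset.mem_filter] at hk
    rw [hk.2]
    rfl
  rw [h2, zero_add]
  refine Finset.sum_congr rfl fun l _ => ?_
  have h3 : ∀ k ∈ Finset.univ.filter (fun k => w k = some l), ext0 T (w k) g = T l g := by
    intro k hk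
    rw [Finset.mem_filter] at hk
    rw [hk.2]
    rfl
  rw [Finset.sum_congr rfl h3, Finset.sum_const, nsmul_eq_mul]
  congr 1
  unfold cnt
  rw [Nat.card_eq_fintype_card, Fintype.card_subtype]

variable (hT : Function.Injective T) (h0 : ∀ l, T l ≠ 0) (hodd : ∀ l, T (cc l) = -T l)

include hT h0

theorem ext0_injective : Function.Injective (ext0 T) := by
  rintro (_ | a) (_ | b) h
  · rfl
  · exact absurd h.symm (h0 b)
  · exact absurd h (h0 a)
  · rw [hT h]

include hodd

theorem dcnt_eq {κ : Type} [Finite κ] (w : κ → Option Λ) (l : Λ) :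
    dcnt (fun k => ext0 T (w k)) (T l) = cnt w l - cnt w (cc l) := by
  unfold dcnt cnt
  have h1 : ∀ k, ext0 T (w k) = T l ↔ w k = some l := by
    intro k
    exact (ext0_injective T hT h0).eq_iff (a := w k) (b := some l)
  have h2 : ∀ k, ext0 T (w k) = -T l ↔ w k = some (cc l) := by
    intro k
    rw [← hodd]
    exact (ext0_injective T hT h0).eq_iff (a := w k) (b := some (cc l))
  have e1 : {k // ext0 T (w k) = T l} = {k // w k = some l} := by simp only [h1]
  have e2 : {k // ext0 T (w k) = -T l} = {k // w k = some (cc l)} := by simp only [h2]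
  rw [e1, e2]

theorem dcnt_out {κ : Type} [Finite κ] (w : κ → Option Λ) (f : G → ℤ) (hf : ∀ l, T l ≠ f) :
    dcnt (fun k => ext0 T (w k)) f = 0 := by
  unfold dcnt
  by_cases hz : f = 0
  · subst hz
    simp
  have h1 : ∀ k, ext0 T (w k) ≠ f := by
    intro k h
    rcases hk : w k with _ | l
    · rw [hk] at h
      exact hz h.symm
    · rw [hk] at h
      exact hf l h
  have h2 : ∀ k, ext0 T (w k) ≠ -f := by
    intro k h
    rcases hk : w k with _ | l
    · rw [hk] at h
      apply hz
      have h3 : (0 : G → ℤ) = -f := h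
      rw [← neg_neg f, ← h3, neg_zero]
    · rw [hk] at h
      apply hf (cc l)
      have h3 : T l = -f := h
      rw [hodd, h3, neg_neg]
  have e1 : IsEmpty {k // ext0 T (w k) = f} := ⟨fun k => h1 k.1 k.2⟩
  have e2 : IsEmpty {k // ext0 T (w k) = -f} := ⟨fun k => h2 k.1 k.2⟩
  rw [Nat.card_of_isEmpty, Nat.card_of_isEmpty]
  simp

/-- The relation given by a balanced family. -/
theorem rel_of_fam (hcc : Function.Involutive cc) {κ : Type} [Fintype κ] (w : κ → Option Λ)
    (hsum : ∀ g, ∑ k, ext0 T (w k) g = 0) (g : G) :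
    ∑ l, (cnt w l - cnt w (cc l)) * T l g = 0 := by
  have h1 := hsum g
  rw [sum_eq_cnt] at h1
  have h2 : ∑ l, cnt w (cc l) * T l g = -∑ l, cnt w l * T l g := by
    rw [← Equiv.sum_comp hcc.toPerm fun l => cnt w (cc l) * T l g, ← Finset.sum_neg_distrib]
    refine Finset.sum_congr rfl fun l _ => ?_
    change cnt w (cc (cc l)) * T (cc l) g = _
    rw [hcc l, hodd, Pi.neg_apply, mul_neg]
  simp only [sub_mul]
  rw [Finset.sum_sub_distrib, h2, h1, neg_zero, sub_zero]

/-- All families, if all relations are multiples of the relation given by one good family. -/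
theorem fam_rank_one (hcc : Function.Involutive cc) {Q : (κ : Type) → (κ → G → ℤ) → Prop}
    (hQ : Closed G Q) (hcancel : ∀ l, PairCancel G Q (T l)) (hcancel0 : PairCancel G Q 0)
    {β : Type} [Finite β] (b : β → Option Λ) (hb : Even (Nat.card β))
    (hpos : Q β fun k => ext0 T (b k)) (hneg : Q β fun k => -ext0 T (b k))
    (hrel : ∀ a : Λ → ℤ, (∀ l, a (cc l) = -a l) → (∀ g, ∑ l, a l * T l g = 0) →
      ∃ m : ℤ, ∀ l, a l = m * (cnt b l - cnt b (cc l))) : Fam Q T := by
  intro κ _ w hsum heven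
  obtain ⟨m, hm⟩ := hrel (fun l => cnt w l - cnt w (cc l)) (fun l => by
    simp only [hcc l]
    ring) (rel_of_fam cc T hT h0 hodd hcc w hsum)
  have hR : ∀ o, ext0 T o ∈ Set.range (ext0 T) := fun o => ⟨o, rfl⟩
  refine of_dcnt hQ (Set.range (ext0 T)) ?_ (fun k => ext0 T (w k)) (fun k => ext0 T (b k)) m
    (fun k => hR _) (fun k => hR _) (by rw [Nat.card_eq_fintype_card]; exact heven) hb hpos hneg ?_
  · rintro f ⟨o, rfl⟩
    rcases o with _ | l
    · exact hcancel0
    · exact hcancel l
  · intro f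
    by_cases hf : ∃ l, T l = f
    · obtain ⟨l, rfl⟩ := hf
      rw [dcnt_eq cc T hT h0 hodd, dcnt_eq cc T hT h0 hodd]
      exact hm l
    · push Not at hf
      rw [dcnt_out cc T hT h0 hodd w f hf, dcnt_out cc T hT h0 hodd b f hf, mul_zero]

/-- All families, if there are no relations. -/
theorem fam_rank_zero (hcc : Function.Involutive cc) {Q : (κ : Type) → (κ → G → ℤ) → Prop}
    (hQ : Closed G Q) (hcancel : ∀ l, PairCancel G Q (T l)) (hcancel0 : PairCancel G Q 0)
    (hrel : ∀ a : Λ → ℤ, (∀ l, a (cc l) = -a l) → (∀ g, ∑ l, a l * T l g = 0) →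
      ∀ l, a l = 0) : Fam Q T := by
  refine fam_rank_one cc T hT h0 hodd hcc hQ hcancel hcancel0 (β := Empty) (fun e => e.elim)
    (by simp) (hQ.empty _ _) (hQ.empty _ _) fun a h1 h2 => ⟨0, fun l => ?_⟩
  rw [hrel a h1 h2, zero_mul]

end

/-- The union of two independent sets of functions. -/
theorem fam_union {Q : (κ : Type) → (κ → G → ℤ) → Prop} (hQ : Closed G Q)
    (hcancel0 : PairCancel G Q 0) {Λ : Type} (T : Λ → G → ℤ) (P P1 P2 : Λ → Prop)
    (hP : ∀ l, P l → P1 l ∨ P2 l)
    (h1 : ∀ (κ : Type) [Fintype κ] (w : κ → Option Λ), (∀ k l, w k = some l → P1 l) →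
      (∀ g, ∑ k, ext0 T (w k) g = 0) → Even (Fintype.card κ) → Q κ fun k => ext0 T (w k))
    (h2 : ∀ (κ : Type) [Fintype κ] (w : κ → Option Λ), (∀ k l, w k = some l → P2 l) →
      (∀ g, ∑ k, ext0 T (w k) g = 0) → Even (Fintype.card κ) → Q κ fun k => ext0 T (w k))
    (hind : ∀ (κ : Type) [Fintype κ] (w : κ → Option Λ), (∀ k l, w k = some l → P l) →
      (∀ g, ∑ k, ext0 T (w k) g = 0) → ∀ (s : Finset κ),
      (∀ k, k ∈ s ↔ ∃ l, w k = some l ∧ P1 l) → ∀ g, ∑ k ∈ s, ext0 T (w k) g = 0)
    (κ : Type) [Fintype κ] (w : κ → Option Λ) (hw : ∀ k l, w k = some l → P l)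
    (hsum : ∀ g, ∑ k, ext0 T (w k) g = 0) (heven : Even (Fintype.card κ)) :
    Q κ fun k => ext0 T (w k) := by
  classical
  let s : Finset κ := Finset.univ.filter fun k => ∃ l, w k = some l ∧ P1 l
  have hs : ∀ k, k ∈ s ↔ ∃ l, w k = some l ∧ P1 l := fun k => by
    simp only [s, Finset.mem_filter, Finset.mem_univ, true_and]
  have hs1 := hind κ w hw hsum s hs
  have hs2 : ∀ g, ∑ k ∈ sᶜ, ext0 T (w k) g = 0 := by
    intro g
    have e1 := Finset.sum_add_sum_compl s fun k => ext0 T (w k) g
    rw [hs1 g, zero_add, hsum g] at e1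
    exact e1
  let κ1 : Type := {k // k ∈ s}
  let κ2 : Type := {k // ¬ k ∈ s}
  let w1 : κ1 → Option Λ := fun k => w k.1
  let w2 : κ2 → Option Λ := fun k => w k.1
  have hw1 : ∀ k l, w1 k = some l → P1 l := by
    intro k l hk
    obtain ⟨l', hl', h'⟩ := (hs k.1).1 k.2
    have : some l' = some l := hl'.symm.trans hk
    rw [← Option.some_injective _ this]
    exact h'
  have hw2 : ∀ k l, w2 k = some l → P2 l := by
    intro k l hk
    rcases hP l (hw _ _ hk) with h | h
    · exact absurd ((hs k.1).2 ⟨l, hk, h⟩) k.2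
    · exact h
  have e1 : ∀ g, ∑ k, ext0 T (w1 k) g = 0 := by
    intro g
    rw [← hs1 g]
    exact (Finset.sum_subtype s (fun x => Iff.rfl) fun k => ext0 T (w k) g).symm
  have e2 : ∀ g, ∑ k, ext0 T (w2 k) g = 0 := by
    intro g
    rw [← hs2 g]
    exact (Finset.sum_subtype sᶜ (fun x => by rw [Finset.mem_compl]) fun k =>
      ext0 T (w k) g).symm
  have hcard : Fintype.card κ1 + Fintype.card κ2 = Fintype.card κ :=
    (Fintype.card_sum (α := κ1) (β := κ2)).symm.trans
      (Fintype.card_congr (Equiv.sumCompl fun k => k ∈ s))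
  rcases Nat.even_or_odd (Fintype.card κ1) with c1 | c1
  · have c2 : Even (Fintype.card κ2) := by
      rcases Nat.even_or_odd (Fintype.card κ2) with c2 | c2
      · exact c2
      · have := c1.add_odd c2
        rw [hcard] at this
        exact absurd heven (Nat.not_even_iff_odd.2 this)
    refine hQ.reindex _ _ (Equiv.sumCompl fun k => k ∈ s) _ _ ?_
      (hQ.sum _ _ _ _ (h1 κ1 w1 hw1 e1 c1) (h2 κ2 w2 hw2 e2 c2))
    rintro (k | k)
    · rfl
    · rfl
  · have c2 : Odd (Fintype.card κ2) := by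
      rcases Nat.even_or_odd (Fintype.card κ2) with c2 | c2
      · have := c1.add_even c2
        rw [hcard] at this
        exact absurd heven (Nat.not_even_iff_odd.2 this)
      · exact c2
    have q1 := h1 (κ1 ⊕ Fin 1) (Sum.elim w1 fun _ => none) (by
        rintro (k | k) l hk
        · exact hw1 k l hk
        · exact absurd hk (by simp)) (by
        intro g
        rw [Fintype.sum_sum_type]
        simp only [Sum.elim_inl, Sum.elim_inr]
        rw [e1 g, zero_add]
        exact Finset.sum_eq_zero fun k _ => rfl) (by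
        rw [Fintype.card_sum, Fintype.card_fin]
        exact c1.add_one)
    have q2 := h2 (κ2 ⊕ Fin 1) (Sum.elim w2 fun _ => none) (by
        rintro (k | k) l hk
        · exact hw2 k l hk
        · exact absurd hk (by simp)) (by
        intro g
        rw [Fintype.sum_sum_type]
        simp only [Sum.elim_inl, Sum.elim_inr]
        rw [e2 g, zero_add]
        exact Finset.sum_eq_zero fun k _ => rfl) (by
        rw [Fintype.card_sum, Fintype.card_fin]
        exact c2.add_one)
    have q3 := hQ.sum _ _ _ _ q1 q2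
    refine hcancel0 κ _ ?_
    let e : (κ1 ⊕ Fin 1) ⊕ (κ2 ⊕ Fin 1) ≃ κ ⊕ Fin 2 :=
      (Equiv.sumSumSumComm κ1 (Fin 1) κ2 (Fin 1)).trans
        (Equiv.sumCongr (Equiv.sumCompl fun k => k ∈ s) finSumFinEquiv)
    have hz : ∀ i : Fin 2, (![(0 : G → ℤ), -0] : Fin 2 → G → ℤ) i = 0 := by
      intro i
      rw [neg_zero]
      fin_cases i <;> rfl
    refine hQ.reindex _ _ e _ _ ?_ q3
    rintro ((k | k) | (k | k))
    · rfl
    · exact hz _
    · rfl
    · exact hz _

end

end Pool.Agent.TH117.BL
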