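import Pool.Agent.W333.TA.Closed1
import Pool.Agent.W67.TA.BasisX
import Pool.Agent.W351.TA.Expand

/-!
# Expansion of alternating forms in monomials
-/

set_option autoImplicit false

namespace Pool.Agent.TH117.BL

open NumberField Module Pool.Agent.W547.KB Pool.Agent.W495.TA
  Pool.Agent.W333.TA
open scoped TensorProduct

noncomputable section

variable {p : ℕ} [Fact p.Prime] {ν : PadicAlgCl p ≃+* ℂ} {Ω : Type} [Field Ω] [CharZero Ω]
  {L : Type} [Field L] [NumberField L] (jO : L →+* Ω) {Y : RedAV p ν}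
  (e : Basis (Wt Y.X L) Ω (TM Ω Y)) (h1 : ∀ w, co jO w (e w) = 1)
  (h0 : ∀ w w', w ≠ w' → co jO w (e w') = 0)

include h1 h0

theorem repr_eq (w : Wt Y.X L) (v : TM Ω Y) : e.repr v w = co jO w v := by
  have : (e.coord w) = co jO w := by
    apply e.ext
    intro w'
    rw [Basis.coord_apply, Basis.repr_self]
    by_cases h : w = w'
    · subst h; rw [Finsupp.single_eq_same, h1]
    · rw [Finsupp.single_eq_of_ne h]; exact (h0 w w' h).symm
  rw [← this]; rfl

theorem rep_sum [Fintype (Wt Y.X L)] (v : TM Ω Y) : v = ∑ w, co jO w v • e w := by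
  conv_lhs => rw [← e.sum_repr v]
  exact Finset.sum_congr rfl fun w _ => by rw [repr_eq jO e h1 h0]

theorem apply_sum [Fintype (Wt Y.X L)] {κ : Type} [Fintype κ] [DecidableEq κ]
    (f : (TM Ω Y) [⋀^κ]→ₗ[Ω] Ω) (v : κ → TM Ω Y) : f v =
      ∑ I : κ → Wt Y.X L, (∏ k, co jO (I k) (v k)) * f (fun k => e (I k)) := by
  classical
  have h2 : f v = f.toMultilinearMap (fun k => ∑ w, co jO w (v k) • e w) := by
    change f v = f _
    congr 1
    funext k
    exact rep_sum jO e h1 h0 (v k)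
  rw [h2, MultilinearMap.map_sum]
  refine Finset.sum_congr rfl fun I _ => ?_
  rw [MultilinearMap.map_smul_univ]
  rfl

/-- The expansion of a form in monomials. -/
theorem expand_formula [Fintype (Wt Y.X L)] {κ : Type} [Fintype κ] [DecidableEq κ]
    (f : (TM Ω Y) [⋀^κ]→ₗ[Ω] Ω) : ((Fintype.card (Equiv.Perm κ) : ℕ) : Ω) • f =
      ∑ I : κ → Wt Y.X L, f (fun k => e (I k)) • monoO jO I := by
  classical
  ext v
  rw [Pool.Agent.W351.TA.sum_alt, AlternatingMap.smul_apply, smul_eq_mul]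
  have h3 : ∀ σ : Equiv.Perm κ, f v = ((Equiv.Perm.sign σ : ℤ) : Ω) *
      ∑ I : κ → Wt Y.X L, (∏ k, co jO (I k) (v (σ k))) * f (fun k => e (I k)) := by
    intro σ
    rw [← apply_sum jO e h1 h0 f (fun k => v (σ k))]
    have h3 : f (fun k => v (σ k)) = Equiv.Perm.sign σ • f v := f.map_perm v σ
    rw [h3, Units.smul_def, zsmul_eq_mul, ← mul_assoc,
      ← Int.cast_mul, ← Units.val_mul, Int.units_mul_self, Units.val_one, Int.cast_one, one_mul]
  have h4 : ((Fintype.card (Equiv.Perm κ) : ℕ) : Ω) * f v =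
      ∑ σ : Equiv.Perm κ, ((Equiv.Perm.sign σ : ℤ) : Ω) *
        ∑ I : κ → Wt Y.X L, (∏ k, co jO (I k) (v (σ k))) * f (fun k => e (I k)) := by
    rw [← Finset.sum_congr rfl (fun σ _ => h3 σ), Finset.sum_const, Finset.card_univ,
      nsmul_eq_mul]
  rw [h4]
  simp only [Finset.mul_sum]
  rw [Finset.sum_comm]
  refine Finset.sum_congr rfl fun I _ => ?_
  rw [AlternatingMap.smul_apply, smul_eq_mul, monoO_apply, Finset.mul_sum]
  refine Finset.sum_congr rfl fun σ _ => ?_
  ring

end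

end Pool.Agent.TH117.BL
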