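import Pool.Agent.TH117.BL.Comb

/-!
# Combinatorics: all relations between the functions of an orbit with eight elements and a
quadratic character
-/

set_option autoImplicit false
set_option linter.unusedSectionVars false
set_option linter.unusedVariables false

namespace Pool.Agent.TH117.BL

open Pool.Agent.W495.TA Pool.Agent.W495.TC Pool.Agent.TH117.F5

noncomputable section

variable {G : Type}

/-- Families of functions that occur in another system of functions. -/
theorem fam_of_map {Q : (κ : Type) → (κ → G → ℤ) → Prop} {Λ Λ' : Type} (T : Λ → G → ℤ)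
    (T' : Λ' → G → ℤ) (φ : Λ → Option Λ') (h : ∀ l, T l = ext0 T' (φ l)) (hT : Fam Q T') :
    Fam Q T := by
  intro κ _ w hsum heven
  have h1 : ∀ k, ext0 T (w k) = ext0 T' ((w k).bind φ) := by
    intro k
    rcases w k with _ | l
    · rfl
    · exact h l
  have h2 : (fun k => ext0 T (w k)) = fun k => ext0 T' ((w k).bind φ) := funext h1
  rw [h2]
  refine hT κ (fun k => (w k).bind φ) (fun g => ?_) heven
  rw [← hsum g]
  exact Finset.sum_congr rfl fun k _ => by rw [h1]

/-- It is enough to consider families without opposite pairs. -/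
theorem reduce_fam [Group G] [Fintype G] {Q : (κ : Type) → (κ → G → ℤ) → Prop} (hQ : Closed G Q)
    {Λ : Type} (T : Λ → G → ℤ)
    (H : ∀ (κ : Type) [Fintype κ] (w : κ → Option Λ), (∀ g, ∑ k, ext0 T (w k) g = 0) →
      Even (Fintype.card κ) → (∀ k k', k ≠ k' → ext0 T (w k) ≠ -ext0 T (w k')) →
      Q κ fun k => ext0 T (w k)) : Fam Q T := by
  intro κ0 _ w hsum heven
  let _ : MulAction G κ0 :=
    { smul := fun _ k => k
      one_smul := fun _ => rfl
      mul_smul := fun _ _ _ => rfl }
  exact reduce (G := G) (W := κ0) (fun k => ext0 T (w k)) Q hQ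
    (fun κ _ I hI h1 h2 h3 => H κ (fun k => w (I k)) h1 h2 h3) κ0 id Function.injective_id hsum
    heven

section

variable {X : Type} [Group G] [Fintype G] [Fintype X] [MulAction G X]

/-- The functions of the orbit and the two signs of the character. -/
def TX (D : Subgroup G) (ε : X → ℤ) (χ : G → ℤ) : X ⊕ Bool → G → ℤ :=
  Sum.elim (nf D ε) fun b => if b then χ else -χ

/-- Eight elements and a character. -/
theorem fam82 (c : G) (hset : Setting G X c) (hcard : Fintype.card X = 8)
    (D : Subgroup G) (ε : X → ℤ) (hε : IsSign c ε) (χ : G → ℤ) (hχ : IsChar c D χ)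
    {Q : (κ : Type) → (κ → G → ℤ) → Prop} (hQ : Closed G Q)
    (hcancel : ∀ x, PairCancel G Q (nf D ε x)) (hcancelχ : PairCancel G Q χ)
    (hcancel0 : PairCancel G Q 0) (hsimple : Fam Q (nf (X := X) D ε))
    (hexc : ∀ x y : X, x ≠ y → nf D ε x + nf D ε y ≠ χ)
    (hweil : ∀ s : X → ℤ, IsSign c s → Semi G s → (∀ x y, nf D ε x = nf D ε y → s x = s y) →
      ∀ u : ℤ, (u = 1 ∨ u = -1) →
      (∀ g, (∑ x, if s x = 1 then nf D ε x g else 0) = 2 * u * χ g) →
      Q ({x : X // s x = 1} ⊕ Fin 2) (Sum.elim (fun x => nf D ε x.1) fun _ => -u • χ)) :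
    Fam Q (TX D ε χ) := by
  classical
  have hcc : ∀ x : X, c • c • x = x := fun x => by rw [← mul_smul, hset.sq, one_smul]
  have hnfc : ∀ x, nf D ε (c • x) = -nf D ε x := fun x => funext fun g => nf_odd hset.comm D hε x g
  have hnfg : ∀ (g : G) (x : X), nf D ε (g • x) = fun y => nf D ε x (y * g) := fun g x =>
    funext fun y => nf_smul D ε g y x
  have hDpos : (0 : ℤ) < Nat.card D := by exact_mod_cast (Nat.card_pos : 0 < Nat.card D)
  have hχ1 : χ 1 ≠ 0 := by rcases hχ.val with h | h <;> rw [h] <;> omega
  by_cases hex : ∃ x, nf D ε x = χ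
  · obtain ⟨x, hx⟩ := hex
    refine fam_of_map (TX D ε χ) (nf D ε)
      (Sum.elim some fun b => if b then some x else some (c • x)) ?_ hsimple
    rintro (y | b)
    · rfl
    · rcases b with _ | _
      · change -χ = nf D ε (c • x)
        rw [hnfc, hx]
      · exact hx.symm
  push Not at hex
  set H := dot χ χ with hH
  have hHpos : 0 < H := hχ.dot_pos
  let A : X → ℤ := fun x => dot (nf D ε x) χ
  have hnot : ∀ g : G, (∀ y, χ (y * g) = χ y) → (∀ y, χ (y * g) = -χ y) → False := by
    intro g h1 h2
    have h3 := h1 1
    rw [h2] at h3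
    omega
  have hA1 : ∀ (g : G), (∀ y, χ (y * g) = χ y) → ∀ x, A (g • x) = A x := by
    intro g h1 x
    have h2 := hχ.dot_smul (nf D ε x) g
    rw [← hnfg] at h2
    rcases h2 with ⟨-, h3⟩ | ⟨h3, -⟩
    · exact h3
    · exact (hnot g h1 h3).elim
  have hA2 : ∀ (g : G), (∀ y, χ (y * g) = -χ y) → ∀ x, A (g • x) = -A x := by
    intro g h1 x
    have h2 := hχ.dot_smul (nf D ε x) g
    rw [← hnfg] at h2
    rcases h2 with ⟨h3, -⟩ | ⟨-, h3⟩
    · exact (hnot g h3 h1).elim
    · exact h3
  have hAc : ∀ x, A (c • x) = -A x := by
    intro x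
    change dot (nf D ε (c • x)) χ = -dot (nf D ε x) χ
    rw [hnfc, dot_neg]
  by_cases hA0 : ∀ x, A x = 0
  · -- the character does not occur in relations
    refine reduce_fam hQ _ ?_
    intro κ _ w hsum heven hno
    have hTχ : ∀ b : Bool, TX D ε χ (Sum.inr b) = χ ∨ TX D ε χ (Sum.inr b) = -χ := by
      intro b
      cases b
      · exact Or.inr rfl
      · exact Or.inl rfl
    have hnone : ∀ k b, w k ≠ some (Sum.inr b) := by
      intro k b hk
      obtain ⟨u, hu, huk⟩ : ∃ u : ℤ, (u = 1 ∨ u = -1) ∧ ext0 (TX D ε χ) (w k) = u • χ := by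
        rw [hk]
        rcases hTχ b with h | h
        · exact ⟨1, Or.inl rfl, by rw [one_smul]; exact h⟩
        · exact ⟨-1, Or.inr rfl, by rw [neg_one_smul]; exact h⟩
      have hdotu : ∀ v : ℤ, dot (v • χ) χ = v * H := by
        intro v
        rw [hH]
        unfold dot
        rw [Finset.mul_sum]
        exact Finset.sum_congr rfl fun g _ => by
          rw [Pi.smul_apply, smul_eq_mul]
          ring
      have hnonneg : ∀ k', 0 ≤ u * dot (ext0 (TX D ε χ) (w k')) χ := by
        intro k'
        by_cases hkk : k' = k
        · rw [hkk, huk, hdotu]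
          rcases hu with h | h <;> rw [h] <;> nlinarith
        rcases hk' : w k' with _ | (x | b')
        · change 0 ≤ u * dot 0 χ
          have : dot (0 : G → ℤ) χ = 0 := by
            unfold dot
            simp
          rw [this, mul_zero]
        · change 0 ≤ u * A x
          rw [hA0, mul_zero]
        · have h1 := hno k' k hkk
          rw [huk, hk'] at h1
          have h2 : ext0 (TX D ε χ) (some (Sum.inr b')) = u • χ := by
            change TX D ε χ (Sum.inr b') = u • χ
            have h3 : TX D ε χ (Sum.inr b') ≠ -(u • χ) := h1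
            rcases hTχ b' with h | h <;> rcases hu with hu | hu
            · rw [h, hu, one_smul]
            · exfalso
              apply h3
              rw [h, hu, neg_one_smul, neg_neg]
            · exfalso
              apply h3
              rw [h, hu, one_smul]
            · rw [h, hu, neg_one_smul]
          rw [h2, hdotu]
          rcases hu with h | h <;> rw [h] <;> nlinarith
      have hpos : 0 < u * dot (ext0 (TX D ε χ) (w k)) χ := by
        rw [huk, hdotu]
        rcases hu with h | h <;> rw [h] <;> nlinarith
      have hzero : ∑ k', u * dot (ext0 (TX D ε χ) (w k')) χ = 0 := by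
        rw [← Finset.mul_sum]
        have h1 : ∑ k', dot (ext0 (TX D ε χ) (w k')) χ = 0 := by
          unfold dot
          rw [Finset.sum_comm]
          refine Finset.sum_eq_zero fun g _ => ?_
          rw [← Finset.sum_mul, hsum g, zero_mul]
        rw [h1, mul_zero]
      have := Finset.sum_pos' (s := (Finset.univ : Finset κ))
        (fun k' _ => hnonneg k') ⟨k, Finset.mem_univ k, hpos⟩
      omega
    -- only functions of the orbit
    let w' : κ → Option X := fun k => (w k).bind (Sum.elim some fun _ => none)
    have hw' : ∀ k, ext0 (TX D ε χ) (w k) = ext0 (nf D ε) (w' k) := by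
      intro k
      rcases hk : w k with _ | (x | b)
      · change _ = ext0 (nf D ε) ((w k).bind _)
        rw [hk]
        rfl
      · change _ = ext0 (nf D ε) ((w k).bind _)
        rw [hk]
        rfl
      · exact absurd hk (hnone k b)
    have h1 : (fun k => ext0 (TX D ε χ) (w k)) = fun k => ext0 (nf D ε) (w' k) := funext hw'
    rw [h1]
    refine hsimple κ w' (fun g => ?_) heven
    rw [← hsum g]
    exact Finset.sum_congr rfl fun k _ => by rw [hw']
  -- the character occurs in the orbit
  push Not at hA0
  obtain ⟨x1, hx1⟩ := hA0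
  have hAabs : ∀ x, A x = A x1 ∨ A x = -A x1 := by
    intro x
    obtain ⟨g, hg⟩ := hset.trans x1 x
    rcases hχ.semi g with h | h
    · left; rw [← hg, hA1 g h]
    · right; rw [← hg, hA2 g h]
  have hAne : ∀ x, A x ≠ 0 := by
    intro x h0
    rcases hAabs x with h1 | h1 <;> omega
  let s : X → ℤ := fun x => if 0 < A x then 1 else -1
  have hs1 : ∀ x, s x = 1 ↔ 0 < A x := by
    intro x
    simp only [s]
    split_ifs with h
    · exact ⟨fun _ => h, fun _ => rfl⟩
    · exact ⟨fun h' => absurd h' (by norm_num), fun h' => absurd h' h⟩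
  have hsm : ∀ x, s x = -1 ↔ A x < 0 := by
    intro x
    have := hAne x
    simp only [s]
    split_ifs with h
    · exact ⟨fun h' => absurd h' (by norm_num), fun h' => by omega⟩
    · exact ⟨fun _ => by omega, fun _ => rfl⟩
  have hsv : ∀ x, s x = 1 ∨ s x = -1 := by
    intro x
    rcases lt_or_gt_of_ne (hAne x) with h | h
    · exact Or.inr ((hsm x).2 h)
    · exact Or.inl ((hs1 x).2 h)
  have hsg1 : ∀ g : G, (∀ y, χ (y * g) = χ y) → ∀ x, s (g • x) = s x := by
    intro g h x
    rcases hsv x with h1 | h1
    · rw [h1, hs1, hA1 g h]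
      exact (hs1 x).1 h1
    · rw [h1, hsm, hA1 g h]
      exact (hsm x).1 h1
  have hsg2 : ∀ g : G, (∀ y, χ (y * g) = -χ y) → ∀ x, s (g • x) = -s x := by
    intro g h x
    rcases hsv x with h1 | h1
    · rw [h1, hsm, hA2 g h]
      have := (hs1 x).1 h1
      omega
    · rw [h1, neg_neg, hs1, hA2 g h]
      have := (hsm x).1 h1
      omega
  have hs : IsSign c s := ⟨hsv, fun x => hsg2 c (fun y => hχ.odd y) x⟩
  have hsemi : Semi G s := fun g => (hχ.semi g).imp (hsg1 g) (hsg2 g)
  have hresp : ∀ x y, nf D ε x = nf D ε y → s x = s y := by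
    intro x y h
    simp only [s, A, h]
  -- the sum over the positive half
  let O : Finset X := Finset.univ.filter fun x => s x = 1
  have hO : ∀ x, x ∈ O ↔ s x = 1 := fun x => by
    simp only [O, Finset.mem_filter, Finset.mem_univ, true_and]
  have hOcard : O.card = 4 := by
    have h1 := two_mul_card_sign (G := G) hset.sq hs
    rw [Nat.card_eq_fintype_card, Fintype.card_subtype, hcard] at h1
    change 2 * O.card = 8 at h1
    omega
  let U : G → ℤ := fun g => ∑ x, if s x = 1 then nf D ε x g else 0
  have hUO : ∀ g, U g = ∑ x ∈ O, nf D ε x g := by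
    intro g
    change (∑ x, if s x = 1 then nf D ε x g else 0) = _
    rw [← Finset.sum_filter]
  have hneg : ∀ g, (∑ x, if s x = -1 then nf D ε x g else 0) = -U g := by
    intro g
    change _ = -∑ x, if s x = 1 then nf D ε x g else 0
    rw [← Finset.sum_neg_distrib]
    refine Fintype.sum_equiv (MulAction.toPerm c) _ _ fun x => ?_
    rw [MulAction.toPerm_apply, hs.odd, hnfc, Pi.neg_apply]
    by_cases h : s x = -1
    · rw [if_pos h, if_pos (by rw [h]; norm_num), neg_neg]
    · rw [if_neg h, if_neg (fun h1 => h (by omega)), neg_zero]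
  have hUg : ∀ g, U g * χ 1 = U 1 * χ g := by
    intro g
    have e0 : U g = ∑ y, if s (g⁻¹ • y) = 1 then nf D ε y 1 else 0 := by
      change (∑ x, if s x = 1 then nf D ε x g else 0) = _
      refine Fintype.sum_equiv (MulAction.toPerm g) _ _ fun x => ?_
      rw [MulAction.toPerm_apply, inv_smul_smul, nf_smul, one_mul]
    rcases hχ.semi g with h | h
    · have e1 : χ g = χ 1 := by
        have := h 1
        rwa [one_mul] at this
      have e2 : ∀ y, s (g⁻¹ • y) = s y := by
        intro y
        rw [← hsg1 g h (g⁻¹ • y), smul_inv_smul]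
      rw [e1]
      congr 1
      rw [e0]
      exact Finset.sum_congr rfl fun y _ => by rw [e2]
    · have e1 : χ g = -χ 1 := by
        have := h 1
        rwa [one_mul] at this
      have e2 : ∀ y, s (g⁻¹ • y) = -s y := by
        intro y
        have := hsg2 g h (g⁻¹ • y)
        rw [smul_inv_smul] at this
        omega
      have e3 : U g = -U 1 := by
        rw [e0, ← hneg]
        refine Finset.sum_congr rfl fun y _ => ?_
        rw [e2]
        by_cases h2 : s y = -1
        · rw [if_pos (by rw [h2]; norm_num), if_pos h2]
        · rw [if_neg (fun h3 => h2 (by omega)), if_neg h2]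
      rw [e1, e3]
      ring
  have hDO : ∀ d ∈ D, ∀ x, s (d • x) = s x := fun d hd x =>
    hsg1 d (fun y => hχ.fix hd y) x
  have hU1 : U 1 = Nat.card D * ∑ x ∈ O, ε x := by
    rw [hUO]
    unfold nf
    rw [Finset.sum_comm]
    have h1 : ∀ d : G, ∑ x ∈ O, (if d ∈ D then ε (d • (1 : G) • x) else 0) =
        if d ∈ D then ∑ x ∈ O, ε x else 0 := by
      intro d
      by_cases hd : d ∈ D
      · rw [if_pos hd]
        have h2 : ∀ x, x ∈ O ↔ d • x ∈ O := by
          intro x
          rw [hO, hO, hDO d hd]
        refine Finset.sum_bij (fun x _ => d • x) (fun x hx => (h2 x).1 hx)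
          (fun x _ y _ hxy => smul_left_cancel d hxy) ?_ ?_
        · intro y hy
          refine ⟨d⁻¹ • y, ?_, smul_inv_smul d y⟩
          rw [h2, smul_inv_smul]
          exact hy
        · intro x hx
          rw [if_pos hd, one_smul]
      · rw [if_neg hd]
        exact Finset.sum_eq_zero fun x _ => if_neg hd
    rw [Finset.sum_congr rfl fun d _ => h1 d, ← Finset.sum_filter, Finset.sum_const,
      nsmul_eq_mul]
    congr 2
    rw [Nat.card_eq_fintype_card, Fintype.card_subtype]
  -- the sum of four signs
  obtain ⟨a1, a2, a3, a4, n12, n13, n14, n23, n24, n34, hO4⟩ := Finset.card_eq_four.1 hOcard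
  have hsum4 : ∀ f : X → ℤ, ∑ x ∈ O, f x = f a1 + f a2 + f a3 + f a4 := by
    intro f
    rw [hO4, Finset.sum_insert (by simp [n12, n13, n14]), Finset.sum_insert (by simp [n23, n24]),
      Finset.sum_insert (by simp [n34]), Finset.sum_singleton]
    ring
  obtain ⟨F, hFU, hFE⟩ : ∃ F : ℤ, (∀ g, U g = F * χ g) ∧
      (F = ∑ x ∈ O, ε x ∨ F = -∑ x ∈ O, ε x) := by
    rcases hχ.val with h | h
    · refine ⟨∑ x ∈ O, ε x, fun g => ?_, Or.inl rfl⟩
      have e1 := hUg g
      rw [hU1, h] at e1
      have e2 : (Nat.card D : ℤ) * U g = Nat.card D * ((∑ x ∈ O, ε x) * χ g) := by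
        rw [mul_comm, e1]
        ring
      exact mul_left_cancel₀ hDpos.ne' e2
    · refine ⟨-∑ x ∈ O, ε x, fun g => ?_, Or.inr rfl⟩
      have e1 := hUg g
      rw [hU1, h] at e1
      have e2 : (Nat.card D : ℤ) * U g = Nat.card D * ((-∑ x ∈ O, ε x) * χ g) := by
        have e3 : (Nat.card D : ℤ) * U g = -(U g * -(Nat.card D : ℤ)) := by ring
        rw [e3, e1]
        ring
      exact mul_left_cancel₀ hDpos.ne' e2
  have hdotU : dot U χ = F * H := by
    rw [hH]
    unfold dot
    rw [Finset.mul_sum]
    exact Finset.sum_congr rfl fun g _ => by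
      rw [hFU]
      ring
  have hdotU' : dot U χ = ∑ x ∈ O, A x := by
    change dot U χ = ∑ x ∈ O, dot (nf D ε x) χ
    unfold dot
    rw [Finset.sum_comm]
    refine Finset.sum_congr rfl fun g _ => ?_
    rw [hUO, Finset.sum_mul]
  have hFpos : 0 < F := by
    have h1 : 0 < ∑ x ∈ O, A x := by
      refine Finset.sum_pos (fun x hx => (hs1 x).1 ((hO x).1 hx)) ?_
      rw [← Finset.card_pos, hOcard]
      norm_num
    rw [← hdotU', hdotU] at h1
    by_contra hcon
    push Not at hcon
    have : F * H ≤ 0 := mul_nonpos_of_nonpos_of_nonneg hcon hHpos.le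
    omega
  have hF24 : F = 2 ∨ F = 4 := by
    rw [hsum4] at hFE
    rcases hε.sign a1 with h1 | h1 <;> rcases hε.sign a2 with h2 | h2 <;>
      rcases hε.sign a3 with h3 | h3 <;> rcases hε.sign a4 with h4 | h4 <;>
      rw [h1, h2, h3, h4] at hFE <;> omega
  rcases hF24 with hF | hF
  swap
  · -- all functions are equal to the character
    exfalso
    have hεO : ∀ x ∈ O, (Nat.card D : ℤ) * ε x = χ 1 := by
      have e1 := hFU 1
      rw [hU1, hsum4, hF] at e1
      have e2 : ε a1 = ε a2 ∧ ε a1 = ε a3 ∧ ε a1 = ε a4 := by
        rw [hsum4, hF] at hFE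
        rcases hε.sign a1 with h1 | h1 <;> rcases hε.sign a2 with h2 | h2 <;>
          rcases hε.sign a3 with h3 | h3 <;> rcases hε.sign a4 with h4 | h4 <;>
          rw [h1, h2, h3, h4] at hFE ⊢ <;> omega
      obtain ⟨e2, e3, e4⟩ := e2
      rw [← e2, ← e3, ← e4] at e1
      have e5 : (Nat.card D : ℤ) * ε a1 = χ 1 := by
        have : (4 : ℤ) * ((Nat.card D : ℤ) * ε a1) = 4 * χ 1 := by
          rw [← e1]
          ring
        omega
      intro x hx
      rw [hO4] at hx
      simp only [Finset.mem_insert, Finset.mem_singleton] at hx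
      rcases hx with rfl | rfl | rfl | rfl
      · exact e5
      · rw [← e2]; exact e5
      · rw [← e3]; exact e5
      · rw [← e4]; exact e5
    have hval1 : ∀ x ∈ O, nf D ε x 1 = χ 1 := by
      intro x hx
      unfold nf
      have h1 : ∀ d : G, (if d ∈ D then ε (d • (1 : G) • x) else 0) =
          if d ∈ D then ε x else 0 := by
        intro d
        by_cases hd : d ∈ D
        · rw [if_pos hd, if_pos hd, one_smul]
          have h2 : d • x ∈ O := by
            rw [hO, hDO d hd]
            exact (hO x).1 hx
          have h3 := hεO _ h2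
          have h4 := hεO _ hx
          have h5 : (Nat.card D : ℤ) * ε (d • x) = Nat.card D * ε x := by rw [h3, h4]
          exact mul_left_cancel₀ hDpos.ne' h5
        · rw [if_neg hd, if_neg hd]
      rw [Finset.sum_congr rfl fun d _ => h1 d, ← Finset.sum_filter, Finset.sum_const,
        nsmul_eq_mul, ← hεO x hx]
      congr 2
      rw [Nat.card_eq_fintype_card, Fintype.card_subtype]
    have ha1 : a1 ∈ O := by rw [hO4]; exact Finset.mem_insert_self _ _
    apply hex a1
    funext g
    have e1 : nf D ε a1 g = nf D ε (g • a1) 1 := by rw [nf_smul, one_mul]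
    rw [e1]
    rcases hχ.semi g with h | h
    · have e2 : χ g = χ 1 := by
        have := h 1
        rwa [one_mul] at this
      rw [e2]
      refine hval1 _ ?_
      rw [hO, hsg1 g h]
      exact (hO a1).1 ha1
    · have e2 : χ g = -χ 1 := by
        have := h 1
        rwa [one_mul] at this
      rw [e2]
      have e3 : c • g • a1 ∈ O := by
        rw [hO, hs.odd, hsg2 g h, neg_neg]
        exact (hO a1).1 ha1
      have e4 := hval1 _ e3
      rw [hnfc, Pi.neg_apply] at e4
      omega
  -- the sum is twice the character
  subst hF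
  have htrans : ∀ x y, s x = s y → ∃ g : G, g • x = y ∧ ∀ z, s (g • z) = s z := by
    intro x y hxy
    obtain ⟨g, hg⟩ := hset.trans x y
    refine ⟨g, hg, ?_⟩
    rcases hχ.semi g with h | h
    · exact hsg1 g h
    · exfalso
      have h1 := hsg2 g h x
      rw [hg] at h1
      rcases hsv x with h2 | h2 <;> omega
  have hfour : ∀ x y z w : X, s x = 1 → s y = 1 → s z = 1 → s w = 1 → x ≠ y → x ≠ z → x ≠ w →
      y ≠ z → y ≠ w → z ≠ w → ∀ g, nf D ε x g + nf D ε y g + nf D ε z g + nf D ε w g =
        2 * χ g := by
    intro x y z w hx hy hz hw h1 h2 h3 h4 h5 h6 g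
    have hsub : ({x, y, z, w} : Finset X) ⊆ O := by
      intro a ha
      simp only [Finset.mem_insert, Finset.mem_singleton] at ha
      rw [hO]
      rcases ha with rfl | rfl | rfl | rfl
      · exact hx
      · exact hy
      · exact hz
      · exact hw
    have hc4 : ({x, y, z, w} : Finset X).card = 4 := by
      rw [Finset.card_insert_of_notMem, Finset.card_insert_of_notMem,
        Finset.card_insert_of_notMem, Finset.card_singleton]
      · simpa using h6
      · simp [h4, h5]
      · simp [h1, h2, h3]
    have heq := Finset.eq_of_subset_of_card_le hsub (by rw [hc4, hOcard])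
    have e1 := hFU g
    rw [hUO, ← heq, Finset.sum_insert (by simp [h1, h2, h3]), Finset.sum_insert (by simp [h4, h5]),
      Finset.sum_insert (by simp [h6]), Finset.sum_singleton] at e1
    linarith
  have hinj : Function.Injective (nf (X := X) D ε) := by
    have key : ∀ x y, s x = 1 → nf D ε x = nf D ε y → x = y := by
      intro x y hx hxy
      by_contra hne
      have hy : s y = 1 := by rw [← hresp x y hxy, hx]
      by_cases hw : ∃ w, s w = 1 ∧ nf D ε w ≠ nf D ε x
      · obtain ⟨w, hw, hwx⟩ := hw
        obtain ⟨g, hg, hgs⟩ := htrans x w (by rw [hx, hw])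
        have hw' : s (g • y) = 1 := by rw [hgs, hy]
        have hfw : nf D ε (g • y) = nf D ε w := by
          rw [← hg, hnfg, hnfg, hxy]
        have d1 : x ≠ w := fun h => hwx (by rw [h])
        have d2 : x ≠ g • y := fun h => hwx (by rw [← hfw, ← h])
        have d3 : y ≠ w := fun h => hwx (by rw [← h, ← hxy])
        have d4 : y ≠ g • y := fun h => hwx (by rw [← hfw, ← h, ← hxy])
        have d5 : w ≠ g • y := fun h => hne (smul_left_cancel g (hg.trans h))
        apply hexc x w d1
        funext z
        have e1 := hfour x y w (g • y) hx hy hw hw' hne d1 d2 d3 d4 d5 z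
        rw [hfw, ← hxy] at e1
        rw [Pi.add_apply]
        omega
      · push Not at hw
        apply hexc x y hne
        funext z
        have e1 := hFU z
        rw [hUO, Finset.sum_congr rfl fun w hw' => congrFun (hw w ((hO w).1 hw')) z,
          Finset.sum_const, hOcard] at e1
        rw [Pi.add_apply, ← hxy]
        simp only [nsmul_eq_mul] at e1
        push_cast at e1
        omega
    intro x y hxy
    rcases hsv x with hx | hx
    · exact key x y hx hxy
    · have h1 := key (c • x) (c • y) (by rw [hs.odd, hx, neg_neg]) (by rw [hnfc, hnfc, hxy])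
      exact smul_left_cancel c h1
  -- the labels
  have hTinj : Function.Injective (TX D ε χ) := by
    have hχχ : χ ≠ -χ := by
      intro h
      have := congrFun h 1
      rw [Pi.neg_apply] at this
      omega
    have hne' : ∀ x, nf D ε x ≠ -χ := by
      intro x h
      apply hex (c • x)
      rw [hnfc, h, neg_neg]
    rintro (x | b) (y | b') h
    · exact congrArg Sum.inl (hinj h)
    · cases b'
      · exact absurd h (hne' x)
      · exact absurd h (hex x)
    · cases b
      · exact absurd h.symm (hne' y)
      · exact absurd h.symm (hex y)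
    · cases b <;> cases b'
      · rfl
      · exact absurd h.symm hχχ
      · exact absurd h hχχ
      · rfl
  have hT0 : ∀ l, TX D ε χ l ≠ 0 := by
    rintro (x | b) h
    · apply hAne x
      have h1 : nf D ε x = 0 := h
      change dot (nf D ε x) χ = 0
      rw [h1]
      unfold dot
      simp
    · apply hχ1
      have h1 := congrFun h 1
      cases b
      · have h2 : -χ 1 = 0 := h1
        omega
      · exact h1
  let cΛ : X ⊕ Bool → X ⊕ Bool := Sum.map (fun x => c • x) Bool.not
  have hcΛ : Function.Involutive cΛ := by
    rintro (x | b)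
    · exact congrArg Sum.inl (hcc x)
    · exact congrArg Sum.inr (Bool.not_not b)
  have hTodd : ∀ l, TX D ε χ (cΛ l) = -TX D ε χ l := by
    rintro (x | b)
    · exact hnfc x
    · cases b
      · exact (neg_neg χ).symm
      · rfl
  let b : {x : X // s x = 1} ⊕ Fin 2 → Option (X ⊕ Bool) :=
    Sum.elim (fun x => some (Sum.inl x.1)) fun _ => some (Sum.inr false)
  have hbpos : Q ({x : X // s x = 1} ⊕ Fin 2) fun k => ext0 (TX D ε χ) (b k) := by
    have h1 := hweil s hs hsemi hresp 1 (Or.inl rfl) (fun g => by
      have := hFU g
      rw [mul_one]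
      exact this)
    refine hQ.reindex _ _ (Equiv.refl _) _ _ ?_ h1
    rintro (x | i)
    · rfl
    · change -χ = -1 • χ
      rw [neg_one_smul]
  have hs' : IsSign c fun x => -s x :=
    ⟨fun x => by rcases hsv x with h | h <;> rw [h] <;> norm_num, fun x => by rw [hs.odd]⟩
  have hsemi' : Semi G fun x => -s x := by
    intro g
    rcases hsemi g with h | h
    · left; intro x; change -s (g • x) = -s x; rw [h]
    · right; intro x; change -s (g • x) = -(-s x); rw [h]
  have hbneg : Q ({x : X // s x = 1} ⊕ Fin 2) fun k => -ext0 (TX D ε χ) (b k) := by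
    have h1 := hweil (fun x => -s x) hs' hsemi' (fun x y h => by
      change -s x = -s y
      rw [hresp x y h]) (-1) (Or.inr rfl) (fun g => by
      have e1 := hneg g
      rw [hFU g] at e1
      have e2 : (∑ x, if -s x = 1 then nf D ε x g else 0) =
          ∑ x, if s x = -1 then nf D ε x g else 0 := by
        refine Finset.sum_congr rfl fun x _ => ?_
        by_cases h : s x = -1
        · rw [if_pos h, if_pos (by rw [h]; norm_num)]
        · rw [if_neg h, if_neg (fun h' => h (by omega))]
      rw [e2, e1]
      ring)
    let e : {x : X // -s x = 1} ≃ {x : X // s x = 1} :=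
      { toFun := fun x => ⟨c • x.1, by rw [hs.odd]; exact x.2⟩
        invFun := fun x => ⟨c • x.1, by rw [hs.odd, neg_neg]; exact x.2⟩
        left_inv := fun x => Subtype.ext (hcc x.1)
        right_inv := fun x => Subtype.ext (hcc x.1) }
    refine hQ.reindex _ _ (Equiv.sumCongr e (Equiv.refl _)) _ _ ?_ h1
    rintro (x | i)
    · change -nf D ε (c • x.1) = nf D ε x.1
      rw [hnfc, neg_neg]
    · change - -χ = -(-1 : ℤ) • χ
      rw [neg_neg, neg_neg, one_smul]
  have hbcard : Nat.card ({x : X // s x = 1} ⊕ Fin 2) = 6 := by
    rw [Nat.card_eq_fintype_card, Fintype.card_sum, Fintype.card_fin, Fintype.card_subtype]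
    change O.card + 2 = 6
    rw [hOcard]
  have hb1 : ∀ x, cnt b (Sum.inl x) - cnt b (Sum.inl (c • x)) = s x := by
    have h1 : ∀ x, cnt b (Sum.inl x) = if s x = 1 then 1 else 0 := by
      intro x
      unfold cnt
      split_ifs with h
      · have : Nat.card {k // b k = some (Sum.inl x)} = 1 := by
          rw [Nat.card_eq_one_iff_unique]
          refine ⟨⟨?_⟩, ⟨⟨Sum.inl ⟨x, h⟩, rfl⟩⟩⟩
          rintro ⟨k, hk⟩ ⟨k', hk'⟩
          rcases k with y | i
          · rcases k' with y' | i'
            · apply Subtype.ext
              have e1 : some (Sum.inl y.1) = some (Sum.inl x : X ⊕ Bool) := hk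
              have e2 : some (Sum.inl y'.1) = some (Sum.inl x : X ⊕ Bool) := hk'
              have e3 : y.1 = x := Sum.inl_injective (Option.some_injective _ e1)
              have e4 : y'.1 = x := Sum.inl_injective (Option.some_injective _ e2)
              exact congrArg Sum.inl (Subtype.ext (e3.trans e4.symm))
            · have e2 : some (Sum.inr false) = some (Sum.inl x : X ⊕ Bool) := hk'
              simp at e2
          · have e2 : some (Sum.inr false) = some (Sum.inl x : X ⊕ Bool) := hk
            simp at e2
        rw [this]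
        rfl
      · have : IsEmpty {k // b k = some (Sum.inl x)} := by
          refine ⟨?_⟩
          rintro ⟨k, hk⟩
          rcases k with y | i
          · have e1 : some (Sum.inl y.1) = some (Sum.inl x : X ⊕ Bool) := hk
            have e3 : y.1 = x := Sum.inl_injective (Option.some_injective _ e1)
            exact h (e3 ▸ y.2)
          · have e2 : some (Sum.inr false) = some (Sum.inl x : X ⊕ Bool) := hk
            simp at e2
        rw [Nat.card_of_isEmpty]
        rfl
    intro x
    rw [h1, h1, hs.odd]
    rcases hsv x with h | h <;> rw [h] <;> norm_num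
  have hbF : cnt b (Sum.inr false) = 2 := by
    unfold cnt
    have e : {k // b k = some (Sum.inr false)} ≃ Fin 2 :=
      { toFun := fun k => match k with
          | ⟨Sum.inr i, _⟩ => i
          | ⟨Sum.inl _, h⟩ => 0
        invFun := fun i => ⟨Sum.inr i, rfl⟩
        left_inv := by
          rintro ⟨k, hk⟩
          rcases k with y | i
          · exfalso
            have e2 : some (Sum.inl y.1) = some (Sum.inr false : X ⊕ Bool) := hk
            simp at e2
          · rfl
        right_inv := fun i => rfl }
    rw [Nat.card_congr e]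
    simp
  have hbT : cnt b (Sum.inr true) = 0 := by
    unfold cnt
    have : IsEmpty {k // b k = some (Sum.inr true)} := by
      refine ⟨?_⟩
      rintro ⟨k, hk⟩
      rcases k with y | i
      · have e2 : some (Sum.inl y.1) = some (Sum.inr true : X ⊕ Bool) := hk
        simp at e2
      · have e2 : some (Sum.inr false) = some (Sum.inr true : X ⊕ Bool) := hk
        simp at e2
    rw [Nat.card_of_isEmpty]
    rfl
  refine fam_rank_one cΛ (TX D ε χ) hTinj hT0 hTodd hcΛ hQ ?_ hcancel0 b
    (by rw [hbcard]; decide) hbpos hbneg ?_
  · rintro (x | b')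
    · exact hcancel x
    · cases b'
      · exact pairCancel_neg hQ hcancelχ
      · exact hcancelχ
  · intro a ha hrel
    have ha1 : ∀ x, a (Sum.inl (c • x)) = -a (Sum.inl x) := fun x => ha (Sum.inl x)
    have ha2 : a (Sum.inr false) = -a (Sum.inr true) := ha (Sum.inr true)
    set n := a (Sum.inr true) with hn
    have hrel' : ∀ g, ∑ x, a (Sum.inl x) * nf D ε x g = -(2 * n * χ g) := by
      intro g
      have h1 := hrel g
      rw [Fintype.sum_sum_type] at h1
      have h2 : ∑ b' : Bool, a (Sum.inr b') * TX D ε χ (Sum.inr b') g = 2 * n * χ g := by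
        rw [Fintype.sum_bool, ha2]
        change n * χ g + -n * (-χ) g = _
        rw [Pi.neg_apply]
        ring
      rw [h2] at h1
      have h3 : ∑ x, a (Sum.inl x) * TX D ε χ (Sum.inl x) g = ∑ x, a (Sum.inl x) * nf D ε x g :=
        rfl
      rw [h3] at h1
      linarith
    have hsrel : ∀ g, ∑ x, s x * nf D ε x g = 4 * χ g := by
      intro g
      have h1 : ∀ x, s x * nf D ε x g = (if s x = 1 then nf D ε x g else 0) -
          (if s x = -1 then nf D ε x g else 0) := by
        intro x
        rcases hsv x with h | h <;> rw [h] <;> norm_num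
      rw [Finset.sum_congr rfl fun x _ => h1 x, Finset.sum_sub_distrib, hneg]
      have h2 : (∑ x, if s x = 1 then nf D ε x g else 0) = 2 * χ g := hFU g
      have h3 : U g = 2 * χ g := hFU g
      rw [h2, h3]
      ring
    let a' : X → ℤ := fun x => 2 * a (Sum.inl x) + n * s x
    have ha'odd : ∀ x, a' (c • x) = -a' x := by
      intro x
      change 2 * a (Sum.inl (c • x)) + n * s (c • x) = -(2 * a (Sum.inl x) + n * s x)
      rw [ha1, hs.odd]
      ring
    have ha'rel : ∀ g, ∑ x, a' x * nf D ε x g = 0 := by
      intro g
      have h1 : ∀ x, a' x * nf D ε x g = 2 * (a (Sum.inl x) * nf D ε x g) +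
          n * (s x * nf D ε x g) := by
        intro x
        change (2 * a (Sum.inl x) + n * s x) * nf D ε x g = _
        ring
      rw [Finset.sum_congr rfl fun x _ => h1 x, Finset.sum_add_distrib, ← Finset.mul_sum,
        ← Finset.mul_sum, hrel', hsrel]
      ring
    have hstr := Pool.Agent.W495.TA.struct G X c hset D ε hε (by rw [hcard]; norm_num) a' ha'odd
      (fun x y h => by rw [hinj h]) ha'rel
    have ha'0 : a' = 0 := by
      rcases hstr with h | ⟨-, hsa⟩
      · exact h
      by_contra hne
      obtain ⟨x0, hx0⟩ : ∃ x0, a' x0 ≠ 0 := by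
        by_contra hcon
        push Not at hcon
        exact hne (funext hcon)
      have habs : ∀ x, a' x = a' x0 ∨ a' x = -a' x0 := by
        intro x
        obtain ⟨g, hg⟩ := hset.trans x0 x
        rcases hsa g with h | h
        · left; rw [← hg, h]
        · right; rw [← hg, h]
      -- elements with the two combinations of signs
      have hex2 : ∃ x y, s x = 1 ∧ s y = 1 ∧ a' x = a' x0 ∧ a' y = -a' x0 := by
        by_contra hcon
        push Not at hcon
        -- `a'` is proportional to `s`
        have hprop : ∃ v : ℤ, v ≠ 0 ∧ ∀ x, a' x = v * s x := by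
          by_cases hpos : ∃ x, s x = 1 ∧ a' x = a' x0
          · obtain ⟨x, hx, hxa⟩ := hpos
            refine ⟨a' x0, hx0, ?_⟩
            have h1 : ∀ y, s y = 1 → a' y = a' x0 := by
              intro y hy
              rcases habs y with h | h
              · exact h
              · exact absurd h (hcon x y hx hy hxa)
            intro y
            rcases hsv y with h | h
            · rw [h, mul_one, h1 y h]
            · have h2 := h1 (c • y) (by rw [hs.odd, h, neg_neg])
              rw [ha'odd] at h2
              rw [h]
              omega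
          · push Not at hpos
            refine ⟨-a' x0, neg_ne_zero.2 hx0, ?_⟩
            have h1 : ∀ y, s y = 1 → a' y = -a' x0 := by
              intro y hy
              rcases habs y with h | h
              · exact absurd h (hpos y hy)
              · exact h
            intro y
            rcases hsv y with h | h
            · rw [h, mul_one, h1 y h]
            · have h2 := h1 (c • y) (by rw [hs.odd, h, neg_neg])
              rw [ha'odd] at h2
              rw [h]
              omega
        obtain ⟨v, hv, hva⟩ := hprop
        have h1 := ha'rel 1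
        have h2 : ∑ x, a' x * nf D ε x 1 = v * (4 * χ 1) := by
          rw [← hsrel 1, Finset.mul_sum]
          refine Finset.sum_congr rfl fun x _ => ?_
          rw [hva]
          ring
        rw [h2] at h1
        rcases mul_eq_zero.1 h1 with h3 | h3
        · exact hv h3
        · omega
      obtain ⟨x, y, hx, hy, hxa, hya⟩ := hex2
      have hxy : x ≠ y := by
        rintro rfl
        rw [hxa] at hya
        omega
      obtain ⟨g, hg, hgs⟩ := htrans x y (by rw [hx, hy])
      have hga : ∀ z, a' (g • z) = -a' z := by
        rcases hsa g with h | h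
        · exfalso
          have := h x
          rw [hg, hxa, hya] at this
          omega
        · exact h
      -- the positive half is the union of two pairs
      let P : Finset X := O.filter fun z => a' z = a' x0
      let M : Finset X := O.filter fun z => ¬ a' z = a' x0
      have hPM : P.card + M.card = 4 := by
        rw [← hOcard]
        exact Finset.card_filter_add_card_filter_not _
      have hPM' : M = P.image fun z => g • z := by
        ext z
        simp only [P, M, Finset.mem_filter, Finset.mem_image, hO]
        constructor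
        · rintro ⟨h1, h2⟩
          refine ⟨g⁻¹ • z, ⟨?_, ?_⟩, smul_inv_smul g z⟩
          · rw [← hgs, smul_inv_smul]
            exact h1
          · have h3 := hga (g⁻¹ • z)
            rw [smul_inv_smul] at h3
            rcases habs z with h4 | h4
            · exact absurd h4 h2
            · omega
        · rintro ⟨w, ⟨h1, h2⟩, rfl⟩
          refine ⟨by rw [hgs]; exact h1, ?_⟩
          rw [hga, h2]
          omega
      have hPcard : P.card = 2 := by
        have h1 : M.card = P.card := by
          rw [hPM']
          exact Finset.card_image_of_injective _ (MulAction.injective g)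
        omega
      obtain ⟨y1, y2, hy12, hPy⟩ := Finset.card_eq_two.1 hPcard
      have hUsplit : ∀ g', U g' = ∑ z ∈ P, nf D ε z g' + ∑ z ∈ M, nf D ε z g' := by
        intro g'
        rw [hUO]
        exact (Finset.sum_filter_add_sum_filter_not O _ _).symm
      have hasum : ∀ g', ∑ z ∈ P, nf D ε z g' = ∑ z ∈ M, nf D ε z g' := by
        intro g'
        have h1 := ha'rel g'
        -- the sum over the positive half
        have h2 : ∑ z ∈ O, a' z * nf D ε z g' = 0 := by
          have h3 : ∑ z, a' z * nf D ε z g' = ∑ z ∈ O, a' z * nf D ε z g' +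
              ∑ z ∈ Finset.univ.filter (fun z => ¬ s z = 1), a' z * nf D ε z g' :=
            (Finset.sum_filter_add_sum_filter_not Finset.univ _ _).symm
          have h4 : ∑ z ∈ Finset.univ.filter (fun z => ¬ s z = 1), a' z * nf D ε z g' =
              ∑ z ∈ O, a' z * nf D ε z g' := by
            refine Finset.sum_bij (fun z _ => c • z) ?_ ?_ ?_ ?_
            · intro z hz
              rw [Finset.mem_filter] at hz
              rw [hO, hs.odd, (hsv z).resolve_left hz.2, neg_neg]
            · intro z _ z' _ h
              exact smul_left_cancel c h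
            · intro z hz
              refine ⟨c • z, ?_, hcc z⟩
              rw [Finset.mem_filter]
              refine ⟨Finset.mem_univ _, ?_⟩
              rw [hs.odd, (hO z).1 hz]
              norm_num
            · intro z _
              rw [ha'odd, hnfc, Pi.neg_apply]
              ring
          rw [h3, h4] at h1
          omega
        have h5 : ∑ z ∈ O, a' z * nf D ε z g' =
            a' x0 * (∑ z ∈ P, nf D ε z g' - ∑ z ∈ M, nf D ε z g') := by
          have h6 : ∑ z ∈ O, a' z * nf D ε z g' = ∑ z ∈ P, a' z * nf D ε z g' +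
              ∑ z ∈ M, a' z * nf D ε z g' :=
            (Finset.sum_filter_add_sum_filter_not O _ _).symm
          rw [h6, mul_sub, Finset.mul_sum, Finset.mul_sum, sub_eq_add_neg,
            ← Finset.sum_neg_distrib]
          congr 1
          · refine Finset.sum_congr rfl fun z hz => ?_
            rw [(Finset.mem_filter.1 hz).2]
          · refine Finset.sum_congr rfl fun z hz => ?_
            rw [(habs z).resolve_left (Finset.mem_filter.1 hz).2]
            ring
        rw [h5] at h2
        have h7 := (mul_eq_zero.1 h2).resolve_left hx0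
        omega
      apply hexc y1 y2 hy12
      funext g'
      have h1 := hUsplit g'
      rw [← hasum g', hFU g', hPy, Finset.sum_pair hy12] at h1
      rw [Pi.add_apply]
      omega
    have ha'x : ∀ x, 2 * a (Sum.inl x) = -(n * s x) := by
      intro x
      have : 2 * a (Sum.inl x) + n * s x = 0 := congrFun ha'0 x
      omega
    have heven : ∃ m : ℤ, n = -(2 * m) := by
      have h1 := ha'x x1
      rcases hsv x1 with h | h
      · rw [h, mul_one] at h1
        exact ⟨a (Sum.inl x1), by omega⟩
      · rw [h] at h1
        exact ⟨-a (Sum.inl x1), by omega⟩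
    obtain ⟨m, hm⟩ := heven
    refine ⟨m, ?_⟩
    rintro (x | b')
    · change a (Sum.inl x) = m * (cnt b (Sum.inl x) - cnt b (Sum.inl (c • x)))
      rw [hb1]
      have h1 := ha'x x
      rw [hm] at h1
      rcases hsv x with h | h <;> rw [h] at h1 ⊢ <;> omega
    · cases b'
      · change a (Sum.inr false) = m * (cnt b (Sum.inr false) - cnt b (Sum.inr true))
        rw [hbF, hbT, ha2, hm]
        ring
      · change a (Sum.inr true) = m * (cnt b (Sum.inr true) - cnt b (Sum.inr false))
        rw [hbF, hbT, ← hn, hm]
        ring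

end

end

end Pool.Agent.TH117.BL
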