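import Pool.Agent.TH117.BL.Gen

/-!
# Changing the signs
-/

set_option autoImplicit false
set_option linter.unusedSectionVars false
set_option linter.unusedVariables false

namespace Pool.Agent.TH117.BL

open Pool.Agent.W495.TA Pool.Agent.W495.TB Pool.Agent.W495.TC

noncomputable section

section

variable {G X : Type} [Group G] [Fintype G] [Fintype X] [MulAction G X] (c : G)

open Classical in
/-- The sum of the signs over the positive part. -/
def posSum (s ε : X → ℤ) : ℤ := ∑ x, if s x = 1 then ε x else 0

theorem posSum_parity {s ε : X → ℤ} (hε : ∀ x, ε x = 1 ∨ ε x = -1) :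
    ∃ k : ℤ, posSum s ε = Nat.card {x // s x = 1} + 2 * k := by
  classical
  have h1 : (Nat.card {x // s x = 1} : ℤ) = ∑ x, if s x = 1 then 1 else 0 := card_eq_sum _
  refine ⟨∑ x, if s x = 1 then (if ε x = 1 then 0 else -1) else 0, ?_⟩
  rw [h1, Finset.mul_sum, ← Finset.sum_add_distrib]
  unfold posSum
  refine Finset.sum_congr rfl fun x _ => ?_
  by_cases h : s x = 1
  · rw [if_pos h, if_pos h, if_pos h]
    rcases hε x with h2 | h2
    · rw [h2, if_pos rfl]
      norm_num
    · rw [h2, if_neg (by norm_num)]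
      norm_num
  · rw [if_neg h, if_neg h, if_neg h]
    norm_num

/-- The sum over a translate. -/
theorem posSum_smul {s ε : X → ℤ} (hs : IsPartSign G c s) (hodd : ∀ x, ε (c • x) = -ε x)
    (hc2 : c * c = 1) {x₀ : X} (hx₀ : s x₀ = 1) (g : G) :
    posSum s (fun x => ε (g • x)) = s (g • x₀) * posSum s ε := by
  classical
  have hcc : ∀ x : X, c • c • x = x := fun x => by rw [← mul_smul, hc2, one_smul]
  rcases hs.semi g with h | h
  · rw [h, hx₀, one_mul]
    unfold posSum
    refine Fintype.sum_equiv (MulAction.toPerm g) _ _ fun x => ?_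
    rw [MulAction.toPerm_apply, h]
  · rw [h, hx₀]
    unfold posSum
    rw [neg_one_mul, ← Finset.sum_neg_distrib]
    refine Fintype.sum_equiv ((MulAction.toPerm g).trans (MulAction.toPerm c)) _ _ fun x => ?_
    rw [Equiv.trans_apply, MulAction.toPerm_apply, MulAction.toPerm_apply, hs.odd, h, neg_neg, hodd]
    by_cases h1 : s x = 1
    · rw [if_pos h1, if_pos h1, neg_neg]
    · rw [if_neg h1, if_neg h1, neg_zero]

variable (hcomm : ∀ g, c * g = g * c) (hc2 : c * c = 1) (hne : ∀ x : X, c • x ≠ x)
  (D : Subgroup G)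

include hcomm hc2 hne

open Classical in
/-- One change. -/
theorem flip_step {ε : X → ℤ} (hε : IsSign c ε) {s : X → ℤ} (hs : IsPartSign G c s) {d0 : G}
    (hd0 : d0 ∈ D) (hneg : ∀ x, s (d0 • x) = -s x) (η : ℤ) (hη : η = 1 ∨ η = -1)
    (hF : 3 ≤ η * posSum s ε) :
    ∃ ε' : X → ℤ, IsSign c ε' ∧ (∀ x, nf D ε' x = nf D ε x) ∧
      (η * posSum s ε' = η * posSum s ε - 2 ∨ η * posSum s ε' = η * posSum s ε - 4) := by
  have hcc : ∀ x : X, c • c • x = x := fun x => by rw [← mul_smul, hc2, one_smul]
  have hcd : c • d0 • (1 : G) = d0 • c • (1 : G) := by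
    simp only [smul_eq_mul, mul_one]
    exact hcomm d0
  have hcd' : ∀ x : X, c • d0 • x = d0 • c • x := fun x => by
    rw [← mul_smul, hcomm, mul_smul]
  -- the point
  obtain ⟨x, hx1, hx2, hx3⟩ : ∃ x, s x = 1 ∧ ε x = η ∧ ε (d0 • x) = -η := by
    by_contra hcon
    push Not at hcon
    have h1 : posSum s ε = -∑ x, if s x = 1 then ε (d0 • x) else 0 := by
      unfold posSum
      rw [← Finset.sum_neg_distrib]
      refine (Fintype.sum_equiv ((MulAction.toPerm d0).trans (MulAction.toPerm c)) _ _
        fun x => ?_).symm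
      rw [Equiv.trans_apply, MulAction.toPerm_apply, MulAction.toPerm_apply, hs.odd, hneg, neg_neg,
        hε.odd]
      by_cases h1 : s x = 1
      · rw [if_pos h1, if_pos h1]
      · rw [if_neg h1, if_neg h1, neg_zero]
    have h2 : η * (2 * posSum s ε) ≤ 0 := by
      have h3 : 2 * posSum s ε = ∑ x, if s x = 1 then (ε x - ε (d0 • x)) else 0 := by
        rw [two_mul]
        nth_rewrite 2 [h1]
        unfold posSum
        rw [← sub_eq_add_neg, ← Finset.sum_sub_distrib]
        refine Finset.sum_congr rfl fun x _ => ?_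
        by_cases h1 : s x = 1
        · rw [if_pos h1, if_pos h1, if_pos h1]
        · rw [if_neg h1, if_neg h1, if_neg h1, sub_zero]
      rw [h3, Finset.mul_sum]
      refine Finset.sum_nonpos fun x _ => ?_
      by_cases h4 : s x = 1
      · rw [if_pos h4]
        have h5 := hcon x h4
        rcases hη with h | h <;> rcases hε.sign x with h6 | h6 <;>
          rcases hε.sign (d0 • x) with h7 | h7 <;> rw [h, h6, h7] at h5 ⊢ <;>
          first
          | exact absurd rfl (h5 rfl)
          | norm_num
      · rw [if_neg h4, mul_zero]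
    rw [mul_left_comm] at h2
    omega
  set y : X := d0 • x with hy
  have hsy : s y = -1 := by rw [hy, hneg, hx1]
  have hscx : s (c • x) = -1 := by rw [hs.odd, hx1]
  have hscy : s (c • y) = 1 := by rw [hs.odd, hsy, neg_neg]
  have hecy : ε (c • y) = η := by rw [hε.odd, hx3, neg_neg]
  have hecx : ε (c • x) = -η := by rw [hε.odd, hx2]
  have hη0 : η ≠ -η := by rcases hη with h | h <;> rw [h] <;> norm_num
  let P : Finset X := {x, y, c • x, c • y}
  have hP : ∀ z, z ∈ P ↔ z = x ∨ z = y ∨ z = c • x ∨ z = c • y := fun z => by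
    simp only [P, Finset.mem_insert, Finset.mem_singleton]
  have hPc : ∀ z, c • z ∈ P ↔ z ∈ P := by
    have h1 : ∀ z, z ∈ P → c • z ∈ P := by
      intro z hz
      rw [hP] at hz ⊢
      rcases hz with h | h | h | h
      · rw [h]; exact Or.inr (Or.inr (Or.inl rfl))
      · rw [h]; exact Or.inr (Or.inr (Or.inr rfl))
      · rw [h, hcc]; exact Or.inl rfl
      · rw [h, hcc]; exact Or.inr (Or.inl rfl)
    intro z
    refine ⟨fun h => ?_, h1 z⟩
    have h2 := h1 _ h
    rwa [hcc] at h2
  let ε' : X → ℤ := fun z => if z ∈ P then -ε z else ε z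
  have hxy : x ≠ y := by
    intro h
    rw [h] at hx1
    rw [hsy] at hx1
    norm_num at hx1
  have hxcx : x ≠ c • x := fun h => hne x h.symm
  have hycy : y ≠ c • y := fun h => hne y h.symm
  -- the sum over P
  have hsumP : ∀ f : X → ℤ, (∀ z ∈ P, True) → (y = c • x → ∑ z ∈ P, f z = f x + f (c • x)) ∧
      (y ≠ c • x → ∑ z ∈ P, f z = f x + f y + f (c • x) + f (c • y)) := by
    intro f _
    constructor
    · intro h
      have h1 : P = {x, c • x} := by
        ext z
        rw [hP, Finset.mem_insert, Finset.mem_singleton, h, hcc]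
        tauto
      rw [h1, Finset.sum_pair hxcx]
    · intro h
      have h3 : x ≠ c • y := by
        intro h'
        apply h
        rw [h', hcc]
      have h4 : c • x ≠ c • y := fun h' => hxy (smul_left_cancel c h')
      change ∑ z ∈ ({x, y, c • x, c • y} : Finset X), f z = _
      rw [Finset.sum_insert, Finset.sum_insert, Finset.sum_insert, Finset.sum_singleton]
      · ring
      · rw [Finset.mem_singleton]
        exact h4
      · simp only [Finset.mem_insert, Finset.mem_singleton, not_or]
        exact ⟨h, hycy⟩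
      · simp only [Finset.mem_insert, Finset.mem_singleton, not_or]
        exact ⟨hxy, hxcx, h3⟩
  have hdiff : ∀ z, ε' z = ε z - 2 * ∑ v ∈ P, if z = v then ε v else 0 := by
    intro z
    by_cases hz : z ∈ P
    · have h1 : ∑ v ∈ P, (if z = v then ε v else 0) = ε z := by
        rw [Finset.sum_ite_eq P z fun v => ε v, if_pos hz]
      have h2 : ε' z = -ε z := if_pos hz
      rw [h1, h2]
      ring
    · have h1 : ∑ v ∈ P, (if z = v then ε v else 0) = 0 := by
        rw [Finset.sum_ite_eq P z fun v => ε v, if_neg hz]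
      have h2 : ε' z = ε z := if_neg hz
      rw [h1, h2]
      ring
  refine ⟨ε', ⟨fun z => ?_, fun z => ?_⟩, fun z => ?_, ?_⟩
  · by_cases hz : z ∈ P
    · have h2 : ε' z = -ε z := if_pos hz
      rw [h2]
      rcases hε.sign z with h | h <;> rw [h] <;> norm_num
    · have h2 : ε' z = ε z := if_neg hz
      rw [h2]
      exact hε.sign z
  · by_cases hz : z ∈ P
    · have h2 : ε' z = -ε z := if_pos hz
      have h3 : ε' (c • z) = -ε (c • z) := if_pos ((hPc z).2 hz)
      rw [h2, h3, hε.odd]
    · have h2 : ε' z = ε z := if_neg hz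
      have h3 : ε' (c • z) = ε (c • z) := if_neg fun h => hz ((hPc z).1 h)
      rw [h2, h3, hε.odd]
  · funext g
    -- the number of elements of `D` mapping `g • z` to `v`
    let n : X → ℤ := fun v => ∑ d : G, if d ∈ D then (if d • g • z = v then 1 else 0) else 0
    have hn : ∀ v, n (d0 • v) = n v := by
      intro v
      refine (Fintype.sum_equiv (Equiv.mulLeft d0) _ _ fun d => ?_).symm
      have h1 : d0 * d ∈ D ↔ d ∈ D := ⟨fun h => by
        have := D.mul_mem (D.inv_mem hd0) h
        rwa [inv_mul_cancel_left] at this, fun h => D.mul_mem hd0 h⟩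
      have h2 : (d0 * d) • g • z = d0 • v ↔ d • g • z = v := by
        rw [mul_smul]
        exact (MulAction.injective d0).eq_iff
      change _ = (if d0 * d ∈ D then (if (d0 * d) • g • z = d0 • v then (1 : ℤ) else 0) else 0)
      simp only [h1, h2]
    have h1 : nf D ε' z g = nf D ε z g - 2 * ∑ v ∈ P, n v * ε v := by
      unfold nf
      have e1 : ∀ d : G, (if d ∈ D then ε' (d • g • z) else 0) =
          (if d ∈ D then ε (d • g • z) else 0) -
            2 * ∑ v ∈ P, (if d ∈ D then (if d • g • z = v then 1 else 0) else 0) * ε v := by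
        intro d
        by_cases hd : d ∈ D
        · simp only [if_pos hd]
          rw [hdiff]
          congr 2
          refine Finset.sum_congr rfl fun v _ => ?_
          split_ifs <;> simp
        · simp only [if_neg hd, zero_mul, Finset.sum_const_zero, mul_zero, sub_zero]
      rw [Finset.sum_congr rfl fun d _ => e1 d, Finset.sum_sub_distrib, ← Finset.mul_sum,
        Finset.sum_comm]
      congr 2
      refine Finset.sum_congr rfl fun v _ => ?_
      rw [← Finset.sum_mul]
    have hn1 : n y = n x := hn x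
    have hn2 : n (c • y) = n (c • x) := by
      rw [hy, hcd']
      exact hn _
    have h2 : ∑ v ∈ P, n v * ε v = 0 := by
      obtain ⟨k1, k2⟩ := hsumP (fun v => n v * ε v) fun _ _ => trivial
      rcases Classical.em (y = c • x) with h | h
      · rw [k1 h, ← h, hn1, hx2, hx3]
        ring
      · rw [k2 h, hn1, hn2, hx2, hx3, hecx, hecy]
        ring
    rw [h1, h2]
    ring
  · have h1 : posSum s ε' = posSum s ε - 2 * ∑ v ∈ P, if s v = 1 then ε v else 0 := by
      unfold posSum
      have e1 : ∀ z, (if s z = 1 then ε' z else 0) = (if s z = 1 then ε z else 0) -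
          2 * ∑ v ∈ P, if z = v then (if s v = 1 then ε v else 0) else 0 := by
        intro z
        rw [Finset.sum_ite_eq P z fun v => if s v = 1 then ε v else 0]
        by_cases hz : z ∈ P
        · have h2 : ε' z = -ε z := if_pos hz
          rw [if_pos hz, h2]
          by_cases h3 : s z = 1
          · simp only [if_pos h3]
            ring
          · simp only [if_neg h3]
            ring
        · have h2 : ε' z = ε z := if_neg hz
          rw [if_neg hz, h2]
          ring
      rw [Finset.sum_congr rfl fun z _ => e1 z, Finset.sum_sub_distrib, ← Finset.mul_sum,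
        Finset.sum_comm]
      congr 2
      refine Finset.sum_congr rfl fun v _ => ?_
      rw [Finset.sum_ite_eq' Finset.univ v fun _ => if s v = 1 then ε v else 0,
        if_pos (Finset.mem_univ _)]
    obtain ⟨k1, k2⟩ := hsumP (fun v => if s v = 1 then ε v else 0) fun _ _ => trivial
    have hηη : η * η = 1 := by rcases hη with h | h <;> rw [h] <;> norm_num
    rcases Classical.em (y = c • x) with h | h
    · left
      rw [h1, k1 h, if_pos hx1, if_neg (by rw [hscx]; norm_num), hx2, add_zero, mul_sub]
      linear_combination (-2) * hηη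
    · right
      rw [h1, k2 h, if_pos hx1, if_neg (by rw [hsy]; norm_num), if_neg (by rw [hscx]; norm_num),
        if_pos hscy, hx2, hecy, mul_sub]
      linear_combination (-4) * hηη

/-- The sum can be made small. -/
theorem exists_flip {ε : X → ℤ} (hε : IsSign c ε) {s : X → ℤ} (hs : IsPartSign G c s) {d0 : G}
    (hd0 : d0 ∈ D) (hneg : ∀ x, s (d0 • x) = -s x) :
    ∃ ε' : X → ℤ, IsSign c ε' ∧ (∀ x, nf D ε' x = nf D ε x) ∧
      -2 ≤ posSum s ε' ∧ posSum s ε' ≤ 2 := by
  have key : ∀ (n : ℕ) (ε₁ : X → ℤ), IsSign c ε₁ → (∀ x, nf D ε₁ x = nf D ε x) →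
      (posSum s ε₁).natAbs ≤ n → ∃ ε' : X → ℤ, IsSign c ε' ∧ (∀ x, nf D ε' x = nf D ε x) ∧
      -2 ≤ posSum s ε' ∧ posSum s ε' ≤ 2 := by
    intro n
    induction n with
    | zero =>
      intro ε₁ h1 h2 h3
      exact ⟨ε₁, h1, h2, by omega, by omega⟩
    | succ n ih =>
      intro ε₁ h1 h2 h3
      by_cases h4 : -2 ≤ posSum s ε₁ ∧ posSum s ε₁ ≤ 2
      · exact ⟨ε₁, h1, h2, h4.1, h4.2⟩
      · obtain ⟨η, hη, hF⟩ : ∃ η : ℤ, (η = 1 ∨ η = -1) ∧ 3 ≤ η * posSum s ε₁ := by
          by_cases h5 : 3 ≤ posSum s ε₁
          · exact ⟨1, Or.inl rfl, by rw [one_mul]; exact h5⟩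
          · exact ⟨-1, Or.inr rfl, by omega⟩
        obtain ⟨ε₂, k1, k2, k3⟩ := flip_step c hcomm hc2 hne D h1 hs hd0 hneg η hη hF
        refine ih ε₂ k1 (fun x => (k2 x).trans (h2 x)) ?_
        rcases hη with h | h <;> subst h <;> omega
  exact key _ ε hε (fun x => rfl) le_rfl

end

end

end Pool.Agent.TH117.BL
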