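import Pool.Agent.TH117.BL.Rel

/-!
# Families of functions whose relations are generated by elementary relations
-/

set_option autoImplicit false
set_option linter.unusedSectionVars false
set_option linter.unusedVariables false

namespace Pool.Agent.TH117.BL

open Pool.Agent.W495.TA Pool.Agent.W495.TC Pool.Agent.TH117.F5

noncomputable section

variable {G : Type} {Q : (κ : Type) → (κ → G → ℤ) → Prop} {R : Set (G → ℤ)}

/-- Integral combinations of the counting functions of good families. -/
def GenD (Q : (κ : Type) → (κ → G → ℤ) → Prop) (R : Set (G → ℤ)) (d : (G → ℤ) → ℤ) : Prop :=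
  ∃ (ι : Type) (_ : Fintype ι) (β : ι → Type) (b : ∀ i, β i → G → ℤ) (m : ι → ℤ),
    (∀ i, IsGood G Q R (β i) (b i)) ∧ ∀ f, d f = ∑ i, m i * dcnt (b i) f

theorem GenD.zero : GenD Q R 0 :=
  ⟨Empty, inferInstance, fun _ => Empty, fun i => i.elim, fun _ => 0, fun i => i.elim, fun f => by
    simp⟩

theorem GenD.neg {d : (G → ℤ) → ℤ} (h : GenD Q R d) : GenD Q R (-d) := by
  obtain ⟨ι, _, β, b, m, h1, h2⟩ := h
  refine ⟨ι, inferInstance, β, b, fun i => -m i, h1, fun f => ?_⟩
  rw [Pi.neg_apply, h2, ← Finset.sum_neg_distrib]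
  exact Finset.sum_congr rfl fun i _ => by ring

theorem GenD.add {d d' : (G → ℤ) → ℤ} (h : GenD Q R d) (h' : GenD Q R d') :
    GenD Q R (d + d') := by
  obtain ⟨ι, _, β, b, m, h1, h2⟩ := h
  obtain ⟨ι', _, β', b', m', h1', h2'⟩ := h'
  refine ⟨ι ⊕ ι', inferInstance, Sum.elim β β', fun i => match i with
    | Sum.inl i => b i
    | Sum.inr i => b' i, Sum.elim m m', ?_, fun f => ?_⟩
  · rintro (i | i)
    · exact h1 i
    · exact h1' i
  · rw [Pi.add_apply, h2, h2', Fintype.sum_sum_type]
    rfl

theorem GenD.of_good {β : Type} {b : β → G → ℤ} (h : IsGood G Q R β b) : GenD Q R (dcnt b) :=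
  ⟨Unit, inferInstance, fun _ => β, fun _ => b, fun _ => 1, fun _ => h, fun f => by simp⟩

theorem of_genD (hQ : Closed G Q) (hR : ∀ f ∈ R, PairCancel G Q f) {κ : Type} [Finite κ]
    (t : κ → G → ℤ) (ht : ∀ k, t k ∈ R) (heven : Even (Nat.card κ)) (h : GenD Q R (dcnt t)) :
    Q κ t := by
  obtain ⟨ι, _, β, b, m, h1, h2⟩ := h
  exact Pool.Agent.W493.TC.group G Q hQ R hR ι β b h1 m κ t ht heven h2

theorem card_eq_sum {κ : Type} [Fintype κ] (P : κ → Prop) [DecidablePred P] :
    (Nat.card {k // P k} : ℤ) = ∑ k, if P k then 1 else 0 := by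
  rw [Nat.card_eq_fintype_card, Fintype.card_subtype, Finset.sum_boole]

section

variable {Λ : Type} [Fintype Λ] (T : Λ → G → ℤ)

open Classical in
/-- The counting function of a combination of labels. -/
def DD (e : Λ → ℤ) (f : G → ℤ) : ℤ :=
  ∑ l, e l * ((if T l = f then 1 else 0) - (if T l = -f then 1 else 0))

theorem DD_zero : DD T 0 = 0 := by
  funext f
  unfold DD
  simp

theorem DD_add (e e' : Λ → ℤ) : DD T (e + e') = DD T e + DD T e' := by
  funext f
  unfold DD
  rw [Pi.add_apply, ← Finset.sum_add_distrib]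
  exact Finset.sum_congr rfl fun l _ => by rw [Pi.add_apply]; ring

theorem DD_neg (e : Λ → ℤ) : DD T (-e) = -DD T e := by
  funext f
  unfold DD
  rw [Pi.neg_apply, ← Finset.sum_neg_distrib]
  exact Finset.sum_congr rfl fun l _ => by rw [Pi.neg_apply]; ring

theorem dcnt_eq_DD {κ : Type} [Fintype κ] (w : κ → Option Λ) :
    dcnt (fun k => ext0 T (w k)) = DD T (cnt w) := by
  classical
  funext f
  by_cases hf : f = 0
  · subst hf
    unfold dcnt DD
    simp
  have key : ∀ f : G → ℤ, f ≠ 0 → (Nat.card {k // ext0 T (w k) = f} : ℤ) =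
      ∑ l, cnt w l * (if T l = f then 1 else 0) := by
    intro f hf
    rw [card_eq_sum]
    have h1 : ∀ k, (if ext0 T (w k) = f then (1 : ℤ) else 0) =
        ∑ l, (if w k = some l then 1 else 0) * (if T l = f then 1 else 0) := by
      intro k
      rcases hk : w k with _ | l0
      · have h2 : ext0 T (none : Option Λ) ≠ f := fun h => hf h.symm
        rw [if_neg h2]
        exact (Finset.sum_eq_zero fun l _ => by
          rw [if_neg (by simp), zero_mul]).symm
      · rw [Finset.sum_eq_single l0]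
        · rw [if_pos rfl, one_mul]
          rfl
        · intro l _ hl
          rw [if_neg (fun h => hl (Option.some_injective _ h).symm), zero_mul]
        · intro h
          exact absurd (Finset.mem_univ _) h
    rw [Finset.sum_congr rfl fun k _ => h1 k, Finset.sum_comm]
    refine Finset.sum_congr rfl fun l _ => ?_
    rw [← Finset.sum_mul]
    congr 1
    unfold cnt
    rw [card_eq_sum]
  unfold dcnt DD
  rw [key f hf, key (-f) (neg_ne_zero.2 hf), ← Finset.sum_sub_distrib]
  exact Finset.sum_congr rfl fun l _ => by ring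

/-- The family belonging to exponents. -/
abbrev FF (e : Λ → ℕ) : Type := (Σ l, Fin (e l)) ⊕ Fin ((∑ l, e l) % 2)

/-- Its labels. -/
def fl (e : Λ → ℕ) : FF e → Option Λ := Sum.elim (fun k => some k.1) fun _ => none

theorem cnt_fl (e : Λ → ℕ) : cnt (fl e) = fun l => (e l : ℤ) := by
  classical
  funext l
  unfold cnt
  have h1 : {k // fl e k = some l} ≃ Fin (e l) :=
    { toFun := fun k => match k with
        | ⟨Sum.inl ⟨l', i⟩, h⟩ => Fin.cast (by
            have h2 : l' = l := Option.some_injective _ h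
            rw [h2]) i
        | ⟨Sum.inr _, h⟩ => absurd h (by simp [fl])
      invFun := fun i => ⟨Sum.inl ⟨l, i⟩, rfl⟩
      left_inv := by
        rintro ⟨⟨l', i⟩ | i, h⟩
        · have h2 : l' = l := Option.some_injective _ h
          subst h2
          rfl
        · exact absurd h (by simp [fl])
      right_inv := fun i => rfl }
  rw [Nat.card_congr h1, Nat.card_eq_fintype_card, Fintype.card_fin]

theorem card_FF (e : Λ → ℕ) : Fintype.card (FF e) = (∑ l, e l) + (∑ l, e l) % 2 := by
  rw [Fintype.card_sum, Fintype.card_sigma, Fintype.card_fin]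
  congr 1
  exact Finset.sum_congr rfl fun l _ => Fintype.card_fin _

theorem even_FF (e : Λ → ℕ) : Even (Fintype.card (FF e)) := by
  rw [card_FF]
  have h := Nat.div_add_mod (∑ l, e l) 2
  rcases Nat.mod_two_eq_zero_or_one (∑ l, e l) with h1 | h1
  · rw [h1, add_zero]
    exact Nat.even_iff.2 h1
  · rw [h1]
    exact (Nat.odd_iff.2 h1).add_one

/-- Relations with at most two terms. -/
theorem DD_small (e : Λ → ℕ) (h2 : ∑ l, e l ≤ 2) (hsum : ∀ g, ∑ l, (e l : ℤ) * T l g = 0) :
    DD T (fun l => (e l : ℤ)) = 0 := by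
  classical
  have h1 : DD T (fun l => (e l : ℤ)) = dcnt fun k => ext0 T (fl e k) := by
    rw [dcnt_eq_DD, cnt_fl]
  rw [h1]
  have hs : ∀ g, ∑ k, ext0 T (fl e k) g = 0 := by
    intro g
    rw [sum_eq_cnt, cnt_fl]
    exact hsum g
  have hc : Fintype.card (FF e) = 0 ∨ Fintype.card (FF e) = 2 := by
    rw [card_FF]
    omega
  rcases hc with hc | hc
  · have h3 : IsEmpty (FF e) := Fintype.card_eq_zero_iff.1 hc
    funext f
    unfold dcnt
    have e1 : IsEmpty {k : FF e // ext0 T (fl e k) = f} := ⟨fun k => h3.false k.1⟩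
    have e2 : IsEmpty {k : FF e // ext0 T (fl e k) = -f} := ⟨fun k => h3.false k.1⟩
    rw [Nat.card_of_isEmpty, Nat.card_of_isEmpty]
    simp
  · let E : FF e ≃ Fin 2 := Fintype.equivFinOfCardEq hc
    have h4 : ext0 T (fl e (E.symm 1)) = -ext0 T (fl e (E.symm 0)) := by
      funext g
      have h5 := hs g
      rw [← Equiv.sum_comp E.symm, Fin.sum_univ_two] at h5
      rw [Pi.neg_apply]
      linarith
    funext f
    unfold dcnt
    rw [card_eq_sum, card_eq_sum, ← Equiv.sum_comp E.symm, ← Equiv.sum_comp E.symm,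
      Fin.sum_univ_two, Fin.sum_univ_two, Pi.zero_apply]
    simp only [h4, neg_eq_iff_eq_neg, neg_neg]
    ring

end

section

variable {Λ : Type} [Fintype Λ] (cc : Λ → Λ) (T : Λ → G → ℤ)

/-- A condition on labels such that all families with labels of this kind have the property. -/
structure IsGoodP (Q : (κ : Type) → (κ → G → ℤ) → Prop) (P : Λ → Prop) : Prop where
  conj : ∀ l, P l → P (cc l)
  fam : ∀ (κ : Type) [Fintype κ] (w : κ → Option Λ), (∀ k l, w k = some l → P l) →
    (∀ g, ∑ k, ext0 T (w k) g = 0) → Even (Fintype.card κ) → Q κ fun k => ext0 T (w k)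

variable (hodd : ∀ l, T (cc l) = -T l)

include hodd in
theorem genD_of_good {P : Λ → Prop} (hP : IsGoodP cc T Q P) (e : Λ → ℕ)
    (he : ∀ l, e l ≠ 0 → P l) (hsum : ∀ g, ∑ l, (e l : ℤ) * T l g = 0) :
    GenD Q (Set.range (ext0 T)) (DD T fun l => (e l : ℤ)) := by
  classical
  have h1 : DD T (fun l => (e l : ℤ)) = dcnt fun k => ext0 T (fl e k) := by
    rw [dcnt_eq_DD, cnt_fl]
  rw [h1]
  have hs : ∀ g, ∑ k, ext0 T (fl e k) g = 0 := by
    intro g
    rw [sum_eq_cnt, cnt_fl]
    exact hsum g
  have hP1 : ∀ k l, fl e k = some l → P l := by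
    rintro (⟨l', i⟩ | k) l h
    · have h2 : l' = l := Option.some_injective _ h
      subst h2
      refine he l' fun h3 => ?_
      rw [h3] at i
      exact i.elim0
    · exact absurd h (by simp [fl])
  have hneg : ∀ k, -ext0 T (fl e k) = ext0 T ((fl e k).map cc) := by
    intro k
    rcases fl e k with _ | l
    · exact neg_zero
    · exact (hodd l).symm
  refine GenD.of_good ⟨inferInstance, ?_, fun k => ⟨_, rfl⟩, ?_, ?_⟩
  · rw [Nat.card_eq_fintype_card]
    exact even_FF e
  · exact hP.fam _ _ hP1 hs (even_FF e)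
  · have h3 : (fun k => -ext0 T (fl e k)) = fun k => ext0 T ((fl e k).map cc) := funext hneg
    rw [h3]
    refine hP.fam _ (fun k => (fl e k).map cc) ?_ (fun g => ?_) (even_FF e)
    · intro k l h
      rw [Option.map_eq_some_iff] at h
      obtain ⟨l', h4, h5⟩ := h
      rw [← h5]
      exact hP.conj _ (hP1 k l' h4)
    · rw [← neg_zero, ← hs g, ← Finset.sum_neg_distrib]
      exact Finset.sum_congr rfl fun k _ => by rw [← hneg, Pi.neg_apply]

end

end

end Pool.Agent.TH117.BL
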