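import Pool.Agent.TH117.F5.Fields

/-!
# The supersingular elliptic curve with complex multiplication by the field of the square root
# of `-p`
-/

set_option autoImplicit false
set_option linter.unusedSectionVars false
set_option linter.unusedVariables false

namespace Pool.Agent.TH117.BL

open NumberField Pool.Agent.H204R3.CM Pool.Agent.W547.KB Pool.Agent.W547.LD Module
  Pool.Agent.W495.TA Pool.Agent.W495.TB Pool.Agent.W495.TC Pool.Agent.TH117.F5
open scoped TensorProduct

noncomputable section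

section field

variable (p : ℕ) [hp : Fact p.Prime]

/-- A square root of `-p`. -/
def th : ℂ := (Real.sqrt p : ℂ) * Complex.I

theorem th_sq : th p ^ 2 = -(p : ℂ) := by
  unfold th
  rw [mul_pow, Complex.I_sq, ← Complex.ofReal_pow, Real.sq_sqrt (Nat.cast_nonneg p)]
  push_cast
  ring

theorem isIntegral_th : IsIntegral ℚ (th p) := by
  refine ⟨Polynomial.X ^ 2 + Polynomial.C (p : ℚ), ?_, ?_⟩
  · exact Polynomial.monic_X_pow_add_C _ two_ne_zero
  · rw [← Polynomial.aeval_def]
    simp only [map_add, map_pow, Polynomial.aeval_X, map_natCast]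
    rw [th_sq]
    ring

/-- The field generated by it. -/
abbrev Kf : Type := IntermediateField.adjoin ℚ {th p}

instance : FiniteDimensional ℚ (Kf p) :=
  IntermediateField.adjoin.finiteDimensional (isIntegral_th p)

instance : NumberField (Kf p) where
  to_charZero := inferInstance
  to_finiteDimensional := inferInstance

/-- The generator. -/
def gen : Kf p := ⟨th p, IntermediateField.mem_adjoin_simple_self ℚ (th p)⟩

theorem gen_sq : gen p ^ 2 = -(p : Kf p) := by
  apply Subtype.ext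
  change th p ^ 2 = -((p : Kf p) : ℂ)
  rw [th_sq]
  simp

theorem map_gen_sq {R : Type*} [Ring R] (φ : Kf p →+* R) : φ (gen p) ^ 2 = -(p : R) := by
  rw [← map_pow, gen_sq, map_neg, map_natCast]

theorem im_ne (φ : Kf p →+* ℂ) : (φ (gen p)).im ≠ 0 := by
  intro h
  have h1 := map_gen_sq p φ
  have h2 := congrArg Complex.re h1
  rw [sq, Complex.mul_re, h, Complex.neg_re, Complex.natCast_re] at h2
  have hp0 : (0 : ℝ) < p := by exact_mod_cast hp.out.pos
  nlinarith [mul_self_nonneg (φ (gen p)).re]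

instance : IsTotallyComplex (Kf p) where
  isComplex v := by
    rw [InfinitePlace.isComplex_iff]
    intro h
    have h1 : ComplexEmbedding.conjugate v.embedding (gen p) = v.embedding (gen p) :=
      RingHom.congr_fun h (gen p)
    rw [ComplexEmbedding.conjugate_coe_eq] at h1
    have h2 := congrArg Complex.im h1
    rw [Complex.conj_im] at h2
    exact im_ne p v.embedding (by linarith)

theorem finrank_Kf : finrank ℚ (Kf p) = 2 := by
  rw [IntermediateField.adjoin.finrank (isIntegral_th p)]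
  apply le_antisymm
  · have h1 : minpoly ℚ (th p) ∣ Polynomial.X ^ 2 + Polynomial.C (p : ℚ) := by
      apply minpoly.dvd
      simp only [map_add, map_pow, Polynomial.aeval_X, map_natCast]
      rw [th_sq]
      ring
    have h2 := Polynomial.natDegree_le_of_dvd h1
      (Polynomial.monic_X_pow_add_C (p : ℚ) two_ne_zero).ne_zero
    rwa [Polynomial.natDegree_X_pow_add_C] at h2
  · have h1 := minpoly.natDegree_pos (isIntegral_th p)
    by_contra hcon
    have h2 : (minpoly ℚ (th p)).natDegree = 1 := by omega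
    rw [minpoly.natDegree_eq_one_iff] at h2
    obtain ⟨r, hr⟩ := h2
    have h3 := th_sq p
    rw [← hr] at h3
    have h4 : (r : ℂ) ^ 2 = -(p : ℂ) := h3
    have h5 : ((r ^ 2 : ℚ) : ℂ) = ((-(p : ℚ) : ℚ) : ℂ) := by
      push_cast
      exact h4
    have h6 : r ^ 2 = -(p : ℚ) := by exact_mod_cast h5
    have hp0 : (0 : ℚ) < p := by exact_mod_cast hp.out.pos
    nlinarith [sq_nonneg r]

instance : Algebra.IsQuadraticExtension ℚ (Kf p) where
  finrank_eq_two' := finrank_Kf p

instance : IsCMField (Kf p) := IsCMField.ofCMExtension ℚ (Kf p)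

/-- The CM type. -/
def kp : CMPair where
  E := Kf p
  Φ := {φ | 0 < (φ (gen p)).im}
  isCMType := by
    intro φ
    have h1 := im_ne p φ
    change 0 < (φ (gen p)).im ↔ ¬ (0 < (ComplexEmbedding.conjugate φ (gen p)).im)
    rw [ComplexEmbedding.conjugate_coe_eq, Complex.conj_im]
    constructor
    · intro h
      linarith
    · intro h
      rcases lt_or_gt_of_ne h1 with h2 | h2
      · exact absurd (by linarith) h
      · exact h2

theorem finrank_kp : finrank ℚ (kp p).E = 2 := finrank_Kf p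

end field

section padic

variable (p : ℕ) [hp : Fact p.Prime]

/-- The square root of `-p` is not in `ℚ_p`. -/
theorem exists_move (x : PadicAlgCl p) (hx : x ^ 2 = -(p : PadicAlgCl p)) :
    ∃ τ : PadicAlgCl p ≃ₐ[ℚ_[p]] PadicAlgCl p, τ x = -x := by
  have hgal : IsGalois ℚ_[p] (PadicAlgCl p) := inferInstance
  have h0 : ∃ τ : PadicAlgCl p ≃ₐ[ℚ_[p]] PadicAlgCl p, τ x ≠ x := by
    by_contra hcon
    push Not at hcon
    have h1 : x ∈ (⊥ : IntermediateField ℚ_[p] (PadicAlgCl p)) :=
      (InfiniteGalois.mem_bot_iff_fixed x).2 hcon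
    rw [IntermediateField.mem_bot] at h1
    obtain ⟨y, hy⟩ := h1
    have h2 : algebraMap ℚ_[p] (PadicAlgCl p) (y ^ 2) = algebraMap ℚ_[p] (PadicAlgCl p)
        (-(p : ℚ_[p])) := by
      rw [map_pow, hy, hx, map_neg, map_natCast]
    have h3 : y ^ 2 = -(p : ℚ_[p]) := (algebraMap ℚ_[p] (PadicAlgCl p)).injective h2
    have hp0 : (p : ℚ_[p]) ≠ 0 := Nat.cast_ne_zero.2 hp.out.ne_zero
    have hy0 : y ≠ 0 := by
      rintro rfl
      rw [zero_pow two_ne_zero] at h3
      exact hp0 (neg_eq_zero.1 h3.symm)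
    have h4 : ‖y‖ ^ 2 = ‖(p : ℚ_[p])‖ := by rw [← norm_pow, h3, norm_neg]
    rw [Padic.norm_eq_zpow_neg_valuation hy0, Padic.norm_p, ← zpow_natCast, ← zpow_mul,
      ← zpow_neg_one] at h4
    have hp1 : (1 : ℝ) < p := by exact_mod_cast hp.out.one_lt
    have h5 := zpow_right_injective₀ (by linarith) hp1.ne' h4
    push_cast at h5
    omega
  obtain ⟨τ, hτ⟩ := h0
  refine ⟨τ, ?_⟩
  have h1 : (τ x) ^ 2 = x ^ 2 := by
    rw [← map_pow, hx, map_neg, map_natCast]
  rcases sq_eq_sq_iff_eq_or_eq_neg.1 h1 with h | h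
  · exact absurd h hτ
  · exact h

end padic

section galois

variable {p : ℕ} [hp : Fact p.Prime] {ν : PadicAlgCl p ≃+* ℂ}
  {L : Type} [Field L] [NumberField L] [IsCMField L] [IsGalois ℚ L] {j : L →+* ℂ}

theorem exists_aut (ψ : L →+* ℂ) : ∃ σ : L ≃ₐ[ℚ] L, ∀ x, j (σ x) = ψ x := by
  have h : Function.Bijective (fun σ : L ≃ₐ[ℚ] L => j.comp (σ : L →+* L)) := by
    rw [Fintype.bijective_iff_injective_and_card]
    refine ⟨?_, ?_⟩
    · intro σ τ h
      ext1 x
      exact j.injective (RingHom.congr_fun h x)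
    · rw [Embeddings.card, ← Nat.card_eq_fintype_card, IsGalois.card_aut_eq_finrank]
  obtain ⟨σ, hσ⟩ := h.2 ψ
  exact ⟨σ, fun x => RingHom.congr_fun hσ x⟩

/-- An element of the decomposition group which moves a square root of `-p`. -/
theorem exists_dec (t : L) (ht : t ^ 2 = -(p : L)) : ∃ d ∈ Dec p ν j, d t = -t := by
  obtain ⟨τ, hτ⟩ := exists_move p (ν.symm (j t)) (by
    rw [← map_pow, ← map_pow, ht, map_neg, map_neg, map_natCast, map_natCast])
  obtain ⟨σ, hσ⟩ := exists_aut (j := j)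
    ((ν : PadicAlgCl p →+* ℂ).comp ((τ : PadicAlgCl p →+* PadicAlgCl p).comp
      ((ν.symm : ℂ →+* PadicAlgCl p).comp j)))
  have hσ' : ∀ x, j (σ x) = ν (τ (ν.symm (j x))) := fun x => hσ x
  refine ⟨σ, ⟨τ, hσ'⟩, ?_⟩
  apply j.injective
  rw [hσ', hτ, map_neg, map_neg, ν.apply_symm_apply]

/-- The functions are zero. -/
theorem nn_kp (φ : (kp p).E →+* L) : nn p ν j (kp p) φ = 0 := by
  classical
  have hsq : ∀ φ : (kp p).E →+* L, (φ (gen p)) ^ 2 = -(p : L) := fun φ => map_gen_sq p φ
  obtain ⟨d0, hd0, hd0'⟩ := exists_dec (ν := ν) (j := j) (φ (gen p)) (hsq φ)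
  have hpm : ∀ g : L ≃ₐ[ℚ] L, g (φ (gen p)) = φ (gen p) ∨ g (φ (gen p)) = -φ (gen p) := by
    intro g
    have h1 : (g (φ (gen p))) ^ 2 = (φ (gen p)) ^ 2 := by
      rw [← map_pow, hsq, map_neg, map_natCast]
    exact sq_eq_sq_iff_eq_or_eq_neg.1 h1
  have heps : ∀ ψ ψ' : (kp p).E →+* L, ψ' (gen p) = -ψ (gen p) →
      eps j (kp p) ψ' = -eps j (kp p) ψ := by
    intro ψ ψ' h
    have e1 : eps j (kp p) ψ = if 0 < (j (ψ (gen p))).im then 1 else -1 := rfl
    have e2 : eps j (kp p) ψ' = if 0 < (j (ψ' (gen p))).im then 1 else -1 := rfl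
    have h0 : (j (ψ (gen p))).im ≠ 0 := im_ne p (j.comp ψ)
    rw [e1, e2, h, map_neg, Complex.neg_im]
    rcases lt_or_gt_of_ne h0 with h1 | h1
    · rw [if_pos (by linarith), if_neg (by linarith), neg_neg]
    · rw [if_neg (by linarith), if_pos h1]
  funext g
  rw [Pi.zero_apply]
  have key : nn p ν j (kp p) φ g = -nn p ν j (kp p) φ g := by
    conv_lhs => unfold nn nf
    conv_rhs => unfold nn nf
    rw [← Finset.sum_neg_distrib,
      ← Equiv.sum_comp (Equiv.mulRight d0) (fun d : L ≃ₐ[ℚ] L =>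
        if d ∈ Dec p ν j then eps j (kp p) (d • g • φ) else 0)]
    refine Finset.sum_congr rfl fun d _ => ?_
    have h2 : d * d0 ∈ Dec p ν j ↔ d ∈ Dec p ν j := (Dec p ν j).mul_mem_cancel_right hd0
    change (if d * d0 ∈ Dec p ν j then eps j (kp p) ((d * d0) • g • φ) else 0) = _
    by_cases hd : d ∈ Dec p ν j
    · rw [if_pos (h2.2 hd), if_pos hd]
      refine heps _ _ ?_
      change d (d0 (g (φ (gen p)))) = -d (g (φ (gen p)))
      rcases hpm g with h | h
      · rw [h, hd0', map_neg]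
      · rw [h, map_neg, hd0', neg_neg, map_neg, neg_neg]
    · rw [if_neg (fun h => hd (h2.1 h)), if_neg hd, neg_zero]
  omega

end galois

end

end Pool.Agent.TH117.BL
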