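import Pool.Agent.TH117.BL.Alg
import Pool.Agent.TH117.BL.Defs
import Pool.Agent.TH117.F5.Five

/-!
# Balanced families on powers of products of dimension at most five
-/

set_option autoImplicit false
set_option linter.unusedSectionVars false
set_option linter.unusedVariables false

namespace Pool.Agent.TH117.BL

open NumberField Pool.Agent.H204R3.CM Pool.Agent.W547.KB Pool.Agent.W547.LD Module
  Pool.Agent.W495.TA Pool.Agent.W495.TB Pool.Agent.W495.TC Pool.Agent.TH117.F5
open scoped TensorProduct

noncomputable section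

variable {p : ℕ} [Fact p.Prime] {ν : PadicAlgCl p ≃+* ℂ} {Ω : Type} [Field Ω] [CharZero Ω]
  {L : Type} [Field L] [NumberField L] [IsCMField L] [IsGalois ℚ L] (j : L →+* ℂ) (jO : L →+* Ω)

/-- No exceptional relation between the functions of two factors. -/
def NoExc (p : ℕ) [Fact p.Prime] (ν : PadicAlgCl p ≃+* ℂ) (j : L →+* ℂ) (A B : CMPair) : Prop :=
  ExcFields A B → ∀ (φ φ' : B.E →+* L) (ψ : A.E →+* L), φ' ≠ φ → φ' ≠ cc L • φ →
    nn p ν j B φ + nn p ν j B φ' ≠ nn p ν j A ψ

theorem nn_cc' (A : CMPair) (φ : A.E →+* L) : nn p ν j A (cc L • φ) = -nn p ν j A φ := nn_cc A φ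

/-- Products of dimension at most five. -/
theorem fam_ten (X : CMAV) (hXj : Big X j) (hk : BigA (kp p) j) (a : ℕ) (ha : 0 < a)
    (π : ∀ i, (X.factor i).E) (frob : ∀ i, IsFrobenius p ν (X.factor i) a (π i))
    (hsum : ∑ i, finrank ℚ (X.factor i).E ≤ 10)
    (hexc : ∀ i k : X.I, i ≠ k → NoExc p ν j (X.factor i) (X.factor k)) :
    Fam (AlgM p ν j jO) (tw p ν j X) := by
  classical
  have hfin : ∀ i, Finite ((X.factor i).E →+* L) := fun i => finite_emb j _
  let _ : ∀ i, Fintype ((X.factor i).E →+* L) := fun i => Fintype.ofFinite _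
  have hce : ∀ i, Fintype.card ((X.factor i).E →+* L) = finrank ℚ (X.factor i).E := fun i =>
    card_emb (hXj i)
  have hd : ∀ i, 2 ≤ finrank ℚ (X.factor i).E := fun i => finrank_pos' _
  have he : ∀ i, Even (finrank ℚ (X.factor i).E) := fun i => even_finrank _
  have hset : ∀ i, Setting (L ≃ₐ[ℚ] L) ((X.factor i).E →+* L) (cc L) := fun i =>
    setting j (X.factor i)
  have hsign : ∀ i, IsSign (cc L) (eps j (X.factor i)) := fun i => isSign_eps j (X.factor i)
  have hclosed := closedM (p := p) (ν := ν) j jO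
  have hc0 := cancel_zero (p := p) (ν := ν) j jO hk
  have hcc : ∀ (i : X.I) (φ : (X.factor i).E →+* L), cc L • cc L • φ = φ := fun i φ => by
    rw [← mul_smul, cc_cc, one_smul]
  have hsimple : ∀ i, finrank ℚ (X.factor i).E ≤ 10 →
      Fam (AlgM p ν j jO) (nn p ν j (X.factor i)) := fun i hi =>
    fam_simple j jO (X.factor i) hi (hXj i) a ha (π i) (frob i)
  have hle : ∀ i, finrank ℚ (X.factor i).E ≤ 10 := fun i =>
    (Finset.single_le_sum (f := fun i => finrank ℚ (X.factor i).E) (fun k _ => Nat.zero_le _)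
      (Finset.mem_univ i)).trans hsum
  have hsum2 : ∀ i k, i ≠ k → finrank ℚ (X.factor i).E + finrank ℚ (X.factor k).E ≤ 10 := by
    intro i k hik
    refine le_trans ?_ hsum
    have h1 := Finset.add_sum_erase Finset.univ (fun i => finrank ℚ (X.factor i).E)
      (Finset.mem_univ i)
    have hk' : k ∈ Finset.univ.erase i := Finset.mem_erase.2 ⟨hik.symm, Finset.mem_univ k⟩
    have h2 := Finset.add_sum_erase _ (fun i => finrank ℚ (X.factor i).E) hk'
    omega
  have hsum3 : ∀ i k l, i ≠ k → i ≠ l → k ≠ l → finrank ℚ (X.factor i).E +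
      finrank ℚ (X.factor k).E + finrank ℚ (X.factor l).E ≤ 10 := by
    intro i k l hik hil hkl
    refine le_trans ?_ hsum
    have h1 := Finset.add_sum_erase Finset.univ (fun i => finrank ℚ (X.factor i).E)
      (Finset.mem_univ i)
    have hk' : k ∈ Finset.univ.erase i := Finset.mem_erase.2 ⟨hik.symm, Finset.mem_univ k⟩
    have h2 := Finset.add_sum_erase _ (fun i => finrank ℚ (X.factor i).E) hk'
    have hl' : l ∈ (Finset.univ.erase i).erase k :=
      Finset.mem_erase.2 ⟨hkl.symm, Finset.mem_erase.2 ⟨hil.symm, Finset.mem_univ l⟩⟩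
    have h3 := Finset.add_sum_erase _ (fun i => finrank ℚ (X.factor i).E) hl'
    omega
  have hsum4 : ∀ i k l m, i ≠ k → i ≠ l → k ≠ l → i ≠ m → k ≠ m → l ≠ m →
      finrank ℚ (X.factor i).E + finrank ℚ (X.factor k).E + finrank ℚ (X.factor l).E +
        finrank ℚ (X.factor m).E ≤ 10 := by
    intro i k l m hik hil hkl him hkm hlm
    refine le_trans ?_ hsum
    have h1 := Finset.add_sum_erase Finset.univ (fun i => finrank ℚ (X.factor i).E)
      (Finset.mem_univ i)
    have hk' : k ∈ Finset.univ.erase i := Finset.mem_erase.2 ⟨hik.symm, Finset.mem_univ k⟩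
    have h2 := Finset.add_sum_erase _ (fun i => finrank ℚ (X.factor i).E) hk'
    have hl' : l ∈ (Finset.univ.erase i).erase k :=
      Finset.mem_erase.2 ⟨hkl.symm, Finset.mem_erase.2 ⟨hil.symm, Finset.mem_univ l⟩⟩
    have h3 := Finset.add_sum_erase _ (fun i => finrank ℚ (X.factor i).E) hl'
    have hm' : m ∈ (((Finset.univ.erase i).erase k).erase l) :=
      Finset.mem_erase.2 ⟨hlm.symm, Finset.mem_erase.2 ⟨hkm.symm,
        Finset.mem_erase.2 ⟨him.symm, Finset.mem_univ m⟩⟩⟩
    have h4 := Finset.add_sum_erase _ (fun i => finrank ℚ (X.factor i).E) hm'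
    omega
  -- only one factor
  have hone : ∀ i : X.I, (∀ k : X.I, k = i) → Fam (AlgM p ν j jO) (tw p ν j X) := by
    intro i hi
    have h1 : ∀ l : Wt X L, ∃ φ : (X.factor i).E →+* L, tw p ν j X l =
        nn p ν j (X.factor i) φ := by
      intro l
      obtain ⟨φ, hφ⟩ := exists_mk X l i (hi l.1)
      exact ⟨φ, by rw [hφ]⟩
    choose f hf using h1
    exact fam_of_map (tw p ν j X) (nn p ν j (X.factor i)) (fun l => some (f l)) hf
      (hsimple i (hle i))
  -- elliptic curves
  have hell : ∀ l : X.I, finrank ℚ (X.factor l).E = 2 →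
      (∀ e, nn p ν j (X.factor l) e = 0) ∨
        ∀ e, IsChar (cc L) (Dec p ν j) (nn p ν j (X.factor l) e) := by
    intro l hl
    obtain ⟨ψ⟩ : Nonempty ((X.factor l).E →+* ℂ) := inferInstance
    obtain ⟨e0, -⟩ := hXj l ψ
    have hcl := (hce l).trans hl
    have key : ∀ e, nn p ν j (X.factor l) e = 0 ∨
        IsChar (cc L) (Dec p ν j) (nn p ν j (X.factor l) e) := fun e =>
      char_or_zero (cc L) (hset l) hcl (Dec p ν j) (eps j (X.factor l)) (hsign l) e
    by_cases h0 : nn p ν j (X.factor l) e0 = 0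
    · left
      intro e
      obtain ⟨g, hg⟩ := (hset l).trans e0 e
      rw [← hg, nn_smul, h0]
      rfl
    · right
      intro e
      refine (key e).resolve_left fun h => h0 ?_
      obtain ⟨g, hg⟩ := (hset l).trans e e0
      rw [← hg, nn_smul, h]
      rfl
  rcases Classical.em (∃ i, 9 ≤ finrank ℚ (X.factor i).E) with hten | hten
  · obtain ⟨i, hi⟩ := hten
    refine hone i fun k => ?_
    by_contra hk
    have h1 := hsum2 i k (fun h => hk h.symm)
    have h2 := hd k
    omega
  push Not at hten
  rcases Classical.em (∃ i, 7 ≤ finrank ℚ (X.factor i).E) with height | height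
  · obtain ⟨i, hi⟩ := height
    have hi8 : finrank ℚ (X.factor i).E = 8 := by
      have h1 := hten i
      obtain ⟨b, hb⟩ := he i
      omega
    rcases Classical.em (∃ l, l ≠ i) with hl | hl
    swap
    · push Not at hl
      exact hone i hl
    obtain ⟨l, hli⟩ := hl
    have hl2 : finrank ℚ (X.factor l).E = 2 := by
      have h1 := hsum2 i l hli.symm
      have h2 := hd l
      omega
    have hall : ∀ k, k = i ∨ k = l := by
      intro k
      by_contra hcon
      push Not at hcon
      have h1 := hsum3 i l k hli.symm hcon.1.symm hcon.2.symm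
      have h2 := hd k
      omega
    rcases hell l hl2 with hz | hchar
    · -- the elliptic curve is supersingular
      have h1 : ∀ w : Wt X L, ∃ o : Option ((X.factor i).E →+* L), tw p ν j X w =
          ext0 (nn p ν j (X.factor i)) o := by
        intro w
        rcases hall w.1 with h | h
        · obtain ⟨φ, hφ⟩ := exists_mk X w i h
          exact ⟨some φ, by rw [hφ]; rfl⟩
        · obtain ⟨φ, hφ⟩ := exists_mk X w l h
          refine ⟨none, ?_⟩
          rw [hφ]
          exact hz φ
      choose f hf using h1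
      exact fam_of_map (tw p ν j X) (nn p ν j (X.factor i)) f hf (hsimple i (hle i))
    · obtain ⟨ψ⟩ : Nonempty ((X.factor l).E →+* ℂ) := inferInstance
      obtain ⟨e0, -⟩ := hXj l ψ
      have hX2 : ∀ e : (X.factor l).E →+* L, e = e0 ∨ e = cc L • e0 := by
        intro e
        have h1 : ({e0, cc L • e0} : Finset ((X.factor l).E →+* L)) = Finset.univ := by
          refine Finset.eq_univ_of_card _ ?_
          rw [Finset.card_pair ((hset l).ne e0).symm, (hce l).trans hl2]
        have h2 : e ∈ ({e0, cc L • e0} : Finset ((X.factor l).E →+* L)) := by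
          rw [h1]; exact Finset.mem_univ e
        simpa using h2
      have hfam := fam82 (Q := AlgM p ν j jO) (cc L) (hset i) ((hce i).trans hi8) (Dec p ν j)
        (eps j (X.factor i)) (hsign i) (nn p ν j (X.factor l) e0) (hchar e0) hclosed
        (fun φ => cancel_nn j jO (X.factor i) φ) (cancel_nn j jO (X.factor l) e0) hc0
        (hsimple i (hle i)) (by
          intro x y hxy hsum'
          by_cases hy : y = cc L • x
          · rw [hy] at hsum'
            have h1 : nn p ν j (X.factor i) x + nn p ν j (X.factor i) (cc L • x) = 0 := by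
              rw [nn_cc, add_neg_cancel]
            have h2 : nn p ν j (X.factor l) e0 = 0 := hsum'.symm.trans h1
            have h3 := (hchar e0).dot_pos
            rw [h2] at h3
            unfold dot at h3
            simp at h3
          · exact hexc l i hli (Or.inr ⟨hl2, hi8⟩) x y e0 hxy.symm hy hsum') (by
          intro s hs hsemi hresp u hu hrel
          exact @weil_six p _ ν Ω _ _ L _ _ _ _ j jO (X.factor i) _ ((hce i).trans hi8) s hs hsemi
            hresp _ (hchar e0) u hu hrel)
      have h1 : ∀ w : Wt X L, ∃ o : Option (((X.factor i).E →+* L) ⊕ Bool), tw p ν j X w =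
          ext0 (TX (Dec p ν j) (eps j (X.factor i)) (nn p ν j (X.factor l) e0)) o := by
        intro w
        rcases hall w.1 with h | h
        · obtain ⟨φ, hφ⟩ := exists_mk X w i h
          exact ⟨some (Sum.inl φ), by rw [hφ]; rfl⟩
        · obtain ⟨φ, hφ⟩ := exists_mk X w l h
          rcases hX2 φ with h' | h'
          · refine ⟨some (Sum.inr true), ?_⟩
            rw [hφ, h']
            rfl
          · refine ⟨some (Sum.inr false), ?_⟩
            rw [hφ, h']
            exact nn_cc (X.factor l) e0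
      choose f hf using h1
      exact fam_of_map (tw p ν j X) _ f hf hfam
  push Not at height
  have hdeg : ∀ i, finrank ℚ (X.factor i).E ≤ 6 := fun i => by have := height i; omega
  rcases Classical.em (∀ i k : X.I, ¬ IsBad p ν j (X.factor i) (X.factor k)) with hbad | hbad
  · exact fam_small j jO X hXj hk hdeg hbad
  push Not at hbad
  obtain ⟨i, k, hik⟩ := hbad
  have hne : i ≠ k := by
    rintro rfl
    obtain ⟨x, -⟩ := hik.wideA
    exact hik.ne x x rfl
  obtain ⟨e1, e2, e3, e4, e5⟩ := bad_two (hXj i) (hXj k) (hsum2 i k hne) (hdeg i) (hdeg k) hik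
  obtain ⟨-, a2⟩ := wide_card j (X.factor i) (hXj i) (hdeg i) hik.wideA
  obtain ⟨-, b2⟩ := wide_card j (X.factor k) (hXj k) (hdeg k) hik.wideB
  have hker : ∀ g : L ≃ₐ[ℚ] L, (∀ x : (X.factor i).E →+* L, g • x = x) ↔
      ∀ x : (X.factor k).E →+* L, g • x = x := by
    intro g
    constructor
    · intro h1 x
      exact b2 ((hik.ker g).1 (fun y => by rw [h1 y]) x)
    · intro h1 x
      exact a2 ((hik.ker g).2 (fun y => by rw [h1 y]) x)
  obtain ⟨g0, x0, y0, hx0, hy0⟩ := exists_nonreg j (X.factor i) (hXj i) e3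
  obtain ⟨g1, x1, y1, hx1, hy1⟩ := exists_nonreg j (X.factor k) (hXj k) e4
  have hci : Fintype.card ((X.factor i).E →+* L) = 4 := (hce i).trans e1
  have hck : Fintype.card ((X.factor k).E →+* L) = 4 := (hce k).trans e2
  have hfam := fam44 (Q := AlgM p ν j jO) (cc L) (hset i) (hset k) hci hck (Dec p ν j)
    (eps j (X.factor i)) (eps j (X.factor k)) (hsign i) (hsign k) a2 b2 hker g0 x0 y0 hx0 hy0
    hik.ne
    (fun x y hyx hycx z h => hexc k i hne.symm (Or.inl ⟨e2, e1, e4, e3, e5.symm⟩) x y z hyx hycx h)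
    (fun z w hwz hwcz x h => hexc i k hne (Or.inl ⟨e1, e2, e3, e4, e5⟩) z w x hwz hwcz h)
    hclosed (fun φ => cancel_nn j jO (X.factor i) φ) (fun φ => cancel_nn j jO (X.factor k) φ) hc0
  rcases Classical.em (∃ l, l ≠ i ∧ l ≠ k) with hl | hl
  · obtain ⟨l, hli, hlk⟩ := hl
    have hl2 : finrank ℚ (X.factor l).E = 2 := by
      have h1 := hsum3 i k l hne hli.symm hlk.symm
      have h2 := hd l
      omega
    have hall : ∀ m, m = i ∨ m = k ∨ m = l := by
      intro m
      by_contra hcon
      push Not at hcon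
      have h1 := hsum4 i k l m hne hli.symm hlk.symm hcon.1.symm hcon.2.1.symm hcon.2.2.symm
      have h2 := hd m
      have h3 := hd l
      omega
    have hdot0 : ∀ u : (L ≃ₐ[ℚ] L) → ℤ, dot u 0 = 0 := by
      intro u
      unfold dot
      simp
    have horth : ∀ (v : ((X.factor i).E →+* L) ⊕ ((X.factor k).E →+* L))
        (e : (X.factor l).E →+* L), dot (Sum.elim (nf (X := (X.factor i).E →+* L) (Dec p ν j)
          (eps j (X.factor i))) (nf (X := (X.factor k).E →+* L) (Dec p ν j)
          (eps j (X.factor k))) v) (nn p ν j (X.factor l) e) = 0 := by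
      intro v e
      rcases hell l hl2 with hz | hchar
      · rw [hz, hdot0]
      · rcases v with x | x
        · exact dot_four (cc L) (hset i) hci (Dec p ν j) _ (hsign i) _ (hchar e) g0 x0 y0 hx0
            hy0 x
        · exact dot_four (cc L) (hset k) hck (Dec p ν j) _ (hsign k) _ (hchar e) g1 x1 y1 hx1
            hy1 x
    have hfam2 := fam_orth hclosed hc0 _ _ hfam (hsimple l (hle l)) horth
    have h1 : ∀ w : Wt X L, ∃ o : (((X.factor i).E →+* L) ⊕ ((X.factor k).E →+* L)) ⊕
        ((X.factor l).E →+* L), tw p ν j X w = Sum.elim (Sum.elim (nf (X := (X.factor i).E →+* L)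
          (Dec p ν j) (eps j (X.factor i))) (nf (X := (X.factor k).E →+* L) (Dec p ν j)
          (eps j (X.factor k)))) (nn p ν j (X.factor l)) o := by
      intro w
      rcases hall w.1 with h | h | h
      · obtain ⟨φ, hφ⟩ := exists_mk X w i h
        exact ⟨Sum.inl (Sum.inl φ), by rw [hφ]; rfl⟩
      · obtain ⟨φ, hφ⟩ := exists_mk X w k h
        exact ⟨Sum.inl (Sum.inr φ), by rw [hφ]; rfl⟩
      · obtain ⟨φ, hφ⟩ := exists_mk X w l h
        exact ⟨Sum.inr φ, by rw [hφ]; rfl⟩
    choose f hf using h1
    exact fam_of_map (tw p ν j X) _ (fun w => some (f w)) hf hfam2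
  · push Not at hl
    have h1 : ∀ w : Wt X L, ∃ o : ((X.factor i).E →+* L) ⊕ ((X.factor k).E →+* L),
        tw p ν j X w = Sum.elim (nf (X := (X.factor i).E →+* L) (Dec p ν j)
          (eps j (X.factor i))) (nf (X := (X.factor k).E →+* L) (Dec p ν j)
          (eps j (X.factor k))) o := by
      intro w
      rcases Classical.em (w.1 = i) with h | h
      · obtain ⟨φ, hφ⟩ := exists_mk X w i h
        exact ⟨Sum.inl φ, by rw [hφ]; rfl⟩
      · obtain ⟨φ, hφ⟩ := exists_mk X w k (hl w.1 h)
        exact ⟨Sum.inr φ, by rw [hφ]; rfl⟩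
    choose f hf using h1
    exact fam_of_map (tw p ν j X) _ (fun w => some (f w)) hf hfam

end

end Pool.Agent.TH117.BL
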