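import Pool.Agent.TH117.BL.Flip

/-!
# Weil relations
-/

set_option autoImplicit false
set_option linter.unusedSectionVars false
set_option linter.unusedVariables false

namespace Pool.Agent.TH117.BL

open NumberField Pool.Agent.H204R3.CM Pool.Agent.W547.KB Pool.Agent.W547.LD Module
  Pool.Agent.W495.TA Pool.Agent.W495.TB Pool.Agent.W495.TC Pool.Agent.TH117.F5
open scoped TensorProduct

noncomputable section

variable {p : ℕ} [Fact p.Prime] {ν : PadicAlgCl p ≃+* ℂ} {Ω : Type} [Field Ω] [CharZero Ω]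
  {L : Type} [Field L] [NumberField L] [IsCMField L] [IsGalois ℚ L] (j : L →+* ℂ) (jO : L →+* Ω)

/-- The function of the half system of the imaginary quadratic field vanishes in the nonsplit
case. -/
theorem tf_half_zero {W : Type} [MulAction (L ≃ₐ[ℚ] L) W] {s : W → ℤ} {d0 : L ≃ₐ[ℚ] L}
    (hd0 : d0 ∈ Dec p ν j) (hneg : ∀ x, s (d0 • x) = -s x) {x₀ : W} (hx₀ : s x₀ = 1)
    (hsemi : ∀ g : L ≃ₐ[ℚ] L, (∀ x, s (g • x) = s x) ∨ ∀ x, s (g • x) = -s x) (u : ℤ)
    (hu : u = 1 ∨ u = -1) : tf p ν j {σ : L ≃ₐ[ℚ] L | u * s (σ • x₀) = 1} = 0 := by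
  classical
  have hval : ∀ g : L ≃ₐ[ℚ] L, s (g • x₀) = 1 ∨ s (g • x₀) = -1 := by
    intro g
    rcases hsemi g with h | h
    · left; rw [h, hx₀]
    · right; rw [h, hx₀]
  funext σ
  have h1 : tf p ν j {σ : L ≃ₐ[ℚ] L | u * s (σ • x₀) = 1} σ =
      ∑ d : L ≃ₐ[ℚ] L, if d ∈ Dec p ν j then u * s ((d * σ) • x₀) else 0 := by
    unfold tf
    refine Finset.sum_congr rfl fun d _ => ?_
    by_cases hd : d ∈ Dec p ν j
    · rw [if_pos hd, if_pos hd]
      have h2 : d * σ ∈ {σ : L ≃ₐ[ℚ] L | u * s (σ • x₀) = 1} ↔ u * s ((d * σ) • x₀) = 1 := Iff.rfl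
      rcases hu with h | h <;> rcases hval (d * σ) with h3 | h3 <;> simp only [h2] <;>
        simp only [h, h3] <;> norm_num
    · rw [if_neg hd, if_neg hd]
  have h2 : ∑ d : L ≃ₐ[ℚ] L, (if d ∈ Dec p ν j then u * s ((d * σ) • x₀) else 0) =
      -∑ d : L ≃ₐ[ℚ] L, if d ∈ Dec p ν j then u * s ((d * σ) • x₀) else 0 := by
    rw [← Finset.sum_neg_distrib]
    refine (Fintype.sum_equiv (Equiv.mulLeft d0) _ _ fun d => ?_).symm
    have h3 : d0 * d ∈ Dec p ν j ↔ d ∈ Dec p ν j := ⟨fun h => by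
      have := (Dec p ν j).mul_mem ((Dec p ν j).inv_mem hd0) h
      rwa [inv_mul_cancel_left] at this, fun h => (Dec p ν j).mul_mem hd0 h⟩
    change -(if d ∈ Dec p ν j then u * s ((d * σ) • x₀) else 0) =
      if d0 * d ∈ Dec p ν j then u * s ((d0 * d * σ) • x₀) else 0
    by_cases hd : d ∈ Dec p ν j
    · rw [if_pos hd, if_pos (h3.2 hd), mul_assoc d0, mul_smul d0, hneg]
      ring
    · rw [if_neg hd, if_neg fun h => hd (h3.1 h), neg_zero]
  rw [h1, Pi.zero_apply]
  omega

/-- Weil classes. -/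
theorem weil_alg (X : CMAV) [Fintype (Wt X L)] (hk : BigA (kp p) j) (s : Wt X L → ℤ)
    (hs : IsPartSign (L ≃ₐ[ℚ] L) (cc L) s)
    (hst : ∀ (τ : L ≃ₐ[ℚ] L) (w : Wt X L), tf p ν j (St j (τ • w)) = tf p ν j (St j w) →
      s (τ • w) = s w)
    (hrel : ∀ g, ∑ w, s w * tf p ν j (St j w) g = 0) (N : ℕ)
    (hN : N = Nat.card {w : Wt X L // s w = 1})
    (hsize : N = 3 ∨ N = 4 ∨ N = 5 ∨ N = 6 ∧ ∀ d ∈ Dec p ν j, ∀ w, s (d • w) = s w) :
    AlgM p ν j jO ({w : Wt X L // s w = 1} ⊕ Fin (N % 2))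
      (Sum.elim (fun w => tf p ν j (St j w.1)) fun _ => 0) := by
  classical
  have hclosed := closedM (p := p) (ν := ν) j jO
  have hc0 := cancel_zero (p := p) (ν := ν) j jO hk
  have hD : (0 : ℤ) < Nat.card (Dec p ν j) := card_pos'
  obtain ⟨x₀, hx₀⟩ : ∃ x₀ : Wt X L, s x₀ = 1 := by
    by_contra hcon
    push Not at hcon
    have h1 : IsEmpty {w : Wt X L // s w = 1} := ⟨fun w => hcon w.1 w.2⟩
    rw [Nat.card_of_isEmpty] at hN
    omega
  have hbal : ∀ (ε' : Wt X L → ℤ), IsSign (cc L) ε' → ∀ (r : ℕ) (u : ℤ),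
      posSum s ε' + r * u = 0 → Bal (G := L ≃ₐ[ℚ] L) ε' s r u := by
    intro ε' hε' r u h g w₁ hw₁
    have h1 := posSum_smul (G := L ≃ₐ[ℚ] L) (cc L) hs hε'.odd cc_cc hw₁ g
    have h2 : (∑ x, if s x = 1 then ε' (g • x) else 0) = s (g • w₁) * posSum s ε' := h1
    have h3 : (∑ x, if s x = 1 then ε' (g • x) else 0) + r * u * s (g • w₁) = 0 := by
      rw [h2]
      have h4 : s (g • w₁) * (posSum s ε' + r * u) = 0 := by rw [h, mul_zero]
      linarith
    convert h3
  rcases Classical.em (∀ d ∈ Dec p ν j, ∀ w, s (d • w) = s w) with hsplit | hsplit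
  · -- the split case
    have h0 : posSum s (epsX j X) = 0 := by
      have h1 := hrel 1
      have h2 : ∑ w, s w * tf p ν j (St j w) 1 =
          ∑ d : L ≃ₐ[ℚ] L, if d ∈ Dec p ν j then ∑ w, s w * epsX j X w else 0 := by
        have e1 : ∀ w : Wt X L, s w * tf p ν j (St j w) 1 =
            ∑ d : L ≃ₐ[ℚ] L, if d ∈ Dec p ν j then s w * epsX j X (d • w) else 0 := by
          intro w
          rw [tf_St]
          unfold nf
          rw [Finset.mul_sum]
          refine Finset.sum_congr rfl fun d _ => ?_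
          rw [mul_ite, mul_zero, one_smul]
        rw [Finset.sum_congr rfl fun w _ => e1 w, Finset.sum_comm]
        refine Finset.sum_congr rfl fun d _ => ?_
        by_cases hd : d ∈ Dec p ν j
        · simp only [if_pos hd]
          refine Fintype.sum_equiv (MulAction.toPerm d) _ _ fun w => ?_
          rw [MulAction.toPerm_apply, hsplit d hd]
        · simp only [if_neg hd, Finset.sum_const_zero]
      have h3 : ∑ w, s w * epsX j X w = 2 * posSum s (epsX j X) := by
        have e1 : ∀ w : Wt X L, s w * epsX j X w = (if s w = 1 then epsX j X w else 0) +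
            if s (cc L • w) = 1 then epsX j X (cc L • w) else 0 := by
          intro w
          rw [hs.odd, (isSign_epsX j X).odd]
          rcases hs.val w with h | h | h
          · rw [h, if_pos rfl, if_neg (by norm_num)]
            ring
          · rw [h, if_neg (by norm_num), if_pos (by norm_num)]
            ring
          · rw [h, if_neg (by norm_num), if_neg (by norm_num)]
            ring
        rw [Finset.sum_congr rfl fun w _ => e1 w, Finset.sum_add_distrib, two_mul]
        congr 1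
        exact Equiv.sum_comp (MulAction.toPerm (cc L)) fun w => if s w = 1 then epsX j X w else 0
      rw [h2, ← Finset.sum_filter, Finset.sum_const, nsmul_eq_mul, h3] at h1
      have h4 : ((Finset.univ.filter fun d => d ∈ Dec p ν j).card : ℤ) ≠ 0 := by
        have h5 : (1 : L ≃ₐ[ℚ] L) ∈ Finset.univ.filter fun d => d ∈ Dec p ν j := by
          rw [Finset.mem_filter]
          exact ⟨Finset.mem_univ _, (Dec p ν j).one_mem⟩
        have h6 := Finset.card_pos.2 ⟨_, h5⟩
        omega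
      have h5 := (mul_eq_zero.1 h1).resolve_left h4
      omega
    obtain ⟨k, hk'⟩ := posSum_parity (s := s) (isSign_epsX j X).sign
    rw [h0, ← hN] at hk'
    have hN46 : N = 4 ∨ N = 6 := by omega
    have hmod : N % 2 = 0 := by omega
    have h1 : AlgM p ν j jO ({w : Wt X L // s w = 1} ⊕ Fin 0)
        (Sum.elim (fun w => tf p ν j (St j w.1))
          fun _ => tf p ν j {σ : L ≃ₐ[ℚ] L | 1 * s (σ • x₀) = 1}) := by
      intro _ _
      exact blockCore Pool.Agent.W366.TA.val Pool.Agent.W64.TA.ru Pool.Agent.W67.TA.basis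
        Pool.Agent.W82.TA.pull Pool.Agent.W333.TA.closed1 Pool.Agent.W918.TB.orb
        Pool.Agent.W902.TB.honda Pool.Agent.W177.TB.weilG p ν Ω L j jO X s hs hst (epsX j X)
        (isSign_epsX j X) (fun w => rfl) 0 1 (Or.inl rfl) (by rw [← hN]; omega)
        (hbal _ (isSign_epsX j X) 0 1 (by rw [h0]; norm_num)) x₀ hx₀
    refine @Closed.reindex _ _ hclosed _ _ _ (Equiv.sumCongr (Equiv.refl _)
      (finCongr hmod.symm)) _ _ ?_ @h1
    rintro (w | i)
    · rfl
    · exact i.elim0
  · -- the nonsplit case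
    obtain ⟨d0, hd0, hneg⟩ : ∃ d0 ∈ Dec p ν j, ∀ w, s (d0 • w) = -s w := by
      push Not at hsplit
      obtain ⟨d0, hd0, w, hw⟩ := hsplit
      rcases hs.semi d0 with h | h
      · exact absurd (h w) hw
      · exact ⟨d0, hd0, h⟩
    have hN345 : N = 3 ∨ N = 4 ∨ N = 5 := by
      rcases hsize with h | h | h | ⟨-, h⟩
      · exact Or.inl h
      · exact Or.inr (Or.inl h)
      · exact Or.inr (Or.inr h)
      · exact absurd h hsplit
    obtain ⟨ε', hε', hnf, hlow, hhigh⟩ := exists_flip (G := L ≃ₐ[ℚ] L) (cc L)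
      (fun g => cc_comm j g) cc_cc (cc_ne_wt j X) (Dec p ν j) (isSign_epsX j X) hs hd0 hneg
    obtain ⟨k, hk'⟩ := posSum_parity (s := s) hε'.sign
    rw [← hN] at hk'
    set F := posSum s ε' with hF
    have htf0 : ∀ u : ℤ, u = 1 ∨ u = -1 →
        tf p ν j {σ : L ≃ₐ[ℚ] L | u * s (σ • x₀) = 1} = 0 := fun u hu =>
      tf_half_zero j hd0 hneg hx₀ hs.semi u hu
    have hmain : ∀ (r : ℕ) (u : ℤ), u = 1 ∨ u = -1 → (N + r = 4 ∨ N + r = 6) → F + r * u = 0 →
        AlgM p ν j jO ({w : Wt X L // s w = 1} ⊕ Fin r)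
          (Sum.elim (fun w => tf p ν j (St j w.1)) fun _ => 0) := by
      intro r u hu hr hFr
      have h1 : AlgM p ν j jO ({w : Wt X L // s w = 1} ⊕ Fin r)
          (Sum.elim (fun w => tf p ν j (St j w.1))
            fun _ => tf p ν j {σ : L ≃ₐ[ℚ] L | u * s (σ • x₀) = 1}) := by
        intro _ _
        exact blockCore Pool.Agent.W366.TA.val Pool.Agent.W64.TA.ru Pool.Agent.W67.TA.basis
          Pool.Agent.W82.TA.pull Pool.Agent.W333.TA.closed1 Pool.Agent.W918.TB.orb
          Pool.Agent.W902.TB.honda Pool.Agent.W177.TB.weilG p ν Ω L j jO X s hs hst ε'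
          hε' hnf r u hu (by rw [← hN]; exact hr) (hbal _ hε' r u hFr) x₀ hx₀
      rw [htf0 u hu] at h1
      exact @h1
    let tt : ∀ r : ℕ, {w : Wt X L // s w = 1} ⊕ Fin r → (L ≃ₐ[ℚ] L) → ℤ := fun r =>
      Sum.elim (fun w => tf p ν j (St j w.1)) fun _ => 0
    rcases Nat.mod_two_eq_zero_or_one N with hmod | hmod
    · have hN4 : N = 4 := by omega
      have hF2 : F = 0 ∨ F = 2 ∨ F = -2 := by omega
      have h4 : AlgM p ν j jO {w : Wt X L // s w = 1} fun w => tf p ν j (St j w.1) := by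
        rcases hF2 with h | h | h
        · have h1 : AlgM p ν j jO ({w : Wt X L // s w = 1} ⊕ Fin 0) (tt 0) :=
            @hmain 0 1 (Or.inl rfl) (Or.inl (by omega)) (by rw [h]; norm_num)
          refine @Closed.reindex _ _ hclosed _ _ _ (Equiv.sumEmpty _ (Fin 0)) (tt 0) _ ?_ @h1
          rintro (w | i)
          · rfl
          · exact i.elim0
        · have h1 : AlgM p ν j jO ({w : Wt X L // s w = 1} ⊕ Fin 2) (tt 2) :=
            @hmain 2 (-1) (Or.inr rfl) (Or.inr (by omega)) (by rw [h]; norm_num)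
          refine @hc0 _ _ _ ?_
          refine @Closed.reindex _ _ hclosed _ _ _ (Equiv.refl _) (tt 2) _ ?_ @h1
          rintro (w | i)
          · rfl
          · fin_cases i
            · rfl
            · exact neg_zero
        · have h1 : AlgM p ν j jO ({w : Wt X L // s w = 1} ⊕ Fin 2) (tt 2) :=
            @hmain 2 1 (Or.inl rfl) (Or.inr (by omega)) (by rw [h]; norm_num)
          refine @hc0 _ _ _ ?_
          refine @Closed.reindex _ _ hclosed _ _ _ (Equiv.refl _) (tt 2) _ ?_ @h1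
          rintro (w | i)
          · rfl
          · fin_cases i
            · rfl
            · exact neg_zero
      have hE : IsEmpty (Fin (N % 2)) := by
        rw [hmod]
        infer_instance
      refine @Closed.reindex _ _ hclosed _ _ _ (Equiv.sumEmpty _ _).symm _ _ ?_ @h4
      intro w
      rfl
    · have hF1 : F = 1 ∨ F = -1 := by omega
      have h1 : AlgM p ν j jO ({w : Wt X L // s w = 1} ⊕ Fin 1)
          (Sum.elim (fun w => tf p ν j (St j w.1)) fun _ => 0) := by
        rcases hF1 with h | h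
        · exact hmain 1 (-1) (Or.inr rfl) (by omega) (by rw [h]; norm_num)
        · exact hmain 1 1 (Or.inl rfl) (by omega) (by rw [h]; norm_num)
      refine @Closed.reindex _ _ hclosed _ _ _ (Equiv.sumCongr (Equiv.refl _)
        (finCongr hmod.symm)) (tt 1) _ ?_ @h1
      rintro (w | i)
      · rfl
      · rfl

end

end Pool.Agent.TH117.BL
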