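import Pool.Agent.TH117.BL.Weil

/-!
# Weil relations and Weil classes
-/

set_option autoImplicit false
set_option linter.unusedSectionVars false
set_option linter.unusedVariables false

namespace Pool.Agent.TH117.BL

open NumberField Pool.Agent.H204R3.CM Pool.Agent.W547.KB Pool.Agent.W547.LD Module
  Pool.Agent.W495.TA Pool.Agent.W495.TB Pool.Agent.W495.TC Pool.Agent.TH117.F5
open scoped TensorProduct

noncomputable section

variable {p : ℕ} [Fact p.Prime] {ν : PadicAlgCl p ≃+* ℂ} {Ω : Type} [Field Ω] [CharZero Ω]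
  {L : Type} [Field L] [NumberField L] [IsCMField L] [IsGalois ℚ L] {j : L →+* ℂ} (jO : L →+* Ω)
  {Z : RedAV p ν}

/-- The conjugate embedding is different. -/
theorem conj_ne {K : Type} [Field K] [NumberField K] [IsCMField K] (κ : K →+* ℂ) :
    ComplexEmbedding.conjugate κ ≠ κ := by
  intro h
  exact IsTotallyComplex.complexEmbedding_not_isReal κ (ComplexEmbedding.isReal_iff.2 h)

/-- The embeddings of an imaginary quadratic field. -/
theorem emb_quadratic {K : Type} [Field K] [NumberField K] [IsCMField K] (hK : finrank ℚ K = 2)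
    (κ κ' : K →+* ℂ) : κ' = κ ∨ κ' = ComplexEmbedding.conjugate κ := by
  classical
  have h1 : ({κ, ComplexEmbedding.conjugate κ} : Finset (K →+* ℂ)) = Finset.univ := by
    refine Finset.eq_univ_of_card _ ?_
    rw [Finset.card_pair (conj_ne κ).symm, Embeddings.card, hK]
  have h2 : κ' ∈ ({κ, ComplexEmbedding.conjugate κ} : Finset (K →+* ℂ)) := by
    rw [h1]; exact Finset.mem_univ _
  simpa using h2

theorem comp_cc {K : Type} [Field K] (l : K →+* L) :
    j.comp (cc L • l) = ComplexEmbedding.conjugate (j.comp l) := by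
  ext x
  change j (cc L (l x)) = _
  rw [emb_cc, ComplexEmbedding.conjugate_coe_eq]
  rfl

theorem smul_comp {K E : Type} [Field K] [Field E] (g : L ≃ₐ[ℚ] L) (φ : E →+* L) (ι : K →+* E) :
    (g • φ).comp ι = g • φ.comp ι := rfl

theorem cancel_j {K : Type} [Field K] {l l' : K →+* L} (h : j.comp l = j.comp l') : l = l' := by
  ext a
  exact j.injective (RingHom.congr_fun h a)

/-- A relation between two functions. -/
theorem rel_two (hZ : Big Z.X j) (u v : Wt Z.X L)
    (h : tw p ν j Z.X u + tw p ν j Z.X v = 0) :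
    ∃ n : ℕ, 0 < n ∧ ((j.comp u.2) (Z.π u.1) * (j.comp v.2) (Z.π v.1)) ^ n =
      ((p : ℂ) ^ Z.a) ^ n := by
  classical
  have hfin := finite_wt j hZ
  let _ : Fintype (Wt Z.X L) := Fintype.ofFinite _
  have hbij := toEmb_bijective (j := j) hZ
  let E : Wt Z.X L ≃ Emb Z := Equiv.ofBijective _ hbij
  let e : Emb Z → ℕ := fun x => (if x = toEmb j Z u then 1 else 0) +
    if x = toEmb j Z v then 1 else 0
  have h1 : IsRel Z e := by
    rw [isRel_iff hZ]
    intro σ
    have e1 : ∀ w : Wt Z.X L, (e (toEmb j Z w) : ℤ) * tw p ν j Z.X w σ =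
        (if w = u then tw p ν j Z.X w σ else 0) + if w = v then tw p ν j Z.X w σ else 0 := by
      intro w
      have e2 : ∀ v : Wt Z.X L, toEmb j Z w = toEmb j Z v ↔ w = v := fun v =>
        hbij.1.eq_iff
      change (((if toEmb j Z w = toEmb j Z u then 1 else 0) +
        (if toEmb j Z w = toEmb j Z v then 1 else 0) : ℕ) : ℤ) * _ = _
      simp only [e2]
      split_ifs <;> push_cast <;> ring
    rw [Finset.sum_congr rfl fun w _ => e1 w, Finset.sum_add_distrib,
      Finset.sum_ite_eq' Finset.univ u fun w => tw p ν j Z.X w σ,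
      Finset.sum_ite_eq' Finset.univ v fun w => tw p ν j Z.X w σ, if_pos (Finset.mem_univ _),
      if_pos (Finset.mem_univ _)]
    exact congrFun h σ
  obtain ⟨s, hs, h2⟩ := h1
  refine ⟨2 * s, by omega, ?_⟩
  have h3 : ∏ w : Emb Z, eig Z w ^ e w =
      (j.comp u.2) (Z.π u.1) * (j.comp v.2) (Z.π v.1) := by
    have e1 : ∀ w : Emb Z, eig Z w ^ e w =
        (if w = toEmb j Z u then eig Z w else 1) *
          if w = toEmb j Z v then eig Z w else 1 := by
      intro w
      change eig Z w ^ ((if w = toEmb j Z u then 1 else 0) +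
        if w = toEmb j Z v then 1 else 0) = _
      rw [pow_add]
      congr 1
      · split_ifs
        · rw [pow_one]
        · rw [pow_zero]
      · split_ifs
        · rw [pow_one]
        · rw [pow_zero]
    rw [Finset.prod_congr rfl fun w _ => e1 w, Finset.prod_mul_distrib,
      Finset.prod_ite_eq' Finset.univ (toEmb j Z u) fun w => eig Z w,
      Finset.prod_ite_eq' Finset.univ (toEmb j Z v) fun w => eig Z w,
      if_pos (Finset.mem_univ _), if_pos (Finset.mem_univ _)]
    rfl
  have h4 : ∑ w : Emb Z, e w = 2 := by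
    change ∑ w : Emb Z, ((if w = toEmb j Z u then 1 else 0) +
      if w = toEmb j Z v then 1 else 0) = 2
    rw [Finset.sum_add_distrib, Finset.sum_ite_eq' Finset.univ (toEmb j Z u) fun _ => 1,
      Finset.sum_ite_eq' Finset.univ (toEmb j Z v) fun _ => 1, if_pos (Finset.mem_univ _),
      if_pos (Finset.mem_univ _)]
  rw [h3, h4] at h2
  rw [h2, mul_comm s 2]

/-- Weil relations give good families. -/
theorem genD_weil (hZ : Big Z.X j) (hkp : BigA (kp p) j) [Fintype (Wt Z.X L)] (e : Emb Z → ℕ)
    (hrel : IsRel Z e) (he : IsWeilRelation Z e) :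
    GenD (AlgM p ν j jO) (Set.range (ext0 (tw p ν j Z.X)))
      (DD (tw p ν j Z.X) fun l => (e (toEmb j Z l) : ℤ)) := by
  classical
  obtain ⟨W, hW, hpair, hsize⟩ := he
  have hbij := toEmb_bijective (j := j) hZ
  let E : Wt Z.X L ≃ Emb Z := Equiv.ofBijective _ hbij
  rw [isRel_iff hZ] at hrel
  have hpos3 : 3 ≤ ∑ w, e w := by
    rcases hsize with h | h
    · exact h.1
    · omega
  -- the embedding of `K` in `L`
  obtain ⟨κL, hκL⟩ : ∃ κL : W.K →+* L, j.comp κL = W.κ := by
    have h1 : ∃ w, e w ≠ 0 := by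
      by_contra hcon
      push Not at hcon
      rw [Finset.sum_eq_zero fun w _ => hcon w] at hpos3
      omega
    obtain ⟨w, hw⟩ := h1
    rw [hW] at hw
    have hw' : W.IsPos w := by
      by_contra hcon
      rw [if_neg hcon] at hw
      exact hw rfl
    obtain ⟨hS, h2⟩ := hw'
    obtain ⟨φ, hφ⟩ := hZ w.1 w.2
    refine ⟨φ.comp (W.ι w.1 hS), ?_⟩
    rw [← h2, ← hφ]
    rfl
  have hccne : cc L • κL ≠ κL := by
    intro h
    have h1 := comp_cc (j := j) κL
    rw [h, hκL] at h1
    exact conj_ne W.κ h1.symm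
  have hcc2 : cc L • cc L • κL = κL := by rw [← mul_smul, cc_cc, one_smul]
  have htwo : ∀ l : W.K →+* L, l = κL ∨ l = cc L • κL := by
    intro l
    rcases emb_quadratic W.quadratic W.κ (j.comp l) with h | h
    · left
      exact cancel_j (h.trans hκL.symm)
    · right
      apply cancel_j (j := j)
      rw [h, comp_cc, hκL]
  -- the sign
  let s : Wt Z.X L → ℤ := fun w => if h : w.1 ∈ W.S then
    (if w.2.comp (W.ι w.1 h) = κL then 1 else -1) else 0
  have s_in : ∀ (w : Wt Z.X L) (h : w.1 ∈ W.S), s w =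
      if w.2.comp (W.ι w.1 h) = κL then 1 else -1 := fun w h => dif_pos h
  have s_out : ∀ (w : Wt Z.X L) (h : w.1 ∉ W.S), s w = 0 := fun w h => dif_neg h
  have s_smul : ∀ (g : L ≃ₐ[ℚ] L) (w : Wt Z.X L) (h : w.1 ∈ W.S), s (g • w) =
      if g • w.2.comp (W.ι w.1 h) = κL then 1 else -1 := fun g w h => s_in (g • w) h
  have hs1 : ∀ w : Wt Z.X L, s w = 1 ↔ W.IsPos (toEmb j Z w) := by
    intro w
    by_cases h : w.1 ∈ W.S
    · rw [s_in w h]
      constructor
      · intro h1
        refine ⟨h, ?_⟩
        have h2 : w.2.comp (W.ι w.1 h) = κL := by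
          by_contra h3
          rw [if_neg h3] at h1
          norm_num at h1
        rw [← hκL, ← h2]
        rfl
      · rintro ⟨h', h2⟩
        rw [if_pos]
        apply cancel_j (j := j)
        rw [hκL, ← h2]
        rfl
    · rw [s_out w h]
      constructor
      · intro h1
        norm_num at h1
      · rintro ⟨h', -⟩
        exact absurd h' h
  have hcclt : ∀ g : L ≃ₐ[ℚ] L, g • cc L • κL = cc L • g • κL := by
    intro g
    rw [← mul_smul, ← mul_smul, cc_comm j g]
  have hs : IsPartSign (L ≃ₐ[ℚ] L) (cc L) s := by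
    refine ⟨fun w => ?_, fun w => ?_, fun g => ?_⟩
    · by_cases h : w.1 ∈ W.S
      · rw [s_in w h]
        split_ifs
        · exact Or.inl rfl
        · exact Or.inr (Or.inl rfl)
      · exact Or.inr (Or.inr (s_out w h))
    · by_cases h : w.1 ∈ W.S
      · rw [s_smul _ w h, s_in w h]
        rcases htwo (w.2.comp (W.ι w.1 h)) with h1 | h1
        · rw [h1, if_pos rfl, if_neg hccne]
        · rw [h1, hcc2, if_pos rfl, if_neg hccne, neg_neg]
      · rw [s_out w h, neg_zero]
        exact s_out _ h
    · rcases htwo (g • κL) with hg | hg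
      · left
        intro w
        by_cases h : w.1 ∈ W.S
        · rw [s_smul _ w h, s_in w h]
          rcases htwo (w.2.comp (W.ι w.1 h)) with h1 | h1
          · rw [h1, hg]
          · rw [h1, hcclt, hg]
        · rw [s_out w h]
          exact s_out _ h
      · right
        intro w
        by_cases h : w.1 ∈ W.S
        · rw [s_smul _ w h, s_in w h]
          rcases htwo (w.2.comp (W.ι w.1 h)) with h1 | h1
          · rw [h1, hg, if_pos rfl, if_neg hccne]
          · rw [h1, hcclt, hg, hcc2, if_pos rfl, if_neg hccne, neg_neg]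
        · rw [s_out w h, neg_zero]
          exact s_out _ h
  have htwSt : ∀ w : Wt Z.X L, tf p ν j (St j w) = tw p ν j Z.X w := fun w => tf_nn Z.X w.1 w.2
  -- no pairs
  have hnopair : ∀ u v : Wt Z.X L, s u = 1 → s v = 1 → u.1 = v.1 →
      tw p ν j Z.X u + tw p ν j Z.X v ≠ 0 := by
    intro u v hu hv huv h
    obtain ⟨n, hn, h1⟩ := rel_two hZ u v h
    exact hpair (toEmb j Z u) (toEmb j Z v) ((hs1 u).1 hu) ((hs1 v).1 hv) huv n hn h1
  have hst : ∀ (τ : L ≃ₐ[ℚ] L) (w : Wt Z.X L), tf p ν j (St j (τ • w)) = tf p ν j (St j w) →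
      s (τ • w) = s w := by
    intro τ w h
    rw [htwSt, htwSt] at h
    have hodd : ∀ w : Wt Z.X L, tw p ν j Z.X (cc L • w) = -tw p ν j Z.X w := fun w =>
      nn_cc (Z.X.factor w.1) w.2
    rcases hs.semi τ with h1 | h1
    · exact h1 w
    · rcases hs.val w with h2 | h2 | h2
      · exfalso
        refine hnopair w (cc L • τ • w) h2 ?_ rfl ?_
        · rw [hs.odd, h1, h2]
          norm_num
        · rw [hodd, h, add_neg_cancel]
      · exfalso
        refine hnopair (cc L • w) (τ • w) ?_ ?_ rfl ?_
        · rw [hs.odd, h2]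
          norm_num
        · rw [h1, h2]
          norm_num
        · rw [hodd, h, neg_add_cancel]
      · rw [h1, h2, neg_zero]
  -- the number of positive signs
  have hcount : ∀ w : Wt Z.X L, e (toEmb j Z w) = if s w = 1 then 1 else 0 := by
    intro w
    rw [hW]
    by_cases h : s w = 1
    · rw [if_pos h, if_pos ((hs1 w).1 h)]
    · rw [if_neg h, if_neg fun h' => h ((hs1 w).2 h')]
  set N : ℕ := Nat.card {w : Wt Z.X L // s w = 1} with hN
  have hNe : ∑ w, e w = N := by
    rw [← Equiv.sum_comp E]
    change ∑ w, e (toEmb j Z w) = N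
    rw [Finset.sum_congr rfl fun w _ => hcount w, Finset.sum_boole, hN,
      Nat.card_eq_fintype_card, Fintype.card_subtype]
    rfl
  have hrel0 : ∀ g, ∑ w, (if s w = 1 then tw p ν j Z.X w g else 0) = 0 := by
    intro g
    refine (Finset.sum_congr rfl fun w _ => ?_).trans (hrel g)
    rw [hcount]
    split_ifs
    · push_cast
      ring
    · push_cast
      ring
  have hrel1 : ∀ g, ∑ w, s w * tf p ν j (St j w) g = 0 := by
    intro g
    have e1 : ∀ w : Wt Z.X L, s w * tf p ν j (St j w) g =
        (if s w = 1 then tw p ν j Z.X w g else 0) +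
          if s (cc L • w) = 1 then tw p ν j Z.X (cc L • w) g else 0 := by
      intro w
      have e2 : tw p ν j Z.X (cc L • w) g = -tw p ν j Z.X w g :=
        congrFun (nn_cc (p := p) (ν := ν) (j := j) (Z.X.factor w.1) w.2) g
      rw [htwSt, hs.odd, e2]
      rcases hs.val w with h | h | h
      · rw [h, if_pos rfl, if_neg (by norm_num)]
        ring
      · rw [h, if_neg (by norm_num), if_pos (by norm_num)]
        ring
      · rw [h, if_neg (by norm_num), if_neg (by norm_num)]
        ring
    rw [Finset.sum_congr rfl fun w _ => e1 w, Finset.sum_add_distrib, hrel0 g, zero_add]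
    exact (Equiv.sum_comp (MulAction.toPerm (cc L)) fun w : Wt Z.X L =>
      if s w = 1 then tw p ν j Z.X w g else 0).trans (hrel0 g)
  -- the decomposition group
  have hsplit : ¬ SamePlace p ν W.κ (ComplexEmbedding.conjugate W.κ) →
      ∀ d ∈ Dec p ν j, ∀ w, s (d • w) = s w := by
    intro hns d hd
    have h1 : d • κL = κL := by
      rcases htwo (d • κL) with h | h
      · exact h
      · exfalso
        apply hns
        obtain ⟨τ, hτ⟩ := hd
        refine ⟨τ, fun x => ?_⟩
        have h2 := RingHom.congr_fun (comp_cc (j := j) κL) x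
        rw [← h, hκL] at h2
        rw [← h2]
        change j (d (κL x)) = _
        rw [hτ, ← hκL]
        rfl
    intro w
    by_cases h : w.1 ∈ W.S
    · rw [s_smul _ w h, s_in w h]
      rcases htwo (w.2.comp (W.ι w.1 h)) with h2 | h2
      · rw [h2, h1]
      · rw [h2, hcclt, h1]
    · rw [s_out w h]
      exact s_out _ h
  have hsizeN : N = 3 ∨ N = 4 ∨ N = 5 ∨ N = 6 ∧ ∀ d ∈ Dec p ν j, ∀ w, s (d • w) = s w := by
    rcases hsize with h | h
    · rw [hNe] at h
      omega
    · rw [hNe] at h
      exact Or.inr (Or.inr (Or.inr ⟨h.1, hsplit h.2⟩))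
  -- the two families
  have hQ1 := @weil_alg p _ ν Ω _ _ L _ _ _ _ j jO Z.X _ hkp s hs hst hrel1 N rfl hsizeN
  let s' : Wt Z.X L → ℤ := fun w => -s w
  have hs' : IsPartSign (L ≃ₐ[ℚ] L) (cc L) s' := by
    refine ⟨fun w => ?_, fun w => ?_, fun g => ?_⟩
    · rcases hs.val w with h | h | h
      · exact Or.inr (Or.inl (by simp only [s', h]))
      · exact Or.inl (by simp only [s', h, neg_neg])
      · exact Or.inr (Or.inr (by simp only [s', h, neg_zero]))
    · simp only [s', hs.odd]
    · rcases hs.semi g with h | h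
      · left
        intro w
        simp only [s', h]
      · right
        intro w
        simp only [s', h]
  let C : {w : Wt Z.X L // s' w = 1} ≃ {w : Wt Z.X L // s w = 1} :=
    { toFun := fun w => ⟨cc L • w.1, by rw [hs.odd]; exact w.2⟩
      invFun := fun w => ⟨cc L • w.1, by
        change -s (cc L • w.1) = 1
        rw [hs.odd, neg_neg]
        exact w.2⟩
      left_inv := fun w => Subtype.ext (by
        change cc L • cc L • w.1 = w.1
        rw [← mul_smul, cc_cc, one_smul])
      right_inv := fun w => Subtype.ext (by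
        change cc L • cc L • w.1 = w.1
        rw [← mul_smul, cc_cc, one_smul]) }
  have hQ2 := @weil_alg p _ ν Ω _ _ L _ _ _ _ j jO Z.X _ hkp s' hs' (fun τ w h => by
    change -s (τ • w) = -s w
    rw [hst τ w h]) (fun g => by
      have h1 := hrel1 g
      have e1 : ∀ w : Wt Z.X L, s' w * tf p ν j (St j w) g = -(s w * tf p ν j (St j w) g) :=
        fun w => by
          change -s w * _ = _
          ring
      rw [Finset.sum_congr rfl fun w _ => e1 w, Finset.sum_neg_distrib, h1, neg_zero]) N
    (by rw [hN]; exact (Nat.card_congr C).symm) (by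
      rcases hsizeN with h | h | h | ⟨h, h'⟩
      · exact Or.inl h
      · exact Or.inr (Or.inl h)
      · exact Or.inr (Or.inr (Or.inl h))
      · refine Or.inr (Or.inr (Or.inr ⟨h, fun d hd w => ?_⟩))
        change -s (d • w) = -s w
        rw [h' d hd w])
  -- the labels
  let b : {w : Wt Z.X L // s w = 1} ⊕ Fin (N % 2) → Option (Wt Z.X L) :=
    Sum.elim (fun w => some w.1) fun _ => none
  have hcnt : cnt b = fun l => (e (toEmb j Z l) : ℤ) := by
    funext l
    rw [hcount]
    unfold cnt
    rw [card_eq_sum, Fintype.sum_sum_type]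
    have h1 : ∑ k : Fin (N % 2), (if b (Sum.inr k) = some l then (1 : ℤ) else 0) = 0 :=
      Finset.sum_eq_zero fun k _ => if_neg (by simp [b])
    rw [h1, add_zero]
    by_cases h : s l = 1
    · rw [if_pos h, Finset.sum_eq_single ⟨l, h⟩]
      · rw [if_pos (show b (Sum.inl ⟨l, h⟩) = some l from rfl)]
        norm_num
      · intro k _ hk
        rw [if_neg]
        intro h2
        exact hk (Subtype.ext (Option.some_injective _ h2))
      · intro h2
        exact absurd (Finset.mem_univ _) h2
    · rw [if_neg h]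
      have h2 : ∀ k : {w : Wt Z.X L // s w = 1}, (if b (Sum.inl k) = some l then (1 : ℤ) else 0) =
          0 := by
        intro k
        rw [if_neg]
        intro h2
        have h3 : k.1 = l := Option.some_injective _ h2
        rw [← h3] at h
        exact h k.2
      rw [Finset.sum_congr rfl fun k _ => h2 k, Finset.sum_const_zero]
      norm_num
  have hDD : DD (tw p ν j Z.X) (fun l => (e (toEmb j Z l) : ℤ)) =
      dcnt fun k => ext0 (tw p ν j Z.X) (b k) := by
    rw [dcnt_eq_DD, hcnt]
  rw [hDD]
  refine GenD.of_good ⟨inferInstance, ?_, fun k => ⟨b k, rfl⟩, ?_, ?_⟩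
  · rw [Nat.card_sum, Nat.card_eq_fintype_card (α := Fin (N % 2)), Fintype.card_fin, ← hN]
    rcases Nat.mod_two_eq_zero_or_one N with h | h
    · rw [h, add_zero]
      exact Nat.even_iff.2 h
    · rw [h]
      exact (Nat.odd_iff.2 h).add_one
  · have h1 : (fun k => ext0 (tw p ν j Z.X) (b k)) =
        Sum.elim (fun w : {w : Wt Z.X L // s w = 1} => tf p ν j (St j w.1))
          fun _ : Fin (N % 2) => 0 := by
      funext k
      rcases k with k | k
      · exact (htwSt k.1).symm
      · rfl
    rw [h1]
    exact @hQ1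
  · refine @Closed.reindex _ _ (closedM (p := p) (ν := ν) j jO) _ _ _
      (Equiv.sumCongr C (Equiv.refl (Fin (N % 2)))) (Sum.elim
        (fun w : {w : Wt Z.X L // s' w = 1} => tf p ν j (St j w.1)) fun _ => 0) _ ?_ @hQ2
    rintro (k | k)
    · change -tw p ν j Z.X (cc L • k.1) = tf p ν j (St j k.1)
      rw [htwSt]
      have h1 : tw p ν j Z.X (cc L • k.1) = -tw p ν j Z.X k.1 := nn_cc (Z.X.factor k.1.1) k.1.2
      rw [h1, neg_neg]
    · exact neg_zero

end

end Pool.Agent.TH117.BL
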